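import Mathlib
import Pool.Agent.Lib.MP_eacabd_co.Gold8.OneQuad
import Pool.Agent.Lib.MP_eacabd_co.Gold8.Switch8

/-!
The switching class of the cube function, any number of steps: statements of the modules.
-/

set_option autoImplicit false

namespace Pool.Agent.Lib.MP_eacabd_co.Clo8

open Finset Pool.Agent.Lib.MP_eacabd_co Pool.Agent.Lib.MP_eacabd_co.Gold8

/-- cyclic distance at least 43 -/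
def Far43 {n : ℕ} (x y : ZMod n) : Prop := 43 ≤ (y - x).val ∧ (y - x).val + 43 ≤ n

/-- (ISL) the pieces of a relation between powers of two are distributed to the far targets -/
def StIsl : Prop := ∀ (n : ℕ) [NeZero n], 610 ≤ n → ∀ (m : ℕ) (κ lam : Type) [Fintype κ]
    [Fintype lam] (x : Fin m → ZMod n) (ε : Fin m → ℤ) (p : lam → ZMod n) (d : lam → ℤ)
    (q : κ → ZMod n) (c : κ → ℤ), (∀ j, |ε j| ≤ 4) → (∀ j, |d j| ≤ 4) → (∀ k, |c k| ≤ 4) →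
    m + Fintype.card lam + Fintype.card κ ≤ 12 → Fintype.card κ ≤ 6 →
    (∀ i j, i ≠ j → Far43 (x i) (x j)) → (∀ i j, Far43 (x i) (p j)) →
    ∑ j, ((ε j : ℤ) : Gold8.R n) * pw (x j) + ∑ j, ((d j : ℤ) : Gold8.R n) * pw (p j)
      = ∑ k, ((c k : ℤ) : Gold8.R n) * pw (q k) →
    ∃ (h : Fin m → ZMod n) (ω : κ → Option (Fin m)), (∀ k k', q k = q k' → ω k = ω k') ∧
      (∀ j, ε j * 2 ^ (x j - h j).val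
        = ∑ k, if ω k = some j then c k * 2 ^ (q k - h j).val else 0) ∧
      ∑ j, ((d j : ℤ) : Gold8.R n) * pw (p j)
        = ∑ k, if ω k = none then ((c k : ℤ) : Gold8.R n) * pw (q k) else 0

/-- (UNIQ) the exponent which isolates one coefficient, two additional conditions -/
def StUniq : Prop := ∀ (n : ℕ) [NeZero n], 610 ≤ n → ∀ D s₁ s₂ : ℕ, 2 ≤ D → D ≠ 3 → 2 * D ≤ n →
    s₁ = D + 143 → (s₂ = s₁ + 43 ∨ s₂ = s₁ + 44) → ∀ (δ₀ δ₁ δ₂ : ℤ) (x₀ x₁ x₂ : ZMod n)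
    (a b m : ℕ), (δ₀ = 0 ∨ δ₀ = -3) → (δ₁ = 0 ∨ δ₁ = 3 ∨ δ₁ = -3) →
    (δ₂ = 0 ∨ δ₂ = 3 ∨ δ₂ = -3) → a ≤ m → m < b → b < n →
    pw (((D + 100 : ℕ) : ZMod n)) - pw (((101 : ℕ) : ZMod n)) - 3 * pw (-1 : ZMod n)
        + 3 * pw ((s₁ : ℕ) : ZMod n) + 3 * pw ((s₂ : ℕ) : ZMod n)
      = (δ₀ : Gold8.R n) * pw x₀ + (δ₁ : Gold8.R n) * pw x₁ + (δ₂ : Gold8.R n) * pw x₂ + pw ((a : ℕ) : ZMod n)
        + pw ((b : ℕ) : ZMod n) - 3 * pw ((m : ℕ) : ZMod n) →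
    δ₀ = -3 ∧ x₀ = -1 ∧ a = 100 ∧ b = D + 100 ∧ m = 100 ∧ δ₁ = 3 ∧ δ₂ = 3 ∧
      ((x₁ = (s₁ : ZMod n) ∧ x₂ = (s₂ : ZMod n)) ∨ (x₁ = (s₂ : ZMod n) ∧ x₂ = (s₁ : ZMod n)))

/-- (PERM) four single pieces, four far targets -/
def StPerm : Prop := ∀ (n : ℕ) [NeZero n], 610 ≤ n → ∀ s₁ s₂ s₃ : ℕ, s₁ = 100 →
    (s₂ = 200 ∨ s₂ = 201) → (s₃ = 300 ∨ s₃ = 301 ∨ s₃ = 302) →
    ∀ (δ₀ δ₁ δ₂ δ₃ : ℤ) (x₀ x₁ x₂ x₃ : ZMod n), (δ₀ = 0 ∨ δ₀ = -3) →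
    (δ₁ = 0 ∨ δ₁ = 3 ∨ δ₁ = -3) → (δ₂ = 0 ∨ δ₂ = 3 ∨ δ₂ = -3) → (δ₃ = 0 ∨ δ₃ = 3 ∨ δ₃ = -3) →
    3 * pw ((s₁ : ℕ) : ZMod n) + 3 * pw ((s₂ : ℕ) : ZMod n) + 3 * pw ((s₃ : ℕ) : ZMod n)
        - 3 * pw (-1 : ZMod n)
      = (δ₀ : Gold8.R n) * pw x₀ + (δ₁ : Gold8.R n) * pw x₁ + (δ₂ : Gold8.R n) * pw x₂ + (δ₃ : Gold8.R n) * pw x₃ →
    δ₀ = -3 ∧ x₀ = -1 ∧ δ₁ = 3 ∧ δ₂ = 3 ∧ δ₃ = 3 ∧
      ((x₁ = s₁ ∧ x₂ = s₂ ∧ x₃ = s₃) ∨ (x₁ = s₁ ∧ x₂ = s₃ ∧ x₃ = s₂) ∨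
       (x₁ = s₂ ∧ x₂ = s₁ ∧ x₃ = s₃) ∨ (x₁ = s₂ ∧ x₂ = s₃ ∧ x₃ = s₁) ∨
       (x₁ = s₃ ∧ x₂ = s₁ ∧ x₃ = s₂) ∨ (x₁ = s₃ ∧ x₂ = s₂ ∧ x₃ = s₁))

/-- (MOORE2) -/
def StMoore2 : Prop := ∀ (F : Type) [Field F] [CharP F 2] (A₁ A₂ : F), A₁ ≠ 0 → A₂ ≠ 0 →
    A₁ ≠ A₂ → ∀ s t : ℕ, ∃ t', (t' = t ∨ t' = t + 1) ∧
      A₁ ^ (2 ^ s) * A₂ ^ (2 ^ t') + A₁ ^ (2 ^ t') * A₂ ^ (2 ^ s) ≠ 0

/-- (MOORE3) -/
def StMoore3 : Prop := ∀ (F : Type) [Field F] [CharP F 2] (A₁ A₂ A₃ : F), A₁ ≠ 0 → A₂ ≠ 0 →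
    A₃ ≠ 0 → A₁ ≠ A₂ → A₁ ≠ A₃ → A₂ ≠ A₃ → A₁ + A₂ ≠ A₃ → ∀ s t r : ℕ,
    ∃ t' r', (t' = t ∨ t' = t + 1) ∧ (r' = r ∨ r' = r + 1 ∨ r' = r + 2) ∧
      A₁ ^ (2 ^ s) * A₂ ^ (2 ^ t') * A₃ ^ (2 ^ r') + A₁ ^ (2 ^ s) * A₂ ^ (2 ^ r') * A₃ ^ (2 ^ t')
      + A₁ ^ (2 ^ t') * A₂ ^ (2 ^ s) * A₃ ^ (2 ^ r') + A₁ ^ (2 ^ t') * A₂ ^ (2 ^ r') * A₃ ^ (2 ^ s)
      + A₁ ^ (2 ^ r') * A₂ ^ (2 ^ s) * A₃ ^ (2 ^ t') + A₁ ^ (2 ^ r') * A₂ ^ (2 ^ t') * A₃ ^ (2 ^ s)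
        ≠ 0

/-- the bilinear form of `x ^ 9` -/
def Rf {F : Type} [Field F] (a b : F) : F := a ^ 8 * b + a * b ^ 8

/-- the coefficient of `a ^ 3` in `tr (e * Rf a b)`, `a ^ 2 * b + a * b ^ 2 = v` -/
def Ae {F : Type} [Field F] (n : ℕ) (v e : F) : F := (e * v) ^ (2 ^ (n - 1)) + e * v ^ 2

/-- (TRR) the conditions as functions of one variable -/
def StTrR : Prop := ∀ (n : ℕ), 1 ≤ n → ∀ (F : Type) [Field F] [Fintype F] [DecidableEq F]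
    [CharP F 2], Fintype.card F = 2 ^ n → ∀ v : F, v ≠ 0 →
    (∀ e a y : F, a ≠ 0 → a * a ^ 2 * (y ^ 2 + y) = v → tr n (e * Rf a (a * y)) =
      tr n (Ae n v e * a ^ 3) + tr n (e * v ^ 4 * (a ^ 3)⁻¹)) ∧
    (∀ e, Ae n v e = 0 ↔ e = 0 ∨ e * v ^ 3 = 1) ∧
    (∀ e e', Ae n v (e + e') = Ae n v e + Ae n v e')

/-- the elements `c₁, c₂` are independent modulo `v ^ (-3)` (prime field) -/
def Ind2 {F : Type} [Field F] (v c₁ c₂ : F) : Prop :=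
  c₁ ≠ 0 ∧ c₂ ≠ 0 ∧ c₁ + c₂ ≠ 0 ∧ c₁ * v ^ 3 ≠ 1 ∧ c₂ * v ^ 3 ≠ 1 ∧ (c₁ + c₂) * v ^ 3 ≠ 1

/-- the elements `c₁, c₂, c₃` are independent modulo `v ^ (-3)` (prime field) -/
def Ind3 {F : Type} [Field F] (v c₁ c₂ c₃ : F) : Prop :=
  Ind2 v c₁ c₂ ∧ c₃ ≠ 0 ∧ c₁ + c₃ ≠ 0 ∧ c₂ + c₃ ≠ 0 ∧ c₁ + c₂ + c₃ ≠ 0 ∧ c₃ * v ^ 3 ≠ 1 ∧
    (c₁ + c₃) * v ^ 3 ≠ 1 ∧ (c₂ + c₃) * v ^ 3 ≠ 1 ∧ (c₁ + c₂ + c₃) * v ^ 3 ≠ 1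

/-- vanishing on the planes, in terms of coefficients -/
def VanS {F : Type} [Field F] (n : ℕ) (v c₁ c₂ : F) (C : ℕ → ℕ → F) : Prop :=
  ∀ a y : F, a ≠ 0 → a * a ^ 2 * (y ^ 2 + y) = v → tr n (c₁ * Rf a (a * y)) = 0 →
    tr n (c₂ * Rf a (a * y)) = 0 →
    ∑ j ∈ range n, ∑ k ∈ range n, (if j < k then C j k * (a ^ (2 ^ j) * a ^ (2 ^ k) *
      (y ^ (2 ^ j) + y ^ (2 ^ k))) else 0) = 0

/-- (ELIM) -/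
def StElim : Prop := ∀ (n : ℕ), 610 ≤ n → ∀ (F : Type) [Field F] [Fintype F] [DecidableEq F]
    [CharP F 2], Fintype.card F = 2 ^ n → ∀ v c₁ c₂ : F, v ≠ 0 → Ind2 v c₁ c₂ →
    ∀ C : ℕ → ℕ → F, VanS n v c₁ c₂ C → ∀ D, 2 ≤ D → D ≠ 3 → 2 * D ≤ n → C 100 (D + 100) = 0

/-- (EXIST) -/
def StExist : Prop := ∀ (n : ℕ), 610 ≤ n → ∀ (F : Type) [Field F] [Fintype F] [DecidableEq F]
    [CharP F 2], Fintype.card F = 2 ^ n → ∀ v c₁ c₂ c₃ : F, v ≠ 0 → Ind3 v c₁ c₂ c₃ →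
    ∀ q₁ q₂ q₃ : F, (q₁ = 0 ∨ q₁ = 1) → (q₂ = 0 ∨ q₂ = 1) → (q₃ = 0 ∨ q₃ = 1) →
    ∃ a y : F, a ≠ 0 ∧ a * a ^ 2 * (y ^ 2 + y) = v ∧ tr n (c₁ * Rf a (a * y)) = q₁ ∧
      tr n (c₂ * Rf a (a * y)) = q₂ ∧ tr n (c₃ * Rf a (a * y)) = q₃

/-- the planes with two additional conditions -/
def Sp {F : Type} [Field F] (n : ℕ) (v c₁ c₂ a b : F) : Prop :=
  Gold8.Bad 1 v a b ∧ tr n (c₁ * Rf a b) = 0 ∧ tr n (c₂ * Rf a b) = 0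

/-- (BIL) -/
def StBil : Prop := ∀ (n : ℕ), 610 ≤ n → ∀ (F : Type) [Field F] [Fintype F] [DecidableEq F]
    [CharP F 2], Fintype.card F = 2 ^ n → ∀ v c₁ c₂ : F, v ≠ 0 → Ind2 v c₁ c₂ →
    ∀ A : F → F → F, Alt2 A → (∀ a b, Sp n v c₁ c₂ a b → A a b = 0) →
    ∃ c e : F, ∀ x y, A x y = tr n (c * (x * y ^ 2 + x ^ 2 * y)) + tr n (e * (x * y ^ 8 + x ^ 8 * y))

/-- (TRI) -/
def StTri : Prop := ∀ (n : ℕ), 610 ≤ n → ∀ (F : Type) [Field F] [Fintype F] [DecidableEq F]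
    [CharP F 2], Fintype.card F = 2 ^ n → ∀ v c₁ c₂ : F, v ≠ 0 → Ind2 v c₁ c₂ →
    ∀ T : F → F → F → F, Tri T → (∀ a b, Sp n v c₁ c₂ a b → ∀ z, T a b z = 0) →
    ∀ x y z, T x y z = 0

/-- (BOOL) -/
def StBool : Prop := ∀ (n : ℕ), 610 ≤ n → ∀ (F : Type) [Field F] [Fintype F] [DecidableEq F]
    [CharP F 2], Fintype.card F = 2 ^ n → ∀ v c₁ c₂ : F, v ≠ 0 → Ind2 v c₁ c₂ →
    ∀ f : F → F, MB (Sp n v c₁ c₂) f → ∃ (c e : F) (l : F →+ F), tr n (c * v) = 0 ∧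
      ∀ x, f x = tr n (c * x ^ 3) + tr n (e * x ^ 9) + l x + f 0

/-- the functions `x ^ 3 + ∑ u i * tr (c i * x ^ 9)` -/
def Fk {F : Type} [Field F] (n : ℕ) {k : ℕ} (u c : Fin k → F) (x : F) : F :=
  x ^ 3 + ∑ i, u i * tr n (c i * x ^ 9)

/-- (STEP) one coordinate of such a function is changed -/
def StStep : Prop := ∀ (n : ℕ), 610 ≤ n → ∀ (F : Type) [Field F] [Fintype F],
    Fintype.card F = 2 ^ n → ∀ (u c : Fin 2 → F) (s : F) (G₀ f G : F → F), EA G₀ (Fk n u c) →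
    (∀ x, f x = 0 ∨ f x = 1) → (∀ x, G x = G₀ x + s * f x) → IsAPN G →
    ∃ u' c' : Fin 3 → F, EA G (Fk n u' c')

/-- independence over the prime field -/
def Lin {F : Type} [Field F] {k : ℕ} (c : Fin k → F) : Prop :=
  ∀ S : Finset (Fin k), S.Nonempty → ∑ i ∈ S, c i ≠ 0

/-- (RED) the sum can be shortened until both families are independent -/
def StRed : Prop := ∀ (F : Type) [Field F] [CharP F 2] (n k : ℕ) (u c : Fin k → F),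
    ∃ (k' : ℕ) (u' c' : Fin k' → F), k' ≤ k ∧ Lin u' ∧ Lin c' ∧ Fk n u c = Fk n u' c'

/-- the condition on the coefficients -/
def Cnd {F : Type} [Field F] {k : ℕ} (u c : Fin k → F) : Prop :=
  ∀ S : Finset (Fin k), S.Nonempty → ∃ T : Finset (Fin k), Odd (S ∩ T).card ∧
    (∑ i ∈ T, c i) * (∑ i ∈ S, u i) ^ 3 = 1

/-- (CHAR) APN functions of this form satisfy the condition -/
def StChar : Prop := ∀ (n : ℕ), 610 ≤ n → ∀ (F : Type) [Field F] [Fintype F],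
    Fintype.card F = 2 ^ n → ∀ (k : ℕ) (u c : Fin k → F), k ≤ 3 → Lin u → Lin c →
    IsAPN (Fk n u c) → Cnd u c

/-- (SUF) the condition is sufficient (all `n`, all `k`) -/
def StSuf : Prop := ∀ (n : ℕ), 1 ≤ n → ∀ (F : Type) [Field F] [Fintype F],
    Fintype.card F = 2 ^ n → ∀ (k : ℕ) (u c : Fin k → F), Cnd u c → IsAPN (Fk n u c)

/-- the trace to the field with eight elements -/
def Tr3 {F : Type} [Field F] (n : ℕ) (x : F) : F := ∑ t ∈ range (n / 3), x ^ (8 ^ t)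

/-- the cube and the functions of Budaghyan, Carlet and Leander -/
def Known {F : Type} [Field F] (n : ℕ) (G : F → F) : Prop :=
  G = (fun x => x ^ 3) ∨
  (∃ a : F, a ≠ 0 ∧ G = fun x => x ^ 3 + a⁻¹ * tr n (a ^ 3 * x ^ 9)) ∨
  (3 ∣ n ∧ ∃ a : F, a ≠ 0 ∧ G = fun x => x ^ 3 + a⁻¹ * Tr3 n (a ^ 3 * x ^ 9 + a ^ 6 * x ^ 18)) ∨
  (3 ∣ n ∧ ∃ a : F, a ≠ 0 ∧ G = fun x => x ^ 3 + a⁻¹ * Tr3 n (a ^ 6 * x ^ 18 + a ^ 12 * x ^ 36))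

/-- (CLASS) the solutions of the condition -/
def StClass : Prop := ∀ (F : Type) [Field F] [CharP F 2] (k : ℕ) (u c : Fin k → F), k ≤ 3 →
    Lin u → Lin c → Cnd u c →
    k = 0 ∨ (k = 1 ∧ ∀ i, c i * u i ^ 3 = 1) ∨
    (k = 2 ∧ ∃ i j, i ≠ j ∧ c i * u i ^ 3 = 1 ∧ c j * (u i + u j) ^ 3 = 1 ∧
      (c i + c j) * u j ^ 3 = 1)

/-- (FAM) the case `k = 2` and the functions of Budaghyan, Carlet and Leander -/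
def StFam : Prop := ∀ (n : ℕ), 1 ≤ n → ∀ (F : Type) [Field F] [Fintype F],
    Fintype.card F = 2 ^ n →
    (∀ u₁ u₂ c₁ c₂ : F, c₁ * u₁ ^ 3 = 1 → c₂ * (u₁ + u₂) ^ 3 = 1 → (c₁ + c₂) * u₂ ^ 3 = 1 →
      Known n (Fk n ![u₁, u₂] ![c₁, c₂])) ∧
    (∀ G, Known n G → ∃ u₁ u₂ c₁ c₂ : F, (u₂ = 0 ∨ c₂ = 0 ∨ (c₁ * u₁ ^ 3 = 1 ∧
      c₂ * (u₁ + u₂) ^ 3 = 1 ∧ (c₁ + c₂) * u₂ ^ 3 = 1)) ∧ (u₁ = 0 ∨ c₁ * u₁ ^ 3 = 1) ∧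
      (u₁ = 0 → u₂ = 0) ∧ G = Fk n ![u₁, u₂] ![c₁, c₂])

/-- (FINAL) the switching class of the cube function -/
def StFinal : Prop := ∀ (n : ℕ), 610 ≤ n → ∀ (F : Type) [Field F] [Fintype F],
    Fintype.card F = 2 ^ n → ∀ G : F → F,
    Relation.ReflTransGen Step (fun x => x ^ 3) G ↔ ∃ H : F → F, Known n H ∧ EA G H

end Pool.Agent.Lib.MP_eacabd_co.Clo8
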