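import Mathlib
import Pool.Agent.Lib.MP_eacabd_co.Clo8.StmtsC

/-!
The switching class of the cube: (BIL), alternating bilinear maps which vanish on the planes with
two additional conditions.
-/

set_option autoImplicit false

namespace Pool.Agent.Lib.MP_eacabd_co.Clo8

open Finset Pool.Agent.Lib.MP_eacabd_co Pool.Agent.Lib.MP_eacabd_co.Gold8

section Bil

variable {F : Type} [Field F] [Fintype F] [DecidableEq F] [CharP F 2]

theorem vanS_of {n : ℕ} {v c₁ c₂ : F} {B : F → F → F} {g : ℕ → ℕ → F}
    (hB : ∀ x y, B x y = ∑ e ∈ range n, ∑ e' ∈ range n, g e e' * x ^ (2 ^ e) * y ^ (2 ^ e'))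
    (hs : ∀ e e', g e e' = g e' e) (ha : ∀ e, g e e = 0)
    (hbad : ∀ a b, Sp n v c₁ c₂ a b → B a b = 0) : VanS n v c₁ c₂ g := by
  intro a y _ hy ht1 ht2
  have hb : Sp n v c₁ c₂ a (a * y) := by
    refine ⟨?_, ht1, ht2⟩
    unfold Gold8.Bad
    rw [pow_one, mul_pow, ← hy]
    ring
  have h1 := hbad _ _ hb
  rw [hB, sum_pairs' (fun j k => g j k * a ^ (2 ^ j) * (a * y) ^ (2 ^ k)) n
      (fun j => by rw [ha]; ring)] at h1
  refine Eq.trans ?_ h1
  refine sum_congr rfl fun j _ => sum_congr rfl fun k _ => ?_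
  split_ifs
  · rw [hs k j, mul_pow, mul_pow]
    ring
  · rfl

theorem stBil (E : StElim) : StBil := by
  intro n hn F _ _ _ _ hF v c₁ c₂ hv hI A hA hbad
  have hn0 : NeZero n := ⟨by omega⟩
  have hc : Nat.Coprime 1 n := Nat.coprime_one_left n
  have hp1 : ∀ e e', al A (e + n) e' = al A e e' := fun e e' => cf_per hF _ e
  have hV : VanS n v c₁ c₂ (fun j k => al A j k) :=
    vanS_of (B := A) (g := fun e e' => al A e e') (fun x y => al_exp hF hA x y)
      (al_symm hA) (al_alt hA) hbad
  have hE := E n hn F hF v c₁ c₂ hv hI _ hV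
  have hrow : ∀ j, j < n → j ≠ 1 → j ≠ 3 → j ≠ n - 3 → j ≠ n - 1 → al A j 0 = 0 := by
    intro j hj h1 h2 h3 h4
    rcases Nat.eq_zero_or_pos j with rfl | h0
    · exact al_alt hA 0
    · by_cases h5 : 2 * j ≤ n
      · have h6 : al A j 0 ^ (2 ^ 100) = 0 := by
          rw [al_pow hA, al_symm hA, zero_add]
          exact hE j (by omega) (by omega) h5
        exact (pow_eq_zero_iff (by positivity)).1 h6
      · have h6 : al A j 0 ^ (2 ^ (n - j + 100)) = 0 := by
          rw [al_pow hA, show j + (n - j + 100) = 100 + n by omega, hp1, zero_add]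
          exact hE (n - j) (by omega) (by omega) (by omega)
        exact (pow_eq_zero_iff (by positivity)).1 h6
  refine ⟨al A 1 0, al A 3 0, fun x y => ?_⟩
  -- the functional `A x` is a trace
  have h1 : A x y = tr n (cf (A x) 0 * y) := by
    have hy : ∀ y y', A x (y + y') = A x y + A x y' := by
      intro y y'
      rw [hA.symm, hA.add, hA.symm y, hA.symm y']
    rw [additive_eq hF hy y]
    unfold tr
    refine sum_congr rfl fun k _ => ?_
    rw [mul_pow]
    congr 1
    unfold cf
    rw [sum_pow_char_pow]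
    refine sum_congr rfl fun z _ => ?_
    have h2 : ∀ s : ℕ, A x z ^ (2 ^ s) = A x z := by
      intro s
      induction s with
      | zero => rw [pow_zero, pow_one]
      | succ s ih => rw [pow_succ, pow_mul, ih, hA.sq]
    rw [mul_pow, h2, pow_zero, pow_one]
  have h2 : cf (A x) 0 = al A 1 0 * x ^ 2 + al A 3 0 * x ^ 8 + al A (n - 3) 0 * x ^ (2 ^ (n - 3))
      + al A (n - 1) 0 * x ^ (2 ^ (n - 1)) := by
    have hx : ∀ x x', cf (A (x + x')) 0 = cf (A x) 0 + cf (A x') 0 := by
      intro x x'
      rw [← cf_add]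
      congr 1
      funext y
      exact hA.add _ _ _
    have h3 := additive_eq hF (φ := fun x => cf (A x) 0) hx x
    have h3' : cf (A x) 0 = ∑ e ∈ range n, al A e 0 * x ^ (2 ^ e) := h3
    have h4 : ∑ e ∈ ({1, 3, n - 3, n - 1} : Finset ℕ), al A e 0 * x ^ (2 ^ e)
        = ∑ e ∈ range n, al A e 0 * x ^ (2 ^ e) := by
      apply sum_subset
      · intro e he
        simp only [mem_insert, mem_singleton] at he
        rw [mem_range]
        omega
      · intro e he hne
        simp only [mem_insert, mem_singleton] at hne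
        push Not at hne
        rw [hrow e (mem_range.1 he) hne.1 hne.2.1 hne.2.2.1 hne.2.2.2, zero_mul]
    rw [h3', ← h4, sum_insert, sum_insert, sum_insert, sum_singleton]
    · norm_num
      ring
    · simp only [mem_singleton]
      omega
    · simp only [mem_insert, mem_singleton]
      omega
    · simp only [mem_insert, mem_singleton]
      omega
  have back : ∀ s, s < n → tr n (al A (n - s) 0 * x ^ (2 ^ (n - s)) * y)
      = tr n (al A s 0 * (x * y ^ (2 ^ s))) := by
    intro s hs
    have h4 : al A (n - s) 0 ^ (2 ^ s) = al A s 0 := by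
      rw [al_pow hA, show n - s + s = 0 + n by omega, hp1, zero_add, al_symm hA]
    rw [← tr_two_pow hF (al A (n - s) 0 * x ^ (2 ^ (n - s)) * y) s, mul_pow, mul_pow, h4,
      ← pow_mul, ← pow_add, show n - s + s = n by omega, pow_card' hF, mul_assoc]
  rw [h1, h2, add_mul, add_mul, add_mul, tr_add, tr_add, tr_add, back 3 (by omega),
    back 1 (by omega), mul_add, mul_add, tr_add, tr_add]
  norm_num
  rw [show al A 1 0 * x ^ 2 * y = al A 1 0 * (x ^ 2 * y) by ring,
    show al A 3 0 * x ^ 8 * y = al A 3 0 * (x ^ 8 * y) by ring]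
  ring

end Bil

end Pool.Agent.Lib.MP_eacabd_co.Clo8
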