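import Pool.Agent.Lib.MP_eacabd_co.Clo8.StmtsC

/-!
The switching class of the cube function: APN functions of the form `F_k` satisfy the condition.
-/

set_option autoImplicit false

namespace Pool.Agent.Lib.MP_eacabd_co.Clo8

open Finset Pool.Agent.Lib.MP_eacabd_co Pool.Agent.Lib.MP_eacabd_co.Gold8

/-- independence modulo `v ^ (-3)` -/
def IndV94 {F : Type} [Field F] (v : F) {m : ℕ} (d : Fin m → F) : Prop :=
  ∀ T : Finset (Fin m), (T.Nonempty → ∑ i ∈ T, d i ≠ 0) ∧ (∑ i ∈ T, d i) * v ^ 3 ≠ 1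

/-- the plane with prescribed values -/
def Pl94 {F : Type} [Field F] (n : ℕ) (v : F) {m : ℕ} (d q : Fin m → F) : Prop :=
  ∃ a y : F, a ≠ 0 ∧ a * a ^ 2 * (y ^ 2 + y) = v ∧ ∀ i, tr n (d i * Rf a (a * y)) = q i

/-- sums over subsets of `Fin (m + 1)` -/
theorem sum_cons94 {F : Type} [Field F] {m : ℕ} (z : F) (d : Fin m → F)
    (T : Finset (Fin (m + 1))) :
    ∑ i ∈ T, (Fin.cons z d : Fin (m + 1) → F) i =
      (if (0 : Fin (m + 1)) ∈ T then z else 0) +
        ∑ i ∈ univ.filter (fun i : Fin m => i.succ ∈ T), d i := by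
  classical
  have h1 : ∑ i ∈ T, (Fin.cons z d : Fin (m + 1) → F) i =
      ∑ i, if i ∈ T then (Fin.cons z d : Fin (m + 1) → F) i else 0 := by
    rw [Finset.sum_ite_mem, Finset.univ_inter]
  rw [h1, Fin.sum_univ_succ, Finset.sum_filter]
  simp only [Fin.cons_zero, Fin.cons_succ]

/-- one more independent element -/
theorem ext94 {n : ℕ} (hn : 610 ≤ n) {F : Type} [Field F] [Fintype F] [DecidableEq F] [CharP F 2]
    (hF : Fintype.card F = 2 ^ n) {v : F} (hv : v ≠ 0) {m : ℕ} (hm : m ≤ 2) {d : Fin m → F}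
    (h : IndV94 v d) : ∃ z : F, IndV94 v (Fin.cons z d : Fin (m + 1) → F) := by
  set X : Finset F := (univ.image (fun T : Finset (Fin m) => ∑ i ∈ T, d i)) ∪
    (univ.image (fun T : Finset (Fin m) => ∑ i ∈ T, d i + (v ^ 3)⁻¹)) with hX
  have hv3 : v ^ 3 ≠ 0 := pow_ne_zero _ hv
  have hc : X.card < Fintype.card F := by
    have h1 : X.card ≤ 2 ^ m + 2 ^ m := by
      refine (card_union_le _ _).trans (Nat.add_le_add ?_ ?_)
      · refine card_image_le.trans (le_of_eq ?_)
        rw [card_univ, Fintype.card_finset, Fintype.card_fin]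
      · refine card_image_le.trans (le_of_eq ?_)
        rw [card_univ, Fintype.card_finset, Fintype.card_fin]
    have h2 : 2 ^ m ≤ 2 ^ 2 := Nat.pow_le_pow_right (by norm_num) hm
    have h3 : 2 ^ 10 ≤ 2 ^ n := Nat.pow_le_pow_right (by norm_num) (by omega)
    rw [hF]
    omega
  obtain ⟨z, hz⟩ : ∃ z, z ∉ X := by
    by_contra hcon
    push Not at hcon
    have h1 : X = univ := eq_univ_iff_forall.2 hcon
    rw [h1, card_univ] at hc
    exact lt_irrefl _ hc
  refine ⟨z, fun T => ?_⟩
  rw [sum_cons94]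
  set T' := univ.filter (fun i : Fin m => i.succ ∈ T) with hT'
  have z1 : z ≠ ∑ i ∈ T', d i := by
    intro h0
    apply hz
    rw [hX, mem_union]
    exact Or.inl (mem_image.2 ⟨T', mem_univ _, h0.symm⟩)
  have z2 : z ≠ ∑ i ∈ T', d i + (v ^ 3)⁻¹ := by
    intro h0
    apply hz
    rw [hX, mem_union]
    exact Or.inr (mem_image.2 ⟨T', mem_univ _, h0.symm⟩)
  by_cases h0 : (0 : Fin (m + 1)) ∈ T
  · rw [if_pos h0]
    refine ⟨fun _ h1 => z1 ?_, fun h1 => z2 ?_⟩
    · exact CharTwo.add_eq_zero.1 h1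
    · have h2 : z + ∑ i ∈ T', d i = (v ^ 3)⁻¹ := eq_inv_of_mul_eq_one_left h1
      rw [← h2, add_comm z, ← add_assoc, CharTwo.add_self_eq_zero, zero_add]
  · rw [if_neg h0, zero_add]
    refine ⟨fun hT => (h T').1 ?_, (h T').2⟩
    obtain ⟨i, hi⟩ := hT
    have hi0 : i ≠ 0 := by
      rintro rfl
      exact h0 hi
    obtain ⟨j, rfl⟩ := Fin.exists_succ_eq.2 hi0
    exact ⟨j, mem_filter.2 ⟨mem_univ _, hi⟩⟩

/-- at most three conditions -/
theorem plane94 (X : StExist) {n : ℕ} (hn : 610 ≤ n) {F : Type} [Field F] [Fintype F]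
    [DecidableEq F] [CharP F 2] (hF : Fintype.card F = 2 ^ n) {v : F} (hv : v ≠ 0) :
    ∀ (j m : ℕ), m + j = 3 → ∀ d q : Fin m → F, IndV94 v d → (∀ i, q i = 0 ∨ q i = 1) →
      Pl94 n v d q := by
  intro j
  induction j with
  | zero =>
    intro m hm d q h hq
    obtain rfl : m = 3 := by omega
    have s0 := h {0}
    have s1 := h {1}
    have s2 := h {2}
    have s01 := h {0, 1}
    have s02 := h {0, 2}
    have s12 := h {1, 2}
    have s012 := h {0, 1, 2}
    rw [sum_singleton] at s0 s1 s2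
    rw [sum_pair (by decide)] at s01 s02 s12
    rw [sum_insert (by decide), sum_pair (by decide), ← add_assoc] at s012
    obtain ⟨a, y, ha, hy, h1, h2, h3⟩ := X n hn F hF v (d 0) (d 1) (d 2) hv
      ⟨⟨s0.1 (by simp), s1.1 (by simp), s01.1 (by simp), s0.2, s1.2, s01.2⟩,
        s2.1 (by simp), s02.1 (by simp), s12.1 (by simp), s012.1 (by simp), s2.2, s02.2, s12.2,
        s012.2⟩
      (q 0) (q 1) (q 2) (hq 0) (hq 1) (hq 2)
    refine ⟨a, y, ha, hy, fun i => ?_⟩
    fin_cases i
    · exact h1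
    · exact h2
    · exact h3
  | succ j ih =>
    intro m hm d q h hq
    obtain ⟨z, hz⟩ := ext94 hn hF hv (by omega) h
    obtain ⟨a, y, ha, hy, h1⟩ := ih (m + 1) (by omega) (Fin.cons z d) (Fin.cons 0 q) hz (by
      intro i
      refine Fin.cases ?_ (fun i => ?_) i
      · left
        rfl
      · rw [Fin.cons_succ]
        exact hq i)
    refine ⟨a, y, ha, hy, fun i => ?_⟩
    have h2 := h1 i.succ
    rwa [Fin.cons_succ, Fin.cons_succ] at h2

/-- sums over a symmetric difference -/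
theorem sum_symm94 {F : Type} [Field F] [CharP F 2] {k : ℕ} (c : Fin k → F)
    (A B : Finset (Fin k)) : ∑ i ∈ A, c i + ∑ i ∈ B, c i = ∑ i ∈ (A \ B) ∪ (B \ A), c i := by
  classical
  have e : ∀ T : Finset (Fin k), ∑ i ∈ T, c i = ∑ i, if i ∈ T then c i else 0 := by
    intro T
    rw [Finset.sum_ite_mem, Finset.univ_inter]
  rw [e, e, e, ← sum_add_distrib]
  refine sum_congr rfl fun i _ => ?_
  by_cases hA : i ∈ A <;> by_cases hB : i ∈ B <;> simp [hA, hB, CharTwo.add_self_eq_zero]

/-- the plane which contradicts the APN property -/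
theorem not_apn94 {n : ℕ} {F : Type} [Field F] [Fintype F] [DecidableEq F] [CharP F 2] {v : F}
    (hv : v ≠ 0) {k : ℕ} (u c : Fin k → F) {S : Finset (Fin k)} (hS : ∑ i ∈ S, u i = v)
    (h : Pl94 n v c (fun i => if i ∈ S then 1 else 0)) : ¬ IsAPN (Fk n u c) := by
  intro hapn
  obtain ⟨a, y, ha, hy, hq⟩ := h
  have hy1 : y ^ 2 + y ≠ 0 := by
    intro h0
    rw [h0, mul_zero] at hy
    exact hv hy.symm
  have hy2 : y ≠ 0 := by
    rintro rfl
    apply hy1
    ring
  have hb : a * y ≠ 0 := mul_ne_zero ha hy2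
  have hab : a ≠ a * y := by
    intro h0
    apply hy1
    have h1 : y = 1 := by
      have h2 : a * (y - 1) = 0 := by rw [mul_sub, ← h0]; ring
      rcases mul_eq_zero.1 h2 with h3 | h3
      · exact absurd h3 ha
      · exact sub_eq_zero.1 h3
    rw [h1, one_pow, CharTwo.add_self_eq_zero]
  apply apn_ne hapn ha hb hab 0
  have g3 := gold_second (F := F) 1 0 a (a * y)
  have g9 := gold_second (F := F) 3 0 a (a * y)
  have g9' : ∀ e : F, tr n (e * (0 + a + a * y) ^ 9) + tr n (e * (0 + a) ^ 9)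
      + tr n (e * (0 + a * y) ^ 9) + tr n (e * 0 ^ 9) = tr n (e * Rf a (a * y)) := by
    intro e
    rw [← tr_add, ← tr_add, ← tr_add, ← mul_add, ← mul_add, ← mul_add]
    congr 2
    rw [Rf]
    norm_num at g9
    linear_combination g9
  have e1 : Fk n u c (0 + a + a * y) + Fk n u c (0 + a) + Fk n u c (0 + a * y) + Fk n u c 0
      = ((0 + a + a * y) ^ 3 + (0 + a) ^ 3 + (0 + a * y) ^ 3 + 0 ^ 3) +
        ∑ i, u i * tr n (c i * Rf a (a * y)) := by
    have e2 : ∑ i, u i * tr n (c i * Rf a (a * y)) =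
        ∑ i, u i * tr n (c i * (0 + a + a * y) ^ 9) + ∑ i, u i * tr n (c i * (0 + a) ^ 9)
        + ∑ i, u i * tr n (c i * (0 + a * y) ^ 9) + ∑ i, u i * tr n (c i * 0 ^ 9) := by
      rw [← sum_add_distrib, ← sum_add_distrib, ← sum_add_distrib]
      refine sum_congr rfl fun i _ => ?_
      rw [← g9']
      ring
    rw [e2]
    simp only [Fk]
    ring
  have e3 : ∑ i, u i * tr n (c i * Rf a (a * y)) = v := by
    rw [← hS, ← Finset.univ_inter S, ← Finset.sum_ite_mem]
    refine sum_congr rfl fun i _ => ?_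
    rw [hq i]
    dsimp only
    split_ifs
    · rw [mul_one]
    · rw [mul_zero]
  rw [e1, e3]
  have e4 : (0 + a + a * y) ^ 3 + (0 + a) ^ 3 + (0 + a * y) ^ 3 + 0 ^ 3 = v := by
    norm_num at g3
    linear_combination g3 + hy
  rw [e4, CharTwo.add_self_eq_zero]

theorem stChar (X : StExist) : StChar := by
  classical
  intro n hn F _ _ hF k u c hk hu hc hapn S hS
  have hn0 : NeZero n := ⟨by omega⟩
  have hchar : CharP F 2 := charP_of_card_eq_prime_pow (p := 2) (f := n) (by simpa using hF)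
  by_contra hcon
  push Not at hcon
  have hv : ∑ i ∈ S, u i ≠ 0 := hu S hS
  set v : F := ∑ i ∈ S, u i with hvd
  refine not_apn94 hv u c hvd.symm ?_ hapn
  by_cases hT : ∃ T : Finset (Fin k), (∑ i ∈ T, c i) * v ^ 3 = 1
  · obtain ⟨T, hT⟩ := hT
    have hTn : T.Nonempty := by
      rw [nonempty_iff_ne_empty]
      rintro rfl
      rw [sum_empty, zero_mul] at hT
      exact zero_ne_one hT
    have hev : Even (S ∩ T).card := by
      rw [← Nat.not_odd_iff_even]
      intro h0
      exact hcon T h0 hT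
    obtain ⟨i0, hi0⟩ := hTn
    obtain ⟨m, rfl⟩ : ∃ m, k = m + 1 := ⟨k - 1, by have := i0.2; omega⟩
    have hv3 : v ^ 3 ≠ 0 := pow_ne_zero _ hv
    have hd : IndV94 v (fun i : Fin m => c (i0.succAbove i)) := by
      intro A
      have e1 : ∑ i ∈ A, c (i0.succAbove i) = ∑ i ∈ A.map i0.succAboveEmb, c i := by
        rw [sum_map]
        rfl
      rw [e1]
      constructor
      · intro hA
        exact hc _ (hA.map)
      · intro h1
        have h2 : ∑ i ∈ A.map i0.succAboveEmb, c i = ∑ i ∈ T, c i :=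
          mul_right_cancel₀ hv3 (h1.trans hT.symm)
        have h3 : ∑ i ∈ A.map i0.succAboveEmb, c i + ∑ i ∈ T, c i = 0 := by
          rw [h2, CharTwo.add_self_eq_zero]
        rw [sum_symm94] at h3
        refine hc _ ⟨i0, ?_⟩ h3
        rw [mem_union]
        right
        rw [mem_sdiff]
        refine ⟨hi0, ?_⟩
        rw [mem_map]
        rintro ⟨j, _, hj⟩
        exact Fin.succAbove_ne i0 j hj
    obtain ⟨a, y, ha, hy, hq⟩ := plane94 X hn hF hv (3 - m) m (by omega)
      (fun i : Fin m => c (i0.succAbove i)) (fun i => if i0.succAbove i ∈ S then 1 else 0) hd (by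
        intro i
        split_ifs
        · right
          rfl
        · left
          rfl)
    have hq' : ∀ i, i ≠ i0 → tr n (c i * Rf a (a * y)) = if i ∈ S then 1 else 0 := by
      intro i hi
      obtain ⟨j, rfl⟩ := Fin.exists_succAbove_eq hi
      exact hq j
    refine ⟨a, y, ha, hy, fun i => ?_⟩
    by_cases hi : i = i0
    · subst hi
      have hbad : Gold8.Bad 1 v a (a * y) := by
        unfold Gold8.Bad
        rw [← hy]
        ring
      have h1 := bcl_zero hF hv hT hbad
      have h2 : (∑ i ∈ T, c i) * (a * (a * y) ^ 8 + a ^ 8 * (a * y)) =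
          ∑ i ∈ T, c i * Rf a (a * y) := by
        rw [sum_mul]
        refine sum_congr rfl fun i _ => ?_
        rw [Rf]
        ring
      have h3 : tr n (∑ i ∈ T, c i * Rf a (a * y)) = ∑ i ∈ T, tr n (c i * Rf a (a * y)) :=
        map_sum (tau F n) _ _
      rw [h2, h3, ← add_sum_erase T _ hi0] at h1
      have h4 : ∑ j ∈ T.erase i, tr n (c j * Rf a (a * y)) =
          ∑ j ∈ T.erase i, (if j ∈ S then (1 : F) else 0) := by
        refine sum_congr rfl fun j hj => hq' j (ne_of_mem_erase hj)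
      have h5 : (if i ∈ S then (1 : F) else 0) +
          ∑ j ∈ T.erase i, (if j ∈ S then (1 : F) else 0) = 0 := by
        rw [add_sum_erase T (fun j => if j ∈ S then (1 : F) else 0) hi0, Finset.sum_ite_mem,
          sum_const, nsmul_one, inter_comm]
        obtain ⟨r, hr⟩ := hev
        rw [hr, Nat.cast_add, CharTwo.add_self_eq_zero]
      rw [h4] at h1
      exact (CharTwo.add_eq_zero.1 h1).trans (CharTwo.add_eq_zero.1 h5).symm
    · exact hq' i hi
  · push Not at hT
    refine plane94 X hn hF hv (3 - k) k (by omega) c _ (fun T => ⟨fun h => hc T h, hT T⟩) (by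
        intro i
        split_ifs
        · right
          rfl
        · left
          rfl)

end Pool.Agent.Lib.MP_eacabd_co.Clo8
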