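import Mathlib
import Pool.Agent.Lib.MP_eacabd_co.Clo8.CHAR

/-!
The switching class of the cube: (BOOL), the Boolean functions whose second derivatives vanish on
the planes with two additional conditions.
-/

set_option autoImplicit false

namespace Pool.Agent.Lib.MP_eacabd_co.Clo8

open Finset Pool.Agent.Lib.MP_eacabd_co Pool.Agent.Lib.MP_eacabd_co.Gold8

theorem ind2_to {F : Type} [Field F] {v c₁ c₂ : F} (h : Ind2 v c₁ c₂) : IndV94 v ![c₁, c₂] := by
  obtain ⟨i1, i2, i3, i4, i5, i6⟩ := h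
  intro T
  have e : ∑ i ∈ T, (![c₁, c₂] : Fin 2 → F) i = (if (0 : Fin 2) ∈ T then c₁ else 0)
      + (if (1 : Fin 2) ∈ T then c₂ else 0) := by
    rw [← Finset.univ_inter T, ← Finset.sum_ite_mem, Fin.sum_univ_two]
    simp
  rw [e]
  by_cases h0 : (0 : Fin 2) ∈ T <;> by_cases h1 : (1 : Fin 2) ∈ T
  · rw [if_pos h0, if_pos h1]
    exact ⟨fun _ => i3, i6⟩
  · rw [if_pos h0, if_neg h1, add_zero]
    exact ⟨fun _ => i1, i4⟩
  · rw [if_neg h0, if_pos h1, zero_add]
    exact ⟨fun _ => i2, i5⟩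
  · rw [if_neg h0, if_neg h1, add_zero, zero_mul]
    refine ⟨fun hT => ?_, zero_ne_one⟩
    exfalso
    obtain ⟨i, hi⟩ := hT
    fin_cases i
    · exact h0 hi
    · exact h1 hi

section Bool

variable {F : Type} [Field F] [Fintype F] [DecidableEq F] [CharP F 2]

theorem sp_of {n : ℕ} {v c₁ c₂ a y : F} (hy : a * a ^ 2 * (y ^ 2 + y) = v)
    (h1 : tr n (c₁ * Rf a (a * y)) = 0) (h2 : tr n (c₂ * Rf a (a * y)) = 0) :
    Sp n v c₁ c₂ a (a * y) := by
  refine ⟨?_, h1, h2⟩
  unfold Gold8.Bad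
  rw [pow_one, mul_pow, ← hy]
  ring

theorem exists_sp (X : StExist) {n : ℕ} (hn : 610 ≤ n) (hF : Fintype.card F = 2 ^ n)
    {v c₁ c₂ : F} (hv : v ≠ 0) (hI : Ind2 v c₁ c₂) (e : F) :
    ∃ a b : F, Sp n v c₁ c₂ a b ∧ tr n (e * Rf a b) = 0 := by
  have hn0 : NeZero n := ⟨by omega⟩
  by_cases h : Ind3 v c₁ c₂ e
  · obtain ⟨a, y, _, hy, h1, h2, h3⟩ := X n hn F hF v c₁ c₂ e hv h 0 0 0 (Or.inl rfl) (Or.inl rfl)
      (Or.inl rfl)
    exact ⟨a, a * y, sp_of hy h1 h2, h3⟩
  · obtain ⟨a, y, _, hy, h1⟩ := plane94 X hn hF hv 1 2 rfl ![c₁, c₂] ![0, 0] (ind2_to hI) (by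
      intro i
      left
      fin_cases i <;> rfl)
    have g1 : tr n (c₁ * Rf a (a * y)) = 0 := h1 0
    have g2 : tr n (c₂ * Rf a (a * y)) = 0 := h1 1
    have hS := sp_of hy g1 g2
    refine ⟨a, a * y, hS, ?_⟩
    have t0 : tr n (0 : F) = 0 := (tau F n).map_zero
    have aux : ∀ s, tr n (s * Rf a (a * y)) = 0 → (s + e = 0 ∨ (s + e) * v ^ 3 = 1) →
        tr n (e * Rf a (a * y)) = 0 := by
      intro s hs h
      have h2 : tr n ((s + e) * Rf a (a * y)) = 0 := by
        rcases h with h | h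
        · rw [h, zero_mul, t0]
        · have h3 := bcl_zero hF hv h hS.1
          rw [← h3]
          congr 1
          unfold Rf
          ring
      rw [add_mul, tr_add, hs, zero_add] at h2
      exact h2
    have z0 : tr n (0 * Rf a (a * y)) = 0 := by rw [zero_mul, t0]
    have z12 : tr n ((c₁ + c₂) * Rf a (a * y)) = 0 := by rw [add_mul, tr_add, g1, g2, add_zero]
    by_contra hne
    apply h
    refine ⟨hI, ?_, ?_, ?_, ?_, ?_, ?_, ?_, ?_⟩
    · intro h'
      exact hne (aux 0 z0 (Or.inl (by rw [h', add_zero])))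
    · intro h'
      exact hne (aux c₁ g1 (Or.inl h'))
    · intro h'
      exact hne (aux c₂ g2 (Or.inl h'))
    · intro h'
      exact hne (aux _ z12 (Or.inl h'))
    · intro h'
      exact hne (aux 0 z0 (Or.inr (by rw [zero_add, h'])))
    · intro h'
      exact hne (aux c₁ g1 (Or.inr h'))
    · intro h'
      exact hne (aux c₂ g2 (Or.inr h'))
    · intro h'
      exact hne (aux _ z12 (Or.inr h'))

end Bool

theorem stBool (B : StBil) (T : StTri) (X : StExist) : StBool := by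
  intro n hn F _ _ _ _ hF v c₁ c₂ hv hI f hf
  have two : (2 : F) = 0 := CharTwo.two_eq_zero
  have hn0 : NeZero n := ⟨by omega⟩
  have h3 := third_zero (fun S hS hb => T n hn F hF v c₁ c₂ hv hI S hS hb) hf
  have hA : Alt2 (fun x y => D x (D y f) 0) := by
    refine ⟨?_, ?_, ?_, ?_⟩
    · intro x x' y
      show D (x + x') (D y f) 0 = _
      rw [D_add, h3]
      simp
    · intro x y
      show D x (D y f) 0 = D y (D x f) 0
      rw [D_comm]
    · intro x
      show D x (D x f) 0 = 0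
      rw [D_self]
      rfl
    · intro x y
      exact ((MB_D (MB_D hf y) x).1) 0
  obtain ⟨c, e, hc'⟩ := B n hn F hF v c₁ c₂ hv hI _ hA (fun a b hab => by
    show D a (D b f) 0 = 0
    rw [hf.2 a b hab]
    rfl)
  have hu0 : tr n (c * v) = 0 := by
    obtain ⟨a, b, hab, he⟩ := exists_sp X hn hF hv hI e
    have h4 : D a (D b f) 0 = tr n (c * (a * b ^ 2 + a ^ 2 * b))
      + tr n (e * (a * b ^ 8 + a ^ 8 * b)) := hc' a b
    have h5 : tr n (e * (a * b ^ 8 + a ^ 8 * b)) = 0 := by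
      rw [← he]
      congr 1
      unfold Rf
      ring
    rw [hf.2 a b hab, h5, add_zero] at h4
    have h6 := hab.1
    unfold Gold8.Bad at h6
    rw [pow_one] at h6
    rw [h6] at h4
    exact h4.symm
  have hadd : ∀ x y, f (x + y) = f x + f y + f 0
      + (tr n (c * (x * y ^ 2 + x ^ 2 * y)) + tr n (e * (x * y ^ 8 + x ^ 8 * y))) := by
    intro x y
    have h4 : D x (D y f) 0 = tr n (c * (x * y ^ 2 + x ^ 2 * y))
      + tr n (e * (x * y ^ 8 + x ^ 8 * y)) := hc' x y
    rw [← h4]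
    simp only [D, zero_add]
    linear_combination (-(f x) - f y - f 0) * two
  have t0 : tr n (0 : F) = 0 := (tau F n).map_zero
  refine ⟨c, e, ⟨⟨fun x => f x + tr n (c * x ^ 3) + tr n (e * x ^ 9) + f 0, ?_⟩, ?_⟩, hu0, ?_⟩
  · rw [zero_pow (by norm_num), zero_pow (by norm_num), mul_zero, mul_zero, t0]
    linear_combination (f 0) * two
  · intro x y
    simp only
    have h4 : c * (x + y) ^ 3 = c * x ^ 3 + c * y ^ 3 + c * (x * y ^ 2 + x ^ 2 * y) := by
      linear_combination (c * (x ^ 2 * y + x * y ^ 2)) * two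
    have h5 : e * (x + y) ^ 9 = e * x ^ 9 + e * y ^ 9 + e * (x * y ^ 8 + x ^ 8 * y) := by
      have h6 : (x + y) ^ 8 = x ^ 8 + y ^ 8 := by
        have := add_pow_char_pow (p := 2) x y (n := 3)
        norm_num at this
        exact this
      rw [show (x + y) ^ 9 = (x + y) ^ 8 * (x + y) by ring, h6]
      ring
    rw [h4, h5, tr_add, tr_add, tr_add, tr_add, hadd]
    linear_combination (tr n (c * (x * y ^ 2 + x ^ 2 * y)) + tr n (e * (x * y ^ 8 + x ^ 8 * y)))
      * two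
  · intro x
    show f x = tr n (c * x ^ 3) + tr n (e * x ^ 9) + (f x + tr n (c * x ^ 3) + tr n (e * x ^ 9)
      + f 0) + f 0
    linear_combination (-(tr n (c * x ^ 3)) - tr n (e * x ^ 9) - f 0) * two

end Pool.Agent.Lib.MP_eacabd_co.Clo8
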