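import Pool.Agent.Lib.MP_eacabd_co.Clo8.StmtsC

/-!
Module CLASS: the solutions of the condition on the coefficients (helper85).
-/

set_option autoImplicit false

namespace Pool.Agent.Lib.MP_eacabd_co.Clo8

open Finset

section field

variable {F : Type} [Field F] [CharP F 2]

/-- equal cubes of different elements -/
theorem cube_add85 {x y : F} (h : x ^ 3 = y ^ 3) (hxy : x ≠ y) : (x + y) ^ 3 = x ^ 3 := by
  have h2 : (2 : F) = 0 := CharTwo.two_eq_zero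
  have h1 : (x - y) * (x ^ 2 + x * y + y ^ 2) = 0 := by linear_combination h
  have h3 : x ^ 2 + x * y + y ^ 2 = 0 := by
    rcases mul_eq_zero.1 h1 with h4 | h4
    · exact absurd (sub_eq_zero.1 h4) hxy
    · exact h4
  linear_combination (y + 2 * x) * h3 - x ^ 3 * h2

/-- sums over a symmetric difference -/
theorem sum_symm85 {ι : Type} [DecidableEq ι] (f : ι → F) (S S' : Finset ι) :
    ∑ i ∈ symmDiff S S', f i = ∑ i ∈ S, f i + ∑ i ∈ S', f i := by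
  have h1 : ∑ i ∈ S, f i = ∑ i ∈ S \ S', f i + ∑ i ∈ S ∩ S', f i := by
    rw [add_comm]; exact (Finset.sum_inter_add_sum_sdiff S S' f).symm
  have h2 : ∑ i ∈ S', f i = ∑ i ∈ S' \ S, f i + ∑ i ∈ S ∩ S', f i := by
    rw [add_comm, Finset.inter_comm]; exact (Finset.sum_inter_add_sum_sdiff S' S f).symm
  have h3 : ∑ i ∈ symmDiff S S', f i = ∑ i ∈ S \ S', f i + ∑ i ∈ S' \ S, f i := by
    have : symmDiff S S' = (S \ S') ∪ (S' \ S) := rfl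
    rw [this, Finset.sum_union]
    exact disjoint_sdiff_sdiff
  have h4 : ∑ i ∈ S ∩ S', f i + ∑ i ∈ S ∩ S', f i = 0 := CharTwo.add_self_eq_zero _
  rw [h3, h1, h2]
  linear_combination -h4

/-- independent elements: different sets have different sums -/
theorem inj_lin85 {k : ℕ} {c : Fin k → F} (hc : Lin c) {S S' : Finset (Fin k)}
    (h : ∑ i ∈ S, c i = ∑ i ∈ S', c i) : S = S' := by
  by_contra hne
  have h1 : (symmDiff S S').Nonempty := by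
    rw [Finset.nonempty_iff_ne_empty]
    intro h2
    exact hne (symmDiff_eq_bot.1 h2)
  apply hc _ h1
  rw [sum_symm85, h]
  exact CharTwo.add_self_eq_zero _

/-- the seven roots -/
theorem roots85 (a b c : F) (w : Fin 7 → F) (hw : w = ![a, b, c, a + b, a + c, b + c, a + b + c])
    (q r m e4 e6 e7 : F) (hq : q = a ^ 2 + a * b + b ^ 2) (hr : r = a * b * (a + b))
    (hm : m = c ^ 4 + q * c ^ 2 + r * c) (h4 : e4 = q ^ 2 + m) (h6 : e6 = r ^ 2 + m * q)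
    (h7 : e7 = m * r) (i : Fin 7) : w i ^ 7 + e4 * w i ^ 3 + e6 * w i + e7 = 0 := by
  have h2 : (2 : F) = 0 := CharTwo.two_eq_zero
  subst h4 h6 h7 hm hq hr hw
  fin_cases i
  · show a ^ 7 + ((a ^ 2 + a * b + b ^ 2) ^ 2 + (c ^ 4 + (a ^ 2 + a * b + b ^ 2) * c ^ 2
      + a * b * (a + b) * c)) * a ^ 3 + ((a * b * (a + b)) ^ 2 + (c ^ 4 + (a ^ 2 + a * b + b ^ 2) * c ^ 2
      + a * b * (a + b) * c) * (a ^ 2 + a * b + b ^ 2)) * a + (c ^ 4 + (a ^ 2 + a * b + b ^ 2) * c ^ 2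
      + a * b * (a + b) * c) * (a * b * (a + b)) = 0
    linear_combination (
      a * b ^ 2 * c ^ 4 + a * b ^ 4 * c ^ 2 + a ^ 2 * b * c ^ 4 + 2 * a ^ 2 * b ^ 3 * c ^ 2 + a ^
      2 * b ^ 4 * c + a ^ 3 * c ^ 4 + 3 * a ^ 3 * b ^ 2 * c ^ 2 + 2 * a ^ 3 * b ^ 3 * c + a ^ 3 *
      b ^ 4 + 2 * a ^ 4 * b * c ^ 2 + 2 * a ^ 4 * b ^ 2 * c + 2 * a ^ 4 * b ^ 3 + a ^ 5 * c ^ 2 +
      a ^ 5 * b * c + 2 * a ^ 5 * b ^ 2 + a ^ 6 * b + a ^ 7) * h2
  · show b ^ 7 + ((a ^ 2 + a * b + b ^ 2) ^ 2 + (c ^ 4 + (a ^ 2 + a * b + b ^ 2) * c ^ 2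
      + a * b * (a + b) * c)) * b ^ 3 + ((a * b * (a + b)) ^ 2 + (c ^ 4 + (a ^ 2 + a * b + b ^ 2) * c ^ 2
      + a * b * (a + b) * c) * (a ^ 2 + a * b + b ^ 2)) * b + (c ^ 4 + (a ^ 2 + a * b + b ^ 2) * c ^ 2
      + a * b * (a + b) * c) * (a * b * (a + b)) = 0
    linear_combination (
      b ^ 3 * c ^ 4 + b ^ 5 * c ^ 2 + b ^ 7 + a * b ^ 2 * c ^ 4 + 2 * a * b ^ 4 * c ^ 2 + a * b ^
      5 * c + a * b ^ 6 + a ^ 2 * b * c ^ 4 + 3 * a ^ 2 * b ^ 3 * c ^ 2 + 2 * a ^ 2 * b ^ 4 * c +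
      2 * a ^ 2 * b ^ 5 + 2 * a ^ 3 * b ^ 2 * c ^ 2 + 2 * a ^ 3 * b ^ 3 * c + 2 * a ^ 3 * b ^ 4 +
      a ^ 4 * b * c ^ 2 + a ^ 4 * b ^ 2 * c + a ^ 4 * b ^ 3) * h2
  · show c ^ 7 + ((a ^ 2 + a * b + b ^ 2) ^ 2 + (c ^ 4 + (a ^ 2 + a * b + b ^ 2) * c ^ 2
      + a * b * (a + b) * c)) * c ^ 3 + ((a * b * (a + b)) ^ 2 + (c ^ 4 + (a ^ 2 + a * b + b ^ 2) * c ^ 2
      + a * b * (a + b) * c) * (a ^ 2 + a * b + b ^ 2)) * c + (c ^ 4 + (a ^ 2 + a * b + b ^ 2) * c ^ 2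
      + a * b * (a + b) * c) * (a * b * (a + b)) = 0
    linear_combination (
      c ^ 7 + b ^ 2 * c ^ 5 + b ^ 4 * c ^ 3 + a * b * c ^ 5 + a * b ^ 2 * c ^ 4 + 2 * a * b ^ 3 *
      c ^ 3 + a * b ^ 4 * c ^ 2 + a ^ 2 * c ^ 5 + a ^ 2 * b * c ^ 4 + 3 * a ^ 2 * b ^ 2 * c ^ 3 +
      2 * a ^ 2 * b ^ 3 * c ^ 2 + a ^ 2 * b ^ 4 * c + 2 * a ^ 3 * b * c ^ 3 + 2 * a ^ 3 * b ^ 2 *
      c ^ 2 + 2 * a ^ 3 * b ^ 3 * c + a ^ 4 * c ^ 3 + a ^ 4 * b * c ^ 2 + a ^ 4 * b ^ 2 * c) * h2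
  · show (a + b) ^ 7 + ((a ^ 2 + a * b + b ^ 2) ^ 2 + (c ^ 4 + (a ^ 2 + a * b + b ^ 2) * c ^ 2
      + a * b * (a + b) * c)) * (a + b) ^ 3 + ((a * b * (a + b)) ^ 2 + (c ^ 4 + (a ^ 2 + a * b + b ^ 2) * c ^ 2
      + a * b * (a + b) * c) * (a ^ 2 + a * b + b ^ 2)) * (a + b) + (c ^ 4 + (a ^ 2 + a * b + b ^ 2) * c ^ 2
      + a * b * (a + b) * c) * (a * b * (a + b)) = 0
    linear_combination (
      b ^ 3 * c ^ 4 + b ^ 5 * c ^ 2 + b ^ 7 + 3 * a * b ^ 2 * c ^ 4 + 4 * a * b ^ 4 * c ^ 2 + a *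
      b ^ 5 * c + 6 * a * b ^ 6 + 3 * a ^ 2 * b * c ^ 4 + 7 * a ^ 2 * b ^ 3 * c ^ 2 + 4 * a ^ 2 *
      b ^ 4 * c + 17 * a ^ 2 * b ^ 5 + a ^ 3 * c ^ 4 + 7 * a ^ 3 * b ^ 2 * c ^ 2 + 6 * a ^ 3 * b
      ^ 3 * c + 28 * a ^ 3 * b ^ 4 + 4 * a ^ 4 * b * c ^ 2 + 4 * a ^ 4 * b ^ 2 * c + 28 * a ^ 4 *
      b ^ 3 + a ^ 5 * c ^ 2 + a ^ 5 * b * c + 17 * a ^ 5 * b ^ 2 + 6 * a ^ 6 * b + a ^ 7) * h2
  · show (a + c) ^ 7 + ((a ^ 2 + a * b + b ^ 2) ^ 2 + (c ^ 4 + (a ^ 2 + a * b + b ^ 2) * c ^ 2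
      + a * b * (a + b) * c)) * (a + c) ^ 3 + ((a * b * (a + b)) ^ 2 + (c ^ 4 + (a ^ 2 + a * b + b ^ 2) * c ^ 2
      + a * b * (a + b) * c) * (a ^ 2 + a * b + b ^ 2)) * (a + c) + (c ^ 4 + (a ^ 2 + a * b + b ^ 2) * c ^ 2
      + a * b * (a + b) * c) * (a * b * (a + b)) = 0
    linear_combination (
      c ^ 7 + b ^ 2 * c ^ 5 + b ^ 4 * c ^ 3 + 5 * a * c ^ 6 + a * b * c ^ 5 + 3 * a * b ^ 2 * c ^
      4 + 2 * a * b ^ 3 * c ^ 3 + 3 * a * b ^ 4 * c ^ 2 + 13 * a ^ 2 * c ^ 5 + 3 * a ^ 2 * b * c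
      ^ 4 + 6 * a ^ 2 * b ^ 2 * c ^ 3 + 6 * a ^ 2 * b ^ 3 * c ^ 2 + 3 * a ^ 2 * b ^ 4 * c + 20 *
      a ^ 3 * c ^ 4 + 5 * a ^ 3 * b * c ^ 3 + 10 * a ^ 3 * b ^ 2 * c ^ 2 + 6 * a ^ 3 * b ^ 3 * c
      + a ^ 3 * b ^ 4 + 20 * a ^ 4 * c ^ 3 + 7 * a ^ 4 * b * c ^ 2 + 7 * a ^ 4 * b ^ 2 * c + 2 *
      a ^ 4 * b ^ 3 + 13 * a ^ 5 * c ^ 2 + 4 * a ^ 5 * b * c + 2 * a ^ 5 * b ^ 2 + 5 * a ^ 6 * c
      + a ^ 6 * b + a ^ 7) * h2
  · show (b + c) ^ 7 + ((a ^ 2 + a * b + b ^ 2) ^ 2 + (c ^ 4 + (a ^ 2 + a * b + b ^ 2) * c ^ 2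
      + a * b * (a + b) * c)) * (b + c) ^ 3 + ((a * b * (a + b)) ^ 2 + (c ^ 4 + (a ^ 2 + a * b + b ^ 2) * c ^ 2
      + a * b * (a + b) * c) * (a ^ 2 + a * b + b ^ 2)) * (b + c) + (c ^ 4 + (a ^ 2 + a * b + b ^ 2) * c ^ 2
      + a * b * (a + b) * c) * (a * b * (a + b)) = 0
    linear_combination (
      c ^ 7 + 5 * b * c ^ 6 + 13 * b ^ 2 * c ^ 5 + 20 * b ^ 3 * c ^ 4 + 20 * b ^ 4 * c ^ 3 + 13 *
      b ^ 5 * c ^ 2 + 5 * b ^ 6 * c + b ^ 7 + a * b * c ^ 5 + 3 * a * b ^ 2 * c ^ 4 + 5 * a * b ^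
      3 * c ^ 3 + 7 * a * b ^ 4 * c ^ 2 + 4 * a * b ^ 5 * c + a * b ^ 6 + a ^ 2 * c ^ 5 + 3 * a ^
      2 * b * c ^ 4 + 6 * a ^ 2 * b ^ 2 * c ^ 3 + 10 * a ^ 2 * b ^ 3 * c ^ 2 + 7 * a ^ 2 * b ^ 4
      * c + 2 * a ^ 2 * b ^ 5 + 2 * a ^ 3 * b * c ^ 3 + 6 * a ^ 3 * b ^ 2 * c ^ 2 + 6 * a ^ 3 * b
      ^ 3 * c + 2 * a ^ 3 * b ^ 4 + a ^ 4 * c ^ 3 + 3 * a ^ 4 * b * c ^ 2 + 3 * a ^ 4 * b ^ 2 * c
      + a ^ 4 * b ^ 3) * h2
  · show (a + b + c) ^ 7 + ((a ^ 2 + a * b + b ^ 2) ^ 2 + (c ^ 4 + (a ^ 2 + a * b + b ^ 2) * c ^ 2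
      + a * b * (a + b) * c)) * (a + b + c) ^ 3 + ((a * b * (a + b)) ^ 2 + (c ^ 4 + (a ^ 2 + a * b + b ^ 2) * c ^ 2
      + a * b * (a + b) * c) * (a ^ 2 + a * b + b ^ 2)) * (a + b + c) + (c ^ 4 + (a ^ 2 + a * b + b ^ 2) * c ^ 2
      + a * b * (a + b) * c) * (a * b * (a + b)) = 0
    linear_combination (
      c ^ 7 + 5 * b * c ^ 6 + 13 * b ^ 2 * c ^ 5 + 20 * b ^ 3 * c ^ 4 + 20 * b ^ 4 * c ^ 3 + 13 *
      b ^ 5 * c ^ 2 + 5 * b ^ 6 * c + b ^ 7 + 5 * a * c ^ 6 + 25 * a * b * c ^ 5 + 59 * a * b ^ 2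
      * c ^ 4 + 78 * a * b ^ 3 * c ^ 3 + 63 * a * b ^ 4 * c ^ 2 + 28 * a * b ^ 5 * c + 6 * a * b
      ^ 6 + 13 * a ^ 2 * c ^ 5 + 59 * a ^ 2 * b * c ^ 4 + 117 * a ^ 2 * b ^ 2 * c ^ 3 + 125 * a ^
      2 * b ^ 3 * c ^ 2 + 69 * a ^ 2 * b ^ 4 * c + 17 * a ^ 2 * b ^ 5 + 20 * a ^ 3 * c ^ 4 + 78 *
      a ^ 3 * b * c ^ 3 + 125 * a ^ 3 * b ^ 2 * c ^ 2 + 92 * a ^ 3 * b ^ 3 * c + 28 * a ^ 3 * b ^
      4 + 20 * a ^ 4 * c ^ 3 + 63 * a ^ 4 * b * c ^ 2 + 69 * a ^ 4 * b ^ 2 * c + 28 * a ^ 4 * b ^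
      3 + 13 * a ^ 5 * c ^ 2 + 28 * a ^ 5 * b * c + 17 * a ^ 5 * b ^ 2 + 5 * a ^ 6 * c + 6 * a ^
      6 * b + a ^ 7) * h2

/-- the product of the seven nonzero elements -/
theorem prod85 (a b c : F) (ha : a ≠ 0) (hb : b ≠ 0) (hc : c ≠ 0) (hab : a + b ≠ 0)
    (hac : a + c ≠ 0) (hbc : b + c ≠ 0) (habc : a + b + c ≠ 0) :
    (c ^ 4 + (a ^ 2 + a * b + b ^ 2) * c ^ 2 + a * b * (a + b) * c) * (a * b * (a + b)) ≠ 0 := by
  have h2 : (2 : F) = 0 := CharTwo.two_eq_zero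
  have h : c ^ 4 + (a ^ 2 + a * b + b ^ 2) * c ^ 2 + a * b * (a + b) * c
      = c * (a + c) * (b + c) * (a + b + c) := by
    linear_combination (-1 * b * c ^ 3 + -1 * a * c ^ 3 + -1 * a * b * c ^ 2) * h2
  rw [h]
  exact mul_ne_zero (mul_ne_zero (mul_ne_zero (mul_ne_zero hc hac) hbc) habc)
    (mul_ne_zero (mul_ne_zero ha hb) hab)

theorem sum1_85 (a b c : F) : a + b + c + (a + b) + (a + c) + (b + c) + (a + b + c) = 0 := by
  have h2 : (2 : F) = 0 := CharTwo.two_eq_zero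
  linear_combination (2 * a + 2 * b + 2 * c) * h2

theorem sum3_85 (a b c : F) : a ^ 3 + b ^ 3 + c ^ 3 + (a + b) ^ 3 + (a + c) ^ 3 + (b + c) ^ 3
    + (a + b + c) ^ 3 = 0 := by
  have h2 : (2 : F) = 0 := CharTwo.two_eq_zero
  linear_combination (
    2 * c ^ 3 + 3 * b * c ^ 2 + 3 * b ^ 2 * c + 2 * b ^ 3 + 3 * a * c ^ 2 + 3 * a * b * c + 3 * a
    * b ^ 2 + 3 * a ^ 2 * c + 3 * a ^ 2 * b + 2 * a ^ 3) * h2

theorem sum5_85 (a b c : F) : a ^ 5 + b ^ 5 + c ^ 5 + (a + b) ^ 5 + (a + c) ^ 5 + (b + c) ^ 5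
    + (a + b + c) ^ 5 = 0 := by
  have h2 : (2 : F) = 0 := CharTwo.two_eq_zero
  linear_combination (
    2 * c ^ 5 + 5 * b * c ^ 4 + 10 * b ^ 2 * c ^ 3 + 10 * b ^ 3 * c ^ 2 + 5 * b ^ 4 * c + 2 * b ^
    5 + 5 * a * c ^ 4 + 10 * a * b * c ^ 3 + 15 * a * b ^ 2 * c ^ 2 + 10 * a * b ^ 3 * c + 5 * a
    * b ^ 4 + 10 * a ^ 2 * c ^ 3 + 15 * a ^ 2 * b * c ^ 2 + 15 * a ^ 2 * b ^ 2 * c + 10 * a ^ 2 *
    b ^ 3 + 10 * a ^ 3 * c ^ 2 + 10 * a ^ 3 * b * c + 10 * a ^ 3 * b ^ 2 + 5 * a ^ 4 * c + 5 * a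
    ^ 4 * b + 2 * a ^ 5) * h2

/-- the power sums of the inverses -/
theorem power85 (w : Fin 7 → F) (hw : ∀ i, w i ≠ 0) (e4 e6 e7 : F) (h7 : e7 ≠ 0)
    (hroot : ∀ i, w i ^ 7 + e4 * w i ^ 3 + e6 * w i + e7 = 0) (s1 : ∑ i, w i = 0)
    (s3 : ∑ i, w i ^ 3 = 0) (q3 : ∑ i, (w i)⁻¹ ^ 3 = 0) (q9 : ∑ i, (w i)⁻¹ ^ 9 = 0)
    (q15 : ∑ i, (w i)⁻¹ ^ 15 = 0) : ∀ i, w i ^ 7 = e7 := by
  have h2 : (2 : F) = 0 := CharTwo.two_eq_zero
  obtain ⟨y, hy⟩ : ∃ y : Fin 7 → F, y = fun i => (w i)⁻¹ := ⟨_, rfl⟩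
  have hyi : ∀ i, w i * y i = 1 := fun i => by rw [hy]; exact mul_inv_cancel₀ (hw i)
  have hq3 : ∑ i, y i ^ 3 = 0 := by rw [hy]; exact q3
  have hq9 : ∑ i, y i ^ 9 = 0 := by rw [hy]; exact q9
  have hq15 : ∑ i, y i ^ 15 = 0 := by rw [hy]; exact q15
  have hdbl : ∀ j : ℕ, ∑ i, y i ^ (2 * j) = (∑ i, y i ^ j) ^ 2 := by
    intro j
    rw [CharTwo.sum_sq]
    exact Finset.sum_congr rfl fun i _ => by rw [← pow_mul, mul_comm]
  have hone : ∑ _i : Fin 7, (1 : F) = 1 := by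
    rw [Finset.sum_const, Finset.card_univ, Fintype.card_fin]
    simp only [nsmul_eq_mul, mul_one]
    push_cast
    linear_combination 3 * h2
  -- the basic relation
  have r0 : ∀ i, 1 + e4 * y i ^ 4 + e6 * y i ^ 6 + e7 * y i ^ 7 = 0 := by
    intro i
    have h := hroot i
    have h1 := hyi i
    have h3 : (w i * y i) ^ 7 + e4 * ((w i * y i) ^ 3 * y i ^ 4) + e6 * ((w i * y i) * y i ^ 6)
        + e7 * y i ^ 7 = 0 := by linear_combination y i ^ 7 * h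
    rw [h1] at h3
    linear_combination h3
  obtain ⟨p1, hp1⟩ : ∃ p1 : F, p1 = ∑ i, y i := ⟨_, rfl⟩
  obtain ⟨p7, hp7⟩ : ∃ p7 : F, p7 = ∑ i, y i ^ 7 := ⟨_, rfl⟩
  have hp1' : ∑ i, y i ^ 1 = p1 := by simp only [pow_one]; exact hp1.symm
  have hp2 : ∑ i, y i ^ 2 = p1 ^ 2 := by rw [← hp1']; exact hdbl 1
  have hp4 : ∑ i, y i ^ 4 = p1 ^ 4 := by
    rw [hdbl 2, hp2]; ring
  have hp8 : ∑ i, y i ^ 8 = p1 ^ 8 := by
    rw [hdbl 4, hp4]; ring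
  have hp6 : ∑ i, y i ^ 6 = 0 := by rw [hdbl 3, hq3]; ring
  have hp12 : ∑ i, y i ^ 12 = 0 := by rw [hdbl 6, hp6]; ring
  have hp14 : ∑ i, y i ^ 14 = p7 ^ 2 := by rw [hdbl 7, hp7]
  have hs2 : ∑ i, w i ^ 2 = 0 := by rw [← CharTwo.sum_sq, s1]; ring
  have hs4 : ∑ i, w i ^ 4 = 0 := by
    have : ∀ i, w i ^ 4 = (w i ^ 2) ^ 2 := fun i => by ring
    simp only [this]
    rw [← CharTwo.sum_sq, hs2]; ring
  have hs6 : ∑ i, w i ^ 6 = 0 := by
    have : ∀ i, w i ^ 6 = (w i ^ 3) ^ 2 := fun i => by ring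
    simp only [this]
    rw [← CharTwo.sum_sq, s3]; ring
  -- the recurrences
  have E1 : e6 + e7 * p1 = 0 := by
    have h : ∑ i, (w i ^ 6 + e4 * w i ^ 2 + e6 * 1 + e7 * y i) = 0 := by
      refine Finset.sum_eq_zero fun i _ => ?_
      have h1 := hyi i
      linear_combination y i * hroot i - (w i ^ 6 + e4 * w i ^ 2 + e6) * h1
    simp only [Finset.sum_add_distrib, ← Finset.mul_sum] at h
    rw [hs6, hs2, hone, ← hp1] at h
    linear_combination h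
  have E3 : e4 + e6 * p1 ^ 2 = 0 := by
    have h : ∑ i, (w i ^ 4 + e4 * 1 + e6 * y i ^ 2 + e7 * y i ^ 3) = 0 := by
      refine Finset.sum_eq_zero fun i _ => ?_
      have h1 := hyi i
      have h3 : w i ^ 4 * (w i * y i) ^ 3 + e4 * (w i * y i) ^ 3 + e6 * ((w i * y i) * y i ^ 2)
        + e7 * y i ^ 3 = 0 := by linear_combination y i ^ 3 * hroot i
      rw [h1] at h3
      linear_combination h3
    simp only [Finset.sum_add_distrib, ← Finset.mul_sum] at h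
    rw [hs4, hone, hp2, hq3] at h
    linear_combination h
  have E9 : p1 ^ 2 + e6 * p1 ^ 8 = 0 := by
    have h : ∑ i, (y i ^ 2 + e4 * y i ^ 6 + e6 * y i ^ 8 + e7 * y i ^ 9) = 0 := by
      refine Finset.sum_eq_zero fun i _ => ?_
      linear_combination y i ^ 2 * r0 i
    simp only [Finset.sum_add_distrib, ← Finset.mul_sum] at h
    rw [hp2, hp6, hp8, hq9] at h
    linear_combination h
  have E7 : 1 + e4 * p1 ^ 4 + e7 * p7 = 0 := by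
    have h : ∑ i, (1 + e4 * y i ^ 4 + e6 * y i ^ 6 + e7 * y i ^ 7) = 0 :=
      Finset.sum_eq_zero fun i _ => r0 i
    simp only [Finset.sum_add_distrib, ← Finset.mul_sum] at h
    rw [hone, hp4, hp6, ← hp7] at h
    linear_combination h
  have E15 : p1 ^ 8 + e6 * p7 ^ 2 = 0 := by
    have h : ∑ i, (y i ^ 8 + e4 * y i ^ 12 + e6 * y i ^ 14 + e7 * y i ^ 15) = 0 := by
      refine Finset.sum_eq_zero fun i _ => ?_
      linear_combination y i ^ 8 * r0 i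
    simp only [Finset.sum_add_distrib, ← Finset.mul_sum] at h
    rw [hp8, hp12, hp14, hq15] at h
    linear_combination h
  have hp : p1 = 0 := by
    by_contra hp
    have h1 : 1 + e6 * p1 ^ 6 = 0 := by
      have h3 : p1 ^ 2 * (1 + e6 * p1 ^ 6) = 0 := by linear_combination E9
      rcases mul_eq_zero.1 h3 with h4 | h4
      · exact absurd (pow_eq_zero_iff (two_ne_zero)|>.1 h4) hp
      · exact h4
    have h3 : e7 * p7 = 0 := by
      linear_combination E7 - p1 ^ 4 * E3 + h1 - h2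
    have h4 : p7 = 0 := (mul_eq_zero.1 h3).resolve_left h7
    rw [h4] at E15
    apply hp
    have h5 : p1 ^ 8 = 0 := by linear_combination E15
    exact (pow_eq_zero_iff (by norm_num)).1 h5
  have h6 : e6 = 0 := by rw [hp] at E1; linear_combination E1
  have h4 : e4 = 0 := by rw [hp] at E3; linear_combination E3
  intro i
  have h := hroot i
  rw [h6, h4] at h
  linear_combination h - e7 * h2

end field

/-- the nonempty subsets -/
def NN85 : Finset (Finset (Fin 3)) := Finset.univ.erase ∅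

theorem NN85_eq : NN85 = {{0}, {1}, {2}, {0, 1}, {0, 2}, {1, 2}, {0, 1, 2}} := by decide

theorem sumNN85 {F : Type} [Field F] (g : Finset (Fin 3) → F) : ∑ S ∈ NN85, g S
    = g {0} + g {1} + g {2} + g {0, 1} + g {0, 2} + g {1, 2} + g {0, 1, 2} := by
  rw [NN85_eq, Finset.sum_insert (by decide), Finset.sum_insert (by decide),
    Finset.sum_insert (by decide), Finset.sum_insert (by decide), Finset.sum_insert (by decide),
    Finset.sum_insert (by decide), Finset.sum_singleton]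
  ring

theorem parity85 {k : ℕ} (S S' T : Finset (Fin k)) (h : Odd (S ∩ T).card)
    (h' : Odd (S' ∩ T).card) : ¬ Odd (symmDiff S S' ∩ T).card := by
  have h1 : symmDiff S S' ∩ T = symmDiff (S ∩ T) (S' ∩ T) := by
    ext i
    simp only [Finset.mem_inter, Finset.mem_symmDiff]
    tauto
  have h2 : (symmDiff (S ∩ T) (S' ∩ T)).card + 2 * ((S ∩ T) ∩ (S' ∩ T)).card
      = (S ∩ T).card + (S' ∩ T).card := by
    have h3 : symmDiff (S ∩ T) (S' ∩ T) = ((S ∩ T) \ (S' ∩ T)) ∪ ((S' ∩ T) \ (S ∩ T)) := rfl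
    rw [h3, Finset.card_union_of_disjoint disjoint_sdiff_sdiff]
    have h4 := Finset.card_sdiff_add_card_inter (S ∩ T) (S' ∩ T)
    have h5 := Finset.card_sdiff_add_card_inter (S' ∩ T) (S ∩ T)
    rw [Finset.inter_comm (S' ∩ T) (S ∩ T)] at h5
    omega
  rw [h1]
  obtain ⟨x, hx⟩ := h
  obtain ⟨y, hy⟩ := h'
  rintro ⟨z, hz⟩
  omega

/-- the map from `S` to `T` is injective -/
theorem injT85 {F : Type} [Field F] [CharP F 2] {k : ℕ} {u c : Fin k → F} (hu : Lin u)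
    (hc : Lin c) {T : Finset (Fin k) → Finset (Fin k)}
    (hT : ∀ S : Finset (Fin k), S.Nonempty → Odd (S ∩ T S).card ∧
      (∑ i ∈ T S, c i) * (∑ i ∈ S, u i) ^ 3 = 1) {S S' : Finset (Fin k)} (hS : S.Nonempty)
    (hS' : S'.Nonempty) (h : T S = T S') : S = S' := by
  by_contra hne
  obtain ⟨h1, h2⟩ := hT S hS
  obtain ⟨h3, h4⟩ := hT S' hS'
  rw [← h] at h3 h4
  have hc0 : ∑ i ∈ T S, c i ≠ 0 := left_ne_zero_of_mul_eq_one h2
  have h5 : (∑ i ∈ S, u i) ^ 3 = (∑ i ∈ S', u i) ^ 3 :=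
    mul_left_cancel₀ hc0 (h2.trans h4.symm)
  have h6 : ∑ i ∈ S, u i ≠ ∑ i ∈ S', u i := fun h7 => hne (inj_lin85 hu h7)
  have h7 := cube_add85 h5 h6
  rw [← sum_symm85] at h7
  have h8 : (symmDiff S S').Nonempty := by
    rw [Finset.nonempty_iff_ne_empty]
    intro h9
    exact hne (symmDiff_eq_bot.1 h9)
  obtain ⟨h9, h10⟩ := hT _ h8
  rw [h7] at h10
  have h11 : (∑ i ∈ S, u i) ^ 3 ≠ 0 := right_ne_zero_of_mul_eq_one h2
  have h12 : T (symmDiff S S') = T S := inj_lin85 hc (mul_right_cancel₀ h11 (h10.trans h2.symm))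
  rw [h12] at h9
  exact parity85 S S' (T S) h1 h3 h9

theorem dec85 : ∀ A B C : Finset (Fin 3), Odd (({0} : Finset (Fin 3)) ∩ A).card →
    Odd (({1} : Finset (Fin 3)) ∩ B).card → Odd (({2} : Finset (Fin 3)) ∩ C).card →
    Odd (({0, 1} : Finset (Fin 3)) ∩ symmDiff A B).card →
    Odd (({0, 2} : Finset (Fin 3)) ∩ symmDiff A C).card →
    Odd (({1, 2} : Finset (Fin 3)) ∩ symmDiff B C).card →
    Odd (({0, 1, 2} : Finset (Fin 3)) ∩ symmDiff (symmDiff A B) C).card → False := by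
  decide

theorem dec2_85 : ∀ A B C : Finset (Fin 2), Odd (({0} : Finset (Fin 2)) ∩ A).card →
    Odd (({1} : Finset (Fin 2)) ∩ B).card → Odd (({0, 1} : Finset (Fin 2)) ∩ C).card →
    A ≠ B → A ≠ C → B ≠ C → (A = {0} ∧ B = {0, 1} ∧ C = {1}) ∨ (A = {0, 1} ∧ B = {1} ∧ C = {0}) := by
  decide

/-- three summands are impossible -/
theorem three85 {F : Type} [Field F] [CharP F 2] (u c : Fin 3 → F) (hu : Lin u) (hc : Lin c)
    (h : Cnd u c) : False := by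
  have h2 : (2 : F) = 0 := CharTwo.two_eq_zero
  choose! T hT using h
  have hmem : ∀ S, S ∈ NN85 ↔ S.Nonempty := by
    intro S
    rw [NN85, Finset.mem_erase, Finset.nonempty_iff_ne_empty]
    simp
  have hTN : ∀ S ∈ NN85, T S ∈ NN85 := by
    intro S hS
    rw [hmem] at hS ⊢
    obtain ⟨h1, -⟩ := hT S hS
    have h3 : (S ∩ T S).card ≠ 0 := by
      intro h4; rw [h4] at h1; exact absurd h1 (by decide)
    have h4 : (S ∩ T S).Nonempty := Finset.card_ne_zero.1 h3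
    exact h4.mono Finset.inter_subset_right
  have hinj : Set.InjOn T NN85 := fun S hS S' hS' h1 =>
    injT85 hu hc hT ((hmem S).1 hS) ((hmem S').1 hS') h1
  have himg : NN85.image T = NN85 := by
    apply Finset.eq_of_subset_of_card_le
    · intro X hX
      obtain ⟨S, hS, rfl⟩ := Finset.mem_image.1 hX
      exact hTN S hS
    · rw [Finset.card_image_of_injOn hinj]
  have hsum : ∀ g : Finset (Fin 3) → F, ∑ S ∈ NN85, g (T S) = ∑ S ∈ NN85, g S := by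
    intro g
    have h1 : ∑ S ∈ NN85.image T, g S = ∑ S ∈ NN85, g (T S) := Finset.sum_image hinj
    rw [himg] at h1
    exact h1.symm
  -- the elements
  have e0 : ∀ f : Fin 3 → F, ∑ i ∈ ({0} : Finset (Fin 3)), f i = f 0 := fun f => by simp
  have e1 : ∀ f : Fin 3 → F, ∑ i ∈ ({1} : Finset (Fin 3)), f i = f 1 := fun f => by simp
  have e2 : ∀ f : Fin 3 → F, ∑ i ∈ ({2} : Finset (Fin 3)), f i = f 2 := fun f => by simp
  have e01 : ∀ f : Fin 3 → F, ∑ i ∈ ({0, 1} : Finset (Fin 3)), f i = f 0 + f 1 :=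
    fun f => Finset.sum_pair (by decide)
  have e02 : ∀ f : Fin 3 → F, ∑ i ∈ ({0, 2} : Finset (Fin 3)), f i = f 0 + f 2 :=
    fun f => Finset.sum_pair (by decide)
  have e12 : ∀ f : Fin 3 → F, ∑ i ∈ ({1, 2} : Finset (Fin 3)), f i = f 1 + f 2 :=
    fun f => Finset.sum_pair (by decide)
  have e012 : ∀ f : Fin 3 → F, ∑ i ∈ ({0, 1, 2} : Finset (Fin 3)), f i = f 0 + f 1 + f 2 := by
    intro f
    rw [Finset.sum_insert (by decide), Finset.sum_pair (by decide)]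
    ring
  have hsc1 : ∑ S ∈ NN85, (∑ i ∈ S, c i) = 0 := by
    rw [sumNN85, e0, e1, e2, e01, e02, e12, e012]; exact sum1_85 _ _ _
  have hsc3 : ∑ S ∈ NN85, (∑ i ∈ S, c i) ^ 3 = 0 := by
    rw [sumNN85, e0, e1, e2, e01, e02, e12, e012]; exact sum3_85 _ _ _
  have hsc5 : ∑ S ∈ NN85, (∑ i ∈ S, c i) ^ 5 = 0 := by
    rw [sumNN85, e0, e1, e2, e01, e02, e12, e012]; exact sum5_85 _ _ _
  have hcw : ∀ S ∈ NN85, ∑ i ∈ T S, c i = (∑ i ∈ S, u i)⁻¹ ^ 3 := by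
    intro S hS
    obtain ⟨-, h1⟩ := hT S ((hmem S).1 hS)
    rw [inv_pow]
    exact eq_inv_of_mul_eq_one_left h1
  have hQ : ∀ j, ∑ S ∈ NN85, (∑ i ∈ S, u i)⁻¹ ^ (3 * j) = ∑ S ∈ NN85, (∑ i ∈ S, c i) ^ j := by
    intro j
    rw [← hsum fun S => (∑ i ∈ S, c i) ^ j]
    refine Finset.sum_congr rfl fun S hS => ?_
    rw [hcw S hS, ← pow_mul]
  -- the vector of the seven elements
  obtain ⟨w, hw⟩ : ∃ w : Fin 7 → F, w = ![u 0, u 1, u 2, u 0 + u 1, u 0 + u 2, u 1 + u 2,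
    u 0 + u 1 + u 2] := ⟨_, rfl⟩
  have hwsum : ∀ g : F → F, ∑ i, g (w i) = ∑ S ∈ NN85, g (∑ i ∈ S, u i) := by
    intro g
    rw [sumNN85, e0, e1, e2, e01, e02, e12, e012, hw]
    simp only [Fin.sum_univ_succ, Fin.sum_univ_zero, Matrix.cons_val_zero, Matrix.cons_val_succ]
    simp
    ring
  have n0 : u 0 ≠ 0 := by have := hu {0} (by simp); rwa [e0] at this
  have n1 : u 1 ≠ 0 := by have := hu {1} (by simp); rwa [e1] at this
  have n2 : u 2 ≠ 0 := by have := hu {2} (by simp); rwa [e2] at this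
  have n01 : u 0 + u 1 ≠ 0 := by have := hu {0, 1} (by simp); rwa [e01] at this
  have n02 : u 0 + u 2 ≠ 0 := by have := hu {0, 2} (by simp); rwa [e02] at this
  have n12 : u 1 + u 2 ≠ 0 := by have := hu {1, 2} (by simp); rwa [e12] at this
  have n012 : u 0 + u 1 + u 2 ≠ 0 := by have := hu {0, 1, 2} (by simp); rwa [e012] at this
  have hwne : ∀ i, w i ≠ 0 := by
    rw [hw]
    intro i
    fin_cases i
    · exact n0
    · exact n1
    · exact n2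
    · exact n01
    · exact n02
    · exact n12
    · exact n012
  obtain ⟨e7, he7⟩ : ∃ e7 : F, e7 = (u 2 ^ 4 + (u 0 ^ 2 + u 0 * u 1 + u 1 ^ 2) * u 2 ^ 2
    + u 0 * u 1 * (u 0 + u 1) * u 2) * (u 0 * u 1 * (u 0 + u 1)) := ⟨_, rfl⟩
  have h7 : e7 ≠ 0 := by rw [he7]; exact prod85 _ _ _ n0 n1 n2 n01 n02 n12 n012
  have key := power85 w hwne _ _ e7 h7 (fun i => roots85 (u 0) (u 1) (u 2) w hw _ _ _ _ _ e7
    rfl rfl rfl rfl rfl he7 i)
    (by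
      have := hwsum fun x => x
      rw [this, sumNN85, e0, e1, e2, e01, e02, e12, e012]; exact sum1_85 _ _ _)
    (by
      have := hwsum fun x => x ^ 3
      rw [this, sumNN85, e0, e1, e2, e01, e02, e12, e012]; exact sum3_85 _ _ _)
    (by
      have h3 := hwsum fun x => x⁻¹ ^ 3
      rw [h3]
      have h4 := hQ 1
      simp only [mul_one, pow_one] at h4
      rw [h4]; exact hsc1)
    (by
      have h3 := hwsum fun x => x⁻¹ ^ 9
      rw [h3]; exact (hQ 3).trans hsc3)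
    (by
      have h3 := hwsum fun x => x⁻¹ ^ 15
      rw [h3]; exact (hQ 5).trans hsc5)
  have keyS : ∀ S ∈ NN85, (∑ i ∈ S, u i) ^ 7 = e7 := by
    intro S hS
    rw [NN85_eq] at hS
    simp only [Finset.mem_insert, Finset.mem_singleton] at hS
    rcases hS with rfl | rfl | rfl | rfl | rfl | rfl | rfl
    · rw [e0]; have := key 0; rw [hw] at this; exact this
    · rw [e1]; have := key 1; rw [hw] at this; exact this
    · rw [e2]; have := key 2; rw [hw] at this; exact this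
    · rw [e01]; have := key 3; rw [hw] at this; exact this
    · rw [e02]; have := key 4; rw [hw] at this; exact this
    · rw [e12]; have := key 5; rw [hw] at this; exact this
    · rw [e012]; have := key 6; rw [hw] at this; exact this
  have hlin : ∀ S ∈ NN85, (∑ i ∈ T S, c i) * e7 = (∑ i ∈ S, u i) ^ 4 := by
    intro S hS
    obtain ⟨-, h1⟩ := hT S ((hmem S).1 hS)
    rw [← keyS S hS]
    linear_combination (∑ i ∈ S, u i) ^ 4 * h1
  have hadd : ∀ S ∈ NN85, ∀ S' ∈ NN85, symmDiff S S' ∈ NN85 →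
      T (symmDiff S S') = symmDiff (T S) (T S') := by
    intro S hS S' hS' hSS
    apply inj_lin85 hc
    apply mul_right_cancel₀ h7
    rw [hlin _ hSS, sum_symm85, sum_symm85, add_mul, hlin S hS, hlin S' hS']
    have h8 : ∀ x y : F, (x + y) ^ 4 = x ^ 4 + y ^ 4 := by
      intro x y
      linear_combination (2 * x ^ 3 * y + 3 * x ^ 2 * y ^ 2 + 2 * x * y ^ 3) * h2
    exact h8 _ _
  have t01 : T {0, 1} = symmDiff (T {0}) (T {1}) := by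
    have := hadd {0} (by decide) {1} (by decide) (by decide)
    rwa [show symmDiff ({0} : Finset (Fin 3)) {1} = {0, 1} by decide] at this
  have t02 : T {0, 2} = symmDiff (T {0}) (T {2}) := by
    have := hadd {0} (by decide) {2} (by decide) (by decide)
    rwa [show symmDiff ({0} : Finset (Fin 3)) {2} = {0, 2} by decide] at this
  have t12 : T {1, 2} = symmDiff (T {1}) (T {2}) := by
    have := hadd {1} (by decide) {2} (by decide) (by decide)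
    rwa [show symmDiff ({1} : Finset (Fin 3)) {2} = {1, 2} by decide] at this
  have t012 : T {0, 1, 2} = symmDiff (symmDiff (T {0}) (T {1})) (T {2}) := by
    have := hadd {0, 1} (by decide) {2} (by decide) (by decide)
    rwa [show symmDiff ({0, 1} : Finset (Fin 3)) {2} = {0, 1, 2} by decide, t01] at this
  have o01 := (hT {0, 1} (by simp)).1
  have o02 := (hT {0, 2} (by simp)).1
  have o12 := (hT {1, 2} (by simp)).1
  have o012 := (hT {0, 1, 2} (by simp)).1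
  rw [t01] at o01
  rw [t02] at o02
  rw [t12] at o12
  rw [t012] at o012
  exact dec85 _ _ _ (hT {0} (by simp)).1 (hT {1} (by simp)).1 (hT {2} (by simp)).1 o01 o02 o12 o012

/-- **CLASS** -/
theorem stClass : StClass := by
  intro F _ _ k u c hk hu hc h
  have hk' : k = 0 ∨ k = 1 ∨ k = 2 ∨ k = 3 := by omega
  rcases hk' with rfl | rfl | rfl | rfl
  · exact Or.inl rfl
  · right; left
    refine ⟨rfl, fun i => ?_⟩
    obtain ⟨T, h1, h2⟩ := h {i} (by simp)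
    have h3 : T = {i} := by
      have h4 : ∀ (i : Fin 1) (T : Finset (Fin 1)), Odd (({i} : Finset (Fin 1)) ∩ T).card →
        T = {i} := by decide
      exact h4 i T h1
    rw [h3, Finset.sum_singleton, Finset.sum_singleton] at h2
    exact h2
  · right; right
    refine ⟨rfl, ?_⟩
    choose! T hT using h
    have e0 : ∀ f : Fin 2 → F, ∑ i ∈ ({0} : Finset (Fin 2)), f i = f 0 := fun f => by simp
    have e1 : ∀ f : Fin 2 → F, ∑ i ∈ ({1} : Finset (Fin 2)), f i = f 1 := fun f => by simp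
    have e01 : ∀ f : Fin 2 → F, ∑ i ∈ ({0, 1} : Finset (Fin 2)), f i = f 0 + f 1 :=
      fun f => Finset.sum_pair (by decide)
    obtain ⟨a1, a2⟩ := hT {0} (by simp)
    obtain ⟨b1, b2⟩ := hT {1} (by simp)
    obtain ⟨c1, c2⟩ := hT {0, 1} (by simp)
    have n1 : T {0} ≠ T {1} := fun h3 => by
      have := injT85 hu hc hT (by simp) (by simp) h3
      exact absurd this (by decide)
    have n2 : T {0} ≠ T {0, 1} := fun h3 => by
      have := injT85 hu hc hT (by simp) (by simp) h3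
      exact absurd this (by decide)
    have n3 : T {1} ≠ T {0, 1} := fun h3 => by
      have := injT85 hu hc hT (by simp) (by simp) h3
      exact absurd this (by decide)
    rcases dec2_85 _ _ _ a1 b1 c1 n1 n2 n3 with ⟨h1, h3, h4⟩ | ⟨h1, h3, h4⟩
    · rw [h1, e0, e0] at a2
      rw [h3, e01, e1] at b2
      rw [h4, e1, e01] at c2
      exact ⟨0, 1, by decide, a2, c2, b2⟩
    · rw [h1, e01, e0] at a2
      rw [h3, e1, e1] at b2
      rw [h4, e0, e01] at c2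
      refine ⟨1, 0, by decide, b2, ?_, ?_⟩
      · rw [add_comm (u 1) (u 0)]; exact c2
      · rw [add_comm (c 1) (c 0)]; exact a2
  · exact (three85 u c hu hc h).elim

end Pool.Agent.Lib.MP_eacabd_co.Clo8
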