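import Mathlib
import Pool.Agent.Lib.MP_eacabd_co.Clo8.StmtsC

/-!
The switching class of the cube: the factors `1 + tr (A * z ^ 3) + tr (B * z ^ (-3))` as sums of
characters, and products of such sums.
-/

set_option autoImplicit false

namespace Pool.Agent.Lib.MP_eacabd_co.Clo8

open Finset Pool.Agent.Lib.MP_eacabd_co Pool.Agent.Lib.MP_eacabd_co.Gold8

section Fac

variable {F : Type} [Field F] [Fintype F] [DecidableEq F] [CharP F 2]

/-- index set of a factor -/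
def Ix (n : ℕ) (S : Finset ℤ) : Finset (ℤ × ℕ) := insert (0, 0) (S ×ˢ range n)

/-- exponents of a factor -/
def ez (n : ℕ) (x : ℤ × ℕ) : Gold8.R n := (x.1 : Gold8.R n) * pw ((x.2 : ℕ) : ZMod n)

/-- coefficients of a factor, with constant term `k` -/
def cz (k A B : F) (x : ℤ × ℕ) : F :=
  if x.1 = 0 then k else if x.1 = 3 then A ^ (2 ^ x.2) else B ^ (2 ^ x.2)

theorem mem_Ix {n : ℕ} {S : Finset ℤ} {d : ℤ} {s : ℕ} :
    (d, s) ∈ Ix n S ↔ (d = 0 ∧ s = 0) ∨ (d ∈ S ∧ s < n) := by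
  unfold Ix
  rw [mem_insert, mem_product, mem_range, Prod.mk.injEq]

omit [CharP F 2] in
theorem ex_pos {n : ℕ} [NeZero n] (hF : Fintype.card F = 2 ^ n) (s : ℕ) (z : Fˣ) :
    (ex (ez n (3, s)) z : F) = ((z : F) ^ 3) ^ (2 ^ s) := by
  unfold ez
  simp only
  rw [pw_natCast]
  have h1 := ex_nat hF (3 * 2 ^ s) z
  rw [pow_mul] at h1
  rw [← h1]
  congr 1
  push_cast
  ring

omit [CharP F 2] in
theorem ex_neg3 {n : ℕ} [NeZero n] (hF : Fintype.card F = 2 ^ n) (s : ℕ) (z : Fˣ) :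
    (ex (ez n (-3, s)) z : F) = (((z : F) ^ 3)⁻¹) ^ (2 ^ s) := by
  have h1 : ez n (-3, s) = - ez n (3, s) := by
    unfold ez
    push_cast
    ring
  rw [h1, ex_neg hF, ex_pos hF, inv_pow]

omit [CharP F 2] in
theorem ex_z {n : ℕ} (hF : Fintype.card F = 2 ^ n) (s : ℕ) (z : Fˣ) :
    (ex (ez n (0, s)) z : F) = 1 := by
  have h1 : ez n (0, s) = 0 := by
    unfold ez
    push_cast
    ring
  rw [h1, ex_zero hF]

omit [CharP F 2] in
theorem fac_pm {n : ℕ} [NeZero n] (hF : Fintype.card F = 2 ^ n) (k A B : F) (z : Fˣ) :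
    ∑ x ∈ Ix n {3, -3}, cz k A B x * ex (ez n x) z
      = k + (tr n (A * (z : F) ^ 3) + tr n (B * ((z : F) ^ 3)⁻¹)) := by
  unfold Ix
  rw [sum_insert, sum_product, sum_pair (by norm_num)]
  · congr 1
    · rw [ex_z hF]
      simp [cz]
    · unfold tr
      congr 1
      · refine sum_congr rfl fun s _ => ?_
        rw [ex_pos hF, mul_pow]
        simp [cz]
      · refine sum_congr rfl fun s _ => ?_
        rw [ex_neg3 hF, mul_pow]
        simp [cz]
  · rw [mem_product]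
    simp

omit [CharP F 2] in
theorem fac_m {n : ℕ} [NeZero n] (hF : Fintype.card F = 2 ^ n) (k B : F) (z : Fˣ) :
    ∑ x ∈ Ix n {-3}, cz k 0 B x * ex (ez n x) z = k + tr n (B * ((z : F) ^ 3)⁻¹) := by
  unfold Ix
  rw [sum_insert, sum_product, sum_singleton]
  · congr 1
    · rw [ex_z hF]
      simp [cz]
    · unfold tr
      refine sum_congr rfl fun s _ => ?_
      rw [ex_neg3 hF, mul_pow]
      simp [cz]
  · rw [mem_product]
    simp

omit [CharP F 2] in
theorem ex_prod {n : ℕ} (hF : Fintype.card F = 2 ^ n) {ι κ : Type} (S : Finset ι) (T : Finset κ)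
    (c : ι → F) (d : κ → F) (e : ι → Gold8.R n) (f : κ → Gold8.R n) (z : Fˣ) :
    (∑ x ∈ S, c x * ex (e x) z) * (∑ y ∈ T, d y * ex (f y) z)
      = ∑ p ∈ S ×ˢ T, (c p.1 * d p.2) * ex (e p.1 + f p.2) z := by
  rw [sum_product, sum_mul_sum]
  refine sum_congr rfl fun x _ => sum_congr rfl fun y _ => ?_
  simp only
  rw [ex_add hF]
  ring

theorem coef_all_zero {n : ℕ} (hF : Fintype.card F = 2 ^ n) {ι : Type} (S : Finset ι) (c : ι → F)
    (e : ι → Gold8.R n) (h : ∀ z : Fˣ, ∑ x ∈ S, c x * ex (e x) z = 0) (E : Gold8.R n) :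
    ∑ x ∈ S, (if e x = E then c x else 0) = 0 := by
  rw [← cfe_sum hF]
  unfold cfe
  refine sum_eq_zero fun z _ => ?_
  simp only
  rw [h z, zero_mul]

end Fac

end Pool.Agent.Lib.MP_eacabd_co.Clo8
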