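import Mathlib
import Pool.Agent.Lib.MP_eacabd_co.Clo8.FacC

/-!
The switching class of the cube: a plane with three prescribed traces.
-/

set_option autoImplicit false

namespace Pool.Agent.Lib.MP_eacabd_co.Clo8

open Finset Pool.Agent.Lib.MP_eacabd_co Pool.Agent.Lib.MP_eacabd_co.Gold8

namespace Exi

theorem cast_inj {n s m : ℕ} (hs : s < n) (hm : m < n) (h : (s : ZMod n) = (m : ZMod n)) :
    s = m := by
  have h1 := (ZMod.natCast_eq_natCast_iff' s m n).1 h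
  rwa [Nat.mod_eq_of_lt hs, Nat.mod_eq_of_lt hm] at h1

section Idx

variable {F : Type} [Field F] [Fintype F] [DecidableEq F] [CharP F 2]

/-- quadruples of indices -/
abbrev Q4 : Type := (((ℤ × ℕ) × (ℤ × ℕ)) × (ℤ × ℕ)) × (ℤ × ℕ)

/-- the index set -/
def SS (n : ℕ) : Finset Q4 := ((Ix n {-3} ×ˢ Ix n {3, -3}) ×ˢ Ix n {3, -3}) ×ˢ Ix n {3, -3}

/-- the exponents -/
def eS (n : ℕ) (p : Q4) : Gold8.R n :=
  ((ez n p.1.1.1 + ez n p.1.1.2) + ez n p.1.2) + ez n p.2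

/-- the coefficients -/
def cS (v k₁ A₁ B₁ k₂ A₂ B₂ k₃ A₃ B₃ : F) (p : Q4) : F :=
  ((cz 1 0 v p.1.1.1 * cz k₁ A₁ B₁ p.1.1.2) * cz k₂ A₂ B₂ p.1.2) * cz k₃ A₃ B₃ p.2

/-- the wanted quadruples -/
def Us (n a b c : ℕ) : Q4 := ((((-3, n - 1), (3, a)), (3, b)), (3, c))

omit [Fintype F] [DecidableEq F] [CharP F 2] in
theorem cS_Us (n : ℕ) (v k₁ A₁ B₁ k₂ A₂ B₂ k₃ A₃ B₃ : F) (a b c : ℕ) :
    cS v k₁ A₁ B₁ k₂ A₂ B₂ k₃ A₃ B₃ (Us n a b c)
      = v ^ (2 ^ (n - 1)) * (A₁ ^ (2 ^ a) * A₂ ^ (2 ^ b) * A₃ ^ (2 ^ c)) := by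
  simp only [cS, Us, cz]
  norm_num
  ring

/-- the exponent which isolates the coefficient -/
def EE (n a b c : ℕ) : Gold8.R n :=
  3 * pw ((a : ℕ) : ZMod n) + 3 * pw ((b : ℕ) : ZMod n) + 3 * pw ((c : ℕ) : ZMod n)
    - 3 * pw (-1 : ZMod n)

theorem cast_pred {n : ℕ} (hn : 1 ≤ n) : ((n - 1 : ℕ) : ZMod n) = -1 := by
  rw [Nat.cast_sub hn, ZMod.natCast_self, Nat.cast_one, zero_sub]

theorem eS_Us {n : ℕ} (hn : 1 ≤ n) (a b c : ℕ) : eS n (Us n a b c) = EE n a b c := by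
  simp only [eS, Us, ez, EE]
  rw [cast_pred hn]
  push_cast
  ring

theorem Us_mem {n a b c : ℕ} (hn : 1 ≤ n) (ha : a < n) (hb : b < n) (hc : c < n) :
    Us n a b c ∈ SS n := by
  simp only [SS, Us, mem_product, mem_Ix]
  refine ⟨⟨⟨Or.inr ⟨by simp, by omega⟩, Or.inr ⟨by simp, ha⟩⟩, Or.inr ⟨by simp, hb⟩⟩,
    Or.inr ⟨by simp, hc⟩⟩

/-- the six quadruples -/
def six (n a b c : ℕ) : Finset Q4 :=
  {Us n a b c, Us n a c b, Us n b a c, Us n b c a, Us n c a b, Us n c b a}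

theorem mem_six {n a b c : ℕ} (hn : 610 ≤ n) (P : StPerm) (ha : a = 100)
    (hb : b = 200 ∨ b = 201) (hc : c = 300 ∨ c = 301 ∨ c = 302) {p : Q4} (hp : p ∈ SS n)
    (he : eS n p = EE n a b c) : p ∈ six n a b c := by
  have hNe : NeZero n := ⟨by omega⟩
  obtain ⟨⟨⟨⟨d0, s0⟩, ⟨d1, s1⟩⟩, ⟨d2, s2⟩⟩, ⟨d3, s3⟩⟩ := p
  simp only [SS, mem_product, mem_Ix, mem_singleton, mem_insert] at hp
  obtain ⟨⟨⟨h0, h1⟩, h2⟩, h3⟩ := hp
  simp only [eS, ez, EE] at he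
  have npos : 0 < n := Nat.pos_of_ne_zero hNe.ne
  have k0 : d0 = 0 ∨ d0 = -3 := h0.imp And.left And.left
  have k1 : d1 = 0 ∨ d1 = 3 ∨ d1 = -3 := h1.imp And.left And.left
  have k2 : d2 = 0 ∨ d2 = 3 ∨ d2 = -3 := h2.imp And.left And.left
  have k3 : d3 = 0 ∨ d3 = 3 ∨ d3 = -3 := h3.imp And.left And.left
  have l0 : s0 < n := h0.elim (fun h => h.2 ▸ npos) And.right
  have l1 : s1 < n := h1.elim (fun h => h.2 ▸ npos) And.right
  have l2 : s2 < n := h2.elim (fun h => h.2 ▸ npos) And.right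
  have l3 : s3 < n := h3.elim (fun h => h.2 ▸ npos) And.right
  clear h0 h1 h2 h3
  obtain ⟨r0, r1, r2, r3, r4, r5⟩ := P n hn a b c ha hb hc d0 d1 d2 d3 (s0 : ZMod n) (s1 : ZMod n)
    (s2 : ZMod n) (s3 : ZMod n) k0 k1 k2 k3 he.symm
  clear he
  have hs0 : s0 = n - 1 := by
    apply cast_inj l0 (by omega)
    rw [r1, cast_pred (by omega)]
  subst r0 r2 r3 r4 hs0
  have la : a < n := by omega
  have lb : b < n := by omega
  have lc : c < n := by omega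
  simp only [six, mem_insert, mem_singleton, Us, Prod.mk.injEq, true_and]
  rcases r5 with ⟨x, y, z⟩ | ⟨x, y, z⟩ | ⟨x, y, z⟩ | ⟨x, y, z⟩ | ⟨x, y, z⟩ | ⟨x, y, z⟩
  · rw [cast_inj l1 la x, cast_inj l2 lb y, cast_inj l3 lc z]
    simp
  · rw [cast_inj l1 la x, cast_inj l2 lc y, cast_inj l3 lb z]
    simp
  · rw [cast_inj l1 lb x, cast_inj l2 la y, cast_inj l3 lc z]
    simp
  · rw [cast_inj l1 lb x, cast_inj l2 lc y, cast_inj l3 la z]
    simp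
  · rw [cast_inj l1 lc x, cast_inj l2 la y, cast_inj l3 lb z]
    simp
  · rw [cast_inj l1 lc x, cast_inj l2 lb y, cast_inj l3 la z]
    simp

theorem six_mem {n a b c : ℕ} (hn : 1 ≤ n) (ha : a < n) (hb : b < n) (hc : c < n) {p : Q4}
    (hp : p ∈ six n a b c) : p ∈ SS n ∧ eS n p = EE n a b c := by
  simp only [six, mem_insert, mem_singleton] at hp
  rcases hp with h | h | h | h | h | h <;> subst h
  · exact ⟨Us_mem hn ha hb hc, eS_Us hn _ _ _⟩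
  · exact ⟨Us_mem hn ha hc hb, by rw [eS_Us hn]; unfold EE; ring⟩
  · exact ⟨Us_mem hn hb ha hc, by rw [eS_Us hn]; unfold EE; ring⟩
  · exact ⟨Us_mem hn hb hc ha, by rw [eS_Us hn]; unfold EE; ring⟩
  · exact ⟨Us_mem hn hc ha hb, by rw [eS_Us hn]; unfold EE; ring⟩
  · exact ⟨Us_mem hn hc hb ha, by rw [eS_Us hn]; unfold EE; ring⟩

omit [Fintype F] [DecidableEq F] [CharP F 2] in
theorem sum_six {n a b c : ℕ} (hab : a ≠ b) (hac : a ≠ c) (hbc : b ≠ c) (f : Q4 → F) :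
    ∑ p ∈ six n a b c, f p = f (Us n a b c) + f (Us n a c b) + f (Us n b a c) + f (Us n b c a)
      + f (Us n c a b) + f (Us n c b a) := by
  unfold six
  rw [sum_insert, sum_insert, sum_insert, sum_insert, sum_insert, sum_singleton]
  · ring
  · simp [Us, hab, hac, hbc, hab.symm, hac.symm, hbc.symm]
  · simp [Us, hab, hac, hbc, hab.symm, hac.symm, hbc.symm]
  · simp [Us, hab, hac, hbc, hab.symm, hac.symm, hbc.symm]
  · simp [Us, hab, hac, hbc, hab.symm, hac.symm, hbc.symm]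
  · simp [Us, hab, hac, hbc, hab.symm, hac.symm, hbc.symm]

end Idx

section Main

variable {F : Type} [Field F] [Fintype F] [DecidableEq F] [CharP F 2]

omit [Fintype F] [DecidableEq F] in
/-- one factor vanishes when the condition fails -/
theorem fac_zero {q t : F} (hq : q = 0 ∨ q = 1) (ht : t = 0 ∨ t = 1) (h : t ≠ q) :
    1 + q + t = 0 := by
  have h2 : (1 : F) + 1 = 0 := CharTwo.add_self_eq_zero 1
  rcases hq with hq | hq <;> rcases ht with ht | ht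
  · exact absurd (ht.trans hq.symm) h
  · rw [hq, ht, add_zero, h2]
  · rw [hq, ht, add_zero, h2]
  · exact absurd (ht.trans hq.symm) h

end Main

end Exi

open Exi in
theorem stExist (P : StPerm) (M : StMoore3) (T : StTrR) : StExist := by
  intro n hn F _ _ _ _ hF v c₁ c₂ c₃ hv hI q₁ q₂ q₃ hq₁ hq₂ hq₃
  by_contra hcon
  have hNe : NeZero n := ⟨by omega⟩
  obtain ⟨T1, T2, T3⟩ := T n (by omega) F hF v hv
  obtain ⟨⟨i1, i2, i3, i4, i5, i6⟩, i7, i8, i9, i10, i11, i12, i13, i14⟩ := hI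
  have nz : ∀ e : F, e ≠ 0 → e * v ^ 3 ≠ 1 → Ae n v e ≠ 0 := by
    intro e h1 h2 h3
    rcases (T2 e).1 h3 with h4 | h4
    · exact h1 h4
    · exact h2 h4
  have two : ∀ x : F, x + x = 0 := fun x => CharTwo.add_self_eq_zero x
  obtain ⟨t', r', ht', hr', hM⟩ := M F (Ae n v c₁) (Ae n v c₂) (Ae n v c₃) (nz _ i1 i4)
    (nz _ i2 i5) (nz _ i7 i11)
    (fun h => nz _ i3 i6 (by rw [T3, h, two])) (fun h => nz _ i8 i12 (by rw [T3, h, two]))
    (fun h => nz _ i9 i13 (by rw [T3, h, two]))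
    (fun h => nz _ i10 i14 (by rw [T3, T3, h, two])) 100 200 300
  -- the product vanishes at all units
  have hz : ∀ z : Fˣ, ∑ p ∈ SS n, cS v (1 + q₁) (Ae n v c₁) (c₁ * v ^ 4) (1 + q₂) (Ae n v c₂)
      (c₂ * v ^ 4) (1 + q₃) (Ae n v c₃) (c₃ * v ^ 4) p * ex (eS n p) z = 0 := by
    intro z
    have e1 := ex_prod hF (Ix n {-3}) (Ix n {3, -3}) (cz 1 0 v)
      (cz (1 + q₁) (Ae n v c₁) (c₁ * v ^ 4)) (ez n) (ez n) z
    have e2 := ex_prod hF (Ix n {-3} ×ˢ Ix n {3, -3}) (Ix n {3, -3})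
      (fun p => cz 1 0 v p.1 * cz (1 + q₁) (Ae n v c₁) (c₁ * v ^ 4) p.2)
      (cz (1 + q₂) (Ae n v c₂) (c₂ * v ^ 4)) (fun p => ez n p.1 + ez n p.2) (ez n) z
    have e3 := ex_prod hF ((Ix n {-3} ×ˢ Ix n {3, -3}) ×ˢ Ix n {3, -3}) (Ix n {3, -3})
      (fun p => (cz 1 0 v p.1.1 * cz (1 + q₁) (Ae n v c₁) (c₁ * v ^ 4) p.1.2)
        * cz (1 + q₂) (Ae n v c₂) (c₂ * v ^ 4) p.2)
      (cz (1 + q₃) (Ae n v c₃) (c₃ * v ^ 4)) (fun p => (ez n p.1.1 + ez n p.1.2) + ez n p.2)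
      (ez n) z
    have e4 : ∑ p ∈ SS n, cS v (1 + q₁) (Ae n v c₁) (c₁ * v ^ 4) (1 + q₂) (Ae n v c₂)
        (c₂ * v ^ 4) (1 + q₃) (Ae n v c₃) (c₃ * v ^ 4) p * ex (eS n p) z
        = (1 + tr n (v * ((z : F) ^ 3)⁻¹))
          * (1 + q₁ + (tr n (Ae n v c₁ * (z : F) ^ 3) + tr n (c₁ * v ^ 4 * ((z : F) ^ 3)⁻¹)))
          * (1 + q₂ + (tr n (Ae n v c₂ * (z : F) ^ 3) + tr n (c₂ * v ^ 4 * ((z : F) ^ 3)⁻¹)))
          * (1 + q₃ + (tr n (Ae n v c₃ * (z : F) ^ 3) + tr n (c₃ * v ^ 4 * ((z : F) ^ 3)⁻¹))) := by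
      rw [← fac_m hF 1 v z, ← fac_pm hF (1 + q₁) (Ae n v c₁) (c₁ * v ^ 4) z,
        ← fac_pm hF (1 + q₂) (Ae n v c₂) (c₂ * v ^ 4) z,
        ← fac_pm hF (1 + q₃) (Ae n v c₃) (c₃ * v ^ 4) z, e1, e2, e3]
      rfl
    rw [e4]
    have zo : ∀ w : F, tr n w = 0 ∨ tr n w = 1 := fun w => zero_or_one_of_sq (tr_sq hF w)
    rcases zo (v * ((z : F) ^ 3)⁻¹) with h0 | h0
    · have hz0 : (z : F) ≠ 0 := z.ne_zero
      obtain ⟨y, hy⟩ := exists_y (i := 1) (Nat.coprime_one_left n) hF h0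
      rw [pow_one] at hy
      have hy' : (z : F) * (z : F) ^ 2 * (y ^ 2 + y) = v := by
        rw [hy]
        have h3 : (z : F) ^ 3 ≠ 0 := pow_ne_zero _ hz0
        calc (z : F) * (z : F) ^ 2 * (v * ((z : F) ^ 3)⁻¹)
            = v * ((z : F) ^ 3 * ((z : F) ^ 3)⁻¹) := by ring
          _ = v := by rw [mul_inv_cancel₀ h3, mul_one]
      have g1 := T1 c₁ (z : F) y hz0 hy'
      have g2 := T1 c₂ (z : F) y hz0 hy'
      have g3 := T1 c₃ (z : F) y hz0 hy'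
      rw [← g1, ← g2, ← g3]
      by_cases j1 : tr n (c₁ * Rf (z : F) (z * y)) = q₁
      · by_cases j2 : tr n (c₂ * Rf (z : F) (z * y)) = q₂
        · by_cases j3 : tr n (c₃ * Rf (z : F) (z * y)) = q₃
          · exact absurd ⟨(z : F), y, hz0, hy', j1, j2, j3⟩ hcon
          · rw [fac_zero hq₃ (zo _) j3, mul_zero]
        · rw [fac_zero hq₂ (zo _) j2, mul_zero, zero_mul]
      · rw [fac_zero hq₁ (zo _) j1, mul_zero, zero_mul, zero_mul]
    · rw [h0, two, zero_mul, zero_mul, zero_mul]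
  have hsum := coef_all_zero hF (SS n) _ (eS n) hz (EE n 100 t' r')
  have lt' : t' < n := by omega
  have lr' : r' < n := by omega
  have la : 100 < n := by omega
  rw [← sum_subset (s₁ := six n 100 t' r') (fun p hp => (six_mem (by omega) la lt' lr' hp).1)
    (fun p hp hn6 => if_neg fun he => hn6 (mem_six hn P rfl ht' hr' hp he)),
    sum_congr rfl (fun p hp => if_pos (six_mem (by omega) la lt' lr' hp).2),
    sum_six (by omega) (by omega) (by omega), cS_Us, cS_Us, cS_Us, cS_Us, cS_Us, cS_Us] at hsum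
  apply hM
  have hv' : v ^ (2 ^ (n - 1)) ≠ 0 := pow_ne_zero _ hv
  refine (mul_eq_zero.1 (?_ : v ^ (2 ^ (n - 1)) * _ = 0)).resolve_left hv'
  rw [← hsum]
  ring

end Pool.Agent.Lib.MP_eacabd_co.Clo8
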