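import Mathlib
import Pool.Agent.Lib.MP_eacabd_co.Clo8.FacC

/-!
The switching class of the cube: (ELIM), the coefficients at distance different from 1 and 3.
-/

set_option autoImplicit false

namespace Pool.Agent.Lib.MP_eacabd_co.Clo8

open Finset Pool.Agent.Lib.MP_eacabd_co Pool.Agent.Lib.MP_eacabd_co.Gold8

section Elim

variable {F : Type} [Field F] [Fintype F] [DecidableEq F] [CharP F 2]

/-- exponents of the bilinear part -/
def e3 (n : ℕ) (x : ℕ × ℕ × ℕ) : Gold8.R n :=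
  pw ((x.1 : ℕ) : ZMod n) + pw ((x.2.1 : ℕ) : ZMod n) + ez n (-3, x.2.2)

omit [CharP F 2] in
theorem ex_pwn {n : ℕ} [NeZero n] (hF : Fintype.card F = 2 ^ n) (s : ℕ) (z : Fˣ) :
    (ex (pw ((s : ℕ) : ZMod n)) z : F) = (z : F) ^ (2 ^ s) := by
  rw [pw_natCast]
  have h1 := ex_nat hF (2 ^ s) z
  rw [← h1]
  congr 1
  push_cast
  ring

omit [CharP F 2] in
theorem phi_sum {n : ℕ} [NeZero n] (hF : Fintype.card F = 2 ^ n) (v : F) (C : ℕ → ℕ → F) (z : Fˣ) :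
    ∑ x ∈ Gold8.S1 n, (C x.1 x.2.1 * v ^ (2 ^ x.2.2)) * ex (e3 n x) z
      = ∑ j ∈ range n, ∑ k ∈ range n, if j < k then C j k * ((z : F) ^ (2 ^ j) * (z : F) ^ (2 ^ k) *
        ∑ t ∈ Ico j k, (v * ((z : F) ^ 3)⁻¹) ^ (2 ^ t)) else 0 := by
  have h1 := Gold8.sum_S1 n (fun j k t => C j k * v ^ (2 ^ t) * (ex (e3 n (j, k, t)) z : F))
  simp only [Prod.mk.eta] at h1
  rw [h1]
  refine sum_congr rfl fun j _ => sum_congr rfl fun k _ => ?_
  split_ifs with h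
  · rw [mul_sum, mul_sum]
    refine sum_congr rfl fun t _ => ?_
    unfold e3
    simp only
    rw [ex_add hF, ex_add hF, ex_pwn hF, ex_pwn hF, ex_neg3 hF, mul_pow]
    ring
  · rfl

theorem prod_zero {n : ℕ} [NeZero n] (hF : Fintype.card F = 2 ^ n) {v c₁ c₂ : F}
    (T : ∀ e a y : F, a ≠ 0 → a * a ^ 2 * (y ^ 2 + y) = v → tr n (e * Rf a (a * y)) =
      tr n (Ae n v e * a ^ 3) + tr n (e * v ^ 4 * (a ^ 3)⁻¹)) {C : ℕ → ℕ → F}
    (hV : VanS n v c₁ c₂ C) (z : Fˣ) :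
    (1 + tr n (v * ((z : F) ^ 3)⁻¹)) *
      (1 + (tr n (Ae n v c₁ * (z : F) ^ 3) + tr n (c₁ * v ^ 4 * ((z : F) ^ 3)⁻¹))) *
      (1 + (tr n (Ae n v c₂ * (z : F) ^ 3) + tr n (c₂ * v ^ 4 * ((z : F) ^ 3)⁻¹))) *
      (∑ j ∈ range n, ∑ k ∈ range n, if j < k then C j k * ((z : F) ^ (2 ^ j) * (z : F) ^ (2 ^ k) *
        ∑ t ∈ Ico j k, (v * ((z : F) ^ 3)⁻¹) ^ (2 ^ t)) else 0) = 0 := by
  have two : (2 : F) = 0 := CharTwo.two_eq_zero
  have h11 : (1 : F) + 1 = 0 := CharTwo.add_self_eq_zero 1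
  have hz : (z : F) ≠ 0 := z.ne_zero
  have hz3 : (z : F) ^ 3 ≠ 0 := pow_ne_zero _ hz
  rcases zero_or_one_of_sq (tr_sq hF (v * ((z : F) ^ 3)⁻¹)) with h0 | h0
  swap
  · rw [h0, h11]
    ring
  rcases zero_or_one_of_sq (tr_sq hF (Ae n v c₁ * (z : F) ^ 3 + c₁ * v ^ 4 * ((z : F) ^ 3)⁻¹))
    with h1 | h1
  swap
  · rw [tr_add] at h1
    rw [h1, h11]
    ring
  rcases zero_or_one_of_sq (tr_sq hF (Ae n v c₂ * (z : F) ^ 3 + c₂ * v ^ 4 * ((z : F) ^ 3)⁻¹))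
    with h2 | h2
  swap
  · rw [tr_add] at h2
    rw [h2, h11]
    ring
  rw [tr_add] at h1 h2
  obtain ⟨y, hy⟩ := exists_y (i := 1) (Nat.coprime_one_left n) hF h0
  rw [pow_one] at hy
  have ha : (z : F) * (z : F) ^ 2 * (y ^ 2 + y) = v := by
    rw [hy]
    field_simp
  have h3 := hV z y hz ha (by rw [T c₁ z y hz ha]; exact h1) (by rw [T c₂ z y hz ha]; exact h2)
  have h4 : (∑ j ∈ range n, ∑ k ∈ range n, if j < k then C j k * ((z : F) ^ (2 ^ j) *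
      (z : F) ^ (2 ^ k) * ∑ t ∈ Ico j k, (v * ((z : F) ^ 3)⁻¹) ^ (2 ^ t)) else 0) = 0 := by
    refine Eq.trans ?_ h3
    refine sum_congr rfl fun j _ => sum_congr rfl fun k _ => ?_
    split_ifs with h
    · have h5 := telescope (i := 1) (w := v * ((z : F) ^ 3)⁻¹) (by rw [pow_one]; exact hy) h.le
      simp only [one_mul] at h5
      rw [h5]
    · rfl
  rw [h4, mul_zero]

theorem stElim (U : StUniq) (M : StMoore2) (T : StTrR) : StElim := by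
  intro n hn F _ _ _ _ hF v c₁ c₂ hv hI C hV D hD2 hD3 hD
  have hn0 : NeZero n := ⟨by omega⟩
  obtain ⟨t1, t2, t3⟩ := T n (by omega) F hF v hv
  obtain ⟨i1, i2, i3, i4, i5, i6⟩ := hI
  have a1 : Ae n v c₁ ≠ 0 := fun h => by
    rcases (t2 c₁).1 h with h | h
    · exact i1 h
    · exact i4 h
  have a2 : Ae n v c₂ ≠ 0 := fun h => by
    rcases (t2 c₂).1 h with h | h
    · exact i2 h
    · exact i5 h
  have a12 : Ae n v c₁ ≠ Ae n v c₂ := fun h => by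
    have h1 : Ae n v (c₁ + c₂) = 0 := by rw [t3, h, CharTwo.add_self_eq_zero]
    rcases (t2 _).1 h1 with h | h
    · exact i3 h
    · exact i6 h
  obtain ⟨s₂, hs₂, hM⟩ := M F _ _ a1 a2 a12 (D + 143) (D + 143 + 43)
  obtain ⟨s₁, hs₁⟩ : ∃ s₁, s₁ = D + 143 := ⟨_, rfl⟩
  rw [← hs₁] at hs₂ hM
  have hs₂' : s₂ = s₁ + 43 ∨ s₂ = s₁ + 44 := by omega
  -- the identity as a character sum
  have key := coef_all_zero hF
    (((Ix n {-3} ×ˢ Ix n {3, -3}) ×ˢ Ix n {3, -3}) ×ˢ Gold8.S1 n)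
    (fun p => ((cz 1 0 v p.1.1.1 * cz 1 (Ae n v c₁) (c₁ * v ^ 4) p.1.1.2) *
      cz 1 (Ae n v c₂) (c₂ * v ^ 4) p.1.2) * (C p.2.1 p.2.2.1 * v ^ (2 ^ p.2.2.2)))
    (fun p => ((ez n p.1.1.1 + ez n p.1.1.2) + ez n p.1.2) + e3 n p.2)
    (by
      intro z
      have h1 := prod_zero hF t1 hV z
      rw [← phi_sum hF, ← fac_m hF 1 v z, ← fac_pm hF 1 (Ae n v c₁) (c₁ * v ^ 4) z,
        ← fac_pm hF 1 (Ae n v c₂) (c₂ * v ^ 4) z, ex_prod hF, ex_prod hF, ex_prod hF] at h1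
      exact h1)
    (pw (((D + 100 : ℕ) : ZMod n)) - pw (((101 : ℕ) : ZMod n)) - 3 * pw (-1 : ZMod n)
        + 3 * pw ((s₁ : ℕ) : ZMod n) + 3 * pw ((s₂ : ℕ) : ZMod n))
  have hlast : ((n - 1 : ℕ) : ZMod n) = -1 := by
    rw [Nat.cast_sub (by omega), ZMod.natCast_self, Nat.cast_one, zero_sub]
  have hinj : ∀ x y : ℕ, x < n → y < n → ((x : ℕ) : ZMod n) = (y : ZMod n) → x = y := by
    intro x y hx hy h
    rw [ZMod.natCast_eq_natCast_iff, Nat.ModEq, Nat.mod_eq_of_lt hx, Nat.mod_eq_of_lt hy] at h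
    exact h
  have h101 : pw ((101 : ℕ) : ZMod n) = 2 * pw ((100 : ℕ) : ZMod n) := by
    rw [pw_natCast, pw_natCast, pow_succ]
    ring
  set p0 : (((ℤ × ℕ) × (ℤ × ℕ)) × (ℤ × ℕ)) × (ℕ × ℕ × ℕ) :=
    ((((-3, n - 1), (3, s₁)), (3, s₂)), (100, D + 100, 100)) with hp0
  set q0 : (((ℤ × ℕ) × (ℤ × ℕ)) × (ℤ × ℕ)) × (ℕ × ℕ × ℕ) :=
    ((((-3, n - 1), (3, s₂)), (3, s₁)), (100, D + 100, 100)) with hq0
  have hne : p0 ≠ q0 := by
    intro h
    rw [hp0, hq0] at h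
    simp only [Prod.mk.injEq, true_and, and_true] at h
    omega
  have hsub : ({p0, q0} : Finset _) ⊆
      ((Ix n {-3} ×ˢ Ix n {3, -3}) ×ˢ Ix n {3, -3}) ×ˢ Gold8.S1 n := by
    intro p hp
    rw [mem_insert, mem_singleton] at hp
    rcases hp with rfl | rfl
    · rw [hp0]
      simp only [mem_product, mem_Ix, mem_S1]
      refine ⟨⟨⟨Or.inr ⟨by simp, by omega⟩, Or.inr ⟨by simp, by omega⟩⟩,
        Or.inr ⟨by simp, by omega⟩⟩, by omega, by omega, by omega⟩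
    · rw [hq0]
      simp only [mem_product, mem_Ix, mem_S1]
      refine ⟨⟨⟨Or.inr ⟨by simp, by omega⟩, Or.inr ⟨by simp, by omega⟩⟩,
        Or.inr ⟨by simp, by omega⟩⟩, by omega, by omega, by omega⟩
  rw [← sum_subset hsub, sum_pair hne] at key
  · rw [if_pos, if_pos] at key
    · rw [hp0, hq0] at key
      have z1 : ∀ (k A B : F) (s : ℕ), cz k A B (-3, s) = B ^ (2 ^ s) := by
        intro k A B s
        simp [cz]
      have z2 : ∀ (k A B : F) (s : ℕ), cz k A B (3, s) = A ^ (2 ^ s) := by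
        intro k A B s
        simp [cz]
      simp only [z1, z2] at key
      have h5 : v ^ (2 ^ (n - 1)) * v ^ (2 ^ 100) *
          (Ae n v c₁ ^ (2 ^ s₁) * Ae n v c₂ ^ (2 ^ s₂) + Ae n v c₁ ^ (2 ^ s₂) * Ae n v c₂ ^ (2 ^ s₁))
            * C 100 (D + 100) = 0 := by
        generalize (v ^ (2 ^ 100) : F) = v' at key ⊢
        linear_combination key
      exact (mul_eq_zero.1 h5).resolve_left (mul_ne_zero (mul_ne_zero (pow_ne_zero _ hv)
        (pow_ne_zero _ hv)) hM)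
    · rw [hq0]
      simp only [e3, ez]
      rw [hlast, h101]
      push_cast
      ring
    · rw [hp0]
      simp only [e3, ez]
      rw [hlast, h101]
      push_cast
      ring
  · intro p hp hpn
    rw [if_neg]
    intro he
    apply hpn
    obtain ⟨⟨⟨⟨d0, x0⟩, ⟨d1, x1⟩⟩, ⟨d2, x2⟩⟩, ⟨a, b, m⟩⟩ := p
    simp only [mem_product, mem_Ix, mem_S1, mem_insert, mem_singleton] at hp
    obtain ⟨⟨⟨g0, g1⟩, g2⟩, g3⟩ := hp
    obtain ⟨k0, k1, k2, k3, k4, k5, k6, k7⟩ := U n hn D s₁ s₂ hD2 hD3 hD hs₁ hs₂' d0 d1 d2 x0 x1 x2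
      a b m (by rcases g0 with h | h; exacts [Or.inl h.1, Or.inr h.1])
      (by rcases g1 with h | h; exacts [Or.inl h.1, Or.inr h.1])
      (by rcases g2 with h | h; exacts [Or.inl h.1, Or.inr h.1]) g3.2.1 g3.2.2 g3.1
      (by
        rw [← he]
        simp only [e3, ez]
        push_cast
        ring)
    have l0 : x0 = n - 1 := by
      refine hinj _ _ (by omega) (by omega) ?_
      rw [k1, hlast]
    rw [mem_insert, mem_singleton, hp0, hq0]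
    rcases k7 with ⟨l1, l2⟩ | ⟨l1, l2⟩
    · left
      have l1' : x1 = s₁ := hinj _ _ (by omega) (by omega) l1
      have l2' : x2 = s₂ := hinj _ _ (by omega) (by omega) l2
      rw [k0, l0, k2, k3, k4, k5, k6, l1', l2']
    · right
      have l1' : x1 = s₂ := hinj _ _ (by omega) (by omega) l1
      have l2' : x2 = s₁ := hinj _ _ (by omega) (by omega) l2
      rw [k0, l0, k2, k3, k4, k5, k6, l1', l2']

end Elim

end Pool.Agent.Lib.MP_eacabd_co.Clo8
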