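import Pool.Agent.Lib.MP_eacabd_co.Clo8.StmtsC
import Pool.Agent.Lib.MP_eacabd_co.Wide8.Bridge

/-!
The switching class of the cube function: the theorem, from its modules.
-/

set_option autoImplicit false

namespace Pool.Agent.Lib.MP_eacabd_co.Clo8

open Finset Pool.Agent.Lib.MP_eacabd_co Pool.Agent.Lib.MP_eacabd_co.Gold8

/-- EA-equivalence transports the APN property -/
theorem apn_ea94 {F : Type} [Field F] [Finite F] [CharP F 2] {G H : F → F} (h : EA G H)
    (hG : IsAPN G) : IsAPN H :=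
  Wide8.BrAux.apn_of_sid (Wide8.BrAux.sid_ccz (Wide8.BrAux.ccz_symm (Wide8.BrAux.ccz_of_ea h))
    (Wide8.BrAux.sid_of_apn hG))

section

variable {F : Type} [Field F]

theorem Fk_zero94 (n : ℕ) (u c : Fin 0 → F) : Fk n u c = fun x => x ^ 3 := by
  funext x
  simp [Fk]

theorem Fk_one94 (n : ℕ) (u c : Fin 1 → F) (x : F) :
    Fk n u c x = x ^ 3 + u 0 * tr n (c 0 * x ^ 9) := by
  rw [Fk, Fin.sum_univ_one]

theorem Fk_two94 (n : ℕ) (u c : Fin 2 → F) (x : F) :
    Fk n u c x = x ^ 3 + u 0 * tr n (c 0 * x ^ 9) + u 1 * tr n (c 1 * x ^ 9) := by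
  rw [Fk, Fin.sum_univ_two, add_assoc]

theorem Fk_zz94 (n : ℕ) : Fk n ![(0 : F), 0] ![(0 : F), 0] = fun x => x ^ 3 := by
  funext x
  rw [Fk_two94]
  simp

/-- the solutions of the condition with at most three terms are the known functions -/
theorem known_of_cnd94 (hCl : StClass) (hFam : StFam) {n : ℕ} (hn : 1 ≤ n) [Fintype F]
    [CharP F 2] (hF : Fintype.card F = 2 ^ n) {k : ℕ} (hk : k ≤ 3) (u c : Fin k → F)
    (hu : Lin u) (hc : Lin c) (h : Cnd u c) : Known n (Fk n u c) := by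
  rcases hCl F k u c hk hu hc h with h0 | ⟨h0, h1⟩ | ⟨h0, i, j, hij, h1, h2, h3⟩
  · subst h0
    exact Or.inl (Fk_zero94 n u c)
  · subst h0
    have h2 := h1 0
    have hu0 : u 0 ≠ 0 := by
      intro h3
      rw [h3] at h2
      simp at h2
    refine Or.inr (Or.inl ⟨(u 0)⁻¹, inv_ne_zero hu0, ?_⟩)
    funext x
    rw [Fk_one94, inv_inv, inv_pow, ← eq_inv_of_mul_eq_one_left h2]
  · subst h0
    have h4 := (hFam n hn F hF).1 (u i) (u j) (c i) (c j) h1 h2 h3
    have h5 : Fk n u c = Fk n ![u i, u j] ![c i, c j] := by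
      funext x
      rw [Fk_two94, Fk_two94]
      simp only [Matrix.cons_val_zero, Matrix.cons_val_one]
      fin_cases i <;> fin_cases j
      · exact absurd rfl hij
      · rfl
      · show x ^ 3 + u 0 * tr n (c 0 * x ^ 9) + u 1 * tr n (c 1 * x ^ 9) =
          x ^ 3 + u 1 * tr n (c 1 * x ^ 9) + u 0 * tr n (c 0 * x ^ 9)
        ring
      · exact absurd rfl hij
    rw [h5]
    exact h4

/-- the condition for one function -/
theorem cnd_one94 {u c : F} (h : c * u ^ 3 = 1) : Cnd ![u] ![c] := by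
  intro S hS
  have hS1 : S = {0} := by
    obtain ⟨i, hi⟩ := hS
    have : i = 0 := Subsingleton.elim _ _
    subst this
    ext j
    have : j = 0 := Subsingleton.elim _ _
    subst this
    simp [hi]
  subst hS1
  refine ⟨{0}, by simp, ?_⟩
  simpa using h

/-- the condition for two functions -/
theorem cnd_two94 {u₁ u₂ c₁ c₂ : F} (h1 : c₁ * u₁ ^ 3 = 1) (h2 : c₂ * (u₁ + u₂) ^ 3 = 1)
    (h3 : (c₁ + c₂) * u₂ ^ 3 = 1) : Cnd ![u₁, u₂] ![c₁, c₂] := by
  intro S hS
  have hcase : S = {0} ∨ S = {1} ∨ S = {0, 1} := by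
    revert S
    decide
  rcases hcase with rfl | rfl | rfl
  · refine ⟨{0}, by decide, ?_⟩
    simpa using h1
  · refine ⟨{0, 1}, by decide, ?_⟩
    rw [sum_pair (by decide), sum_singleton]
    simpa using h3
  · refine ⟨{1}, by decide, ?_⟩
    rw [sum_pair (by decide), sum_singleton]
    simpa using h2

/-- the known functions are obtained from the cube function by at most two changes -/
theorem chain94 (hSuf : StSuf) (hFam : StFam) {n : ℕ} (hn : 1 ≤ n) [Fintype F] [CharP F 2]
    (hF : Fintype.card F = 2 ^ n) {H : F → F} (hH : Known n H) :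
    Relation.ReflTransGen Step (fun x : F => x ^ 3) H := by
  classical
  obtain ⟨u₁, u₂, c₁, c₂, h1, h2, h3, rfl⟩ := (hFam n hn F hF).2 H hH
  have htr : ∀ z : F, tr n z = 0 ∨ tr n z = 1 := fun z => zero_or_one_of_sq (tr_sq hF z)
  -- the first change
  have s1 : Relation.ReflTransGen Step (fun x : F => x ^ 3) (Fk n ![u₁] ![c₁]) := by
    rcases h2 with h2 | h2
    · have e : Fk n ![u₁] ![c₁] = fun x => x ^ 3 := by
        funext x
        rw [Fk_one94]
        simp [h2]
      rw [e]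
    · refine Relation.ReflTransGen.single (Or.inr ⟨hSuf n hn F hF 1 _ _ (cnd_one94 h2), u₁,
        fun x => tr n (c₁ * x ^ 9), fun x => htr _, fun x => ?_⟩)
      rw [Fk_one94]
      rfl
  have e2 : ∀ x, Fk n ![u₁, u₂] ![c₁, c₂] x = Fk n ![u₁] ![c₁] x + u₂ * tr n (c₂ * x ^ 9) := by
    intro x
    rw [Fk_two94, Fk_one94]
    rfl
  -- the second change
  have key : Fk n ![u₁, u₂] ![c₁, c₂] = Fk n ![u₁] ![c₁] ∨
      Cnd ![u₁, u₂] ![c₁, c₂] := by
    rcases h1 with h1 | h1 | ⟨h1, h4, h5⟩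
    · left
      funext x
      rw [e2, h1, zero_mul, add_zero]
    · left
      funext x
      rw [e2, h1, zero_mul]
      have : tr n (0 : F) = 0 := (tau F n).map_zero
      rw [this, mul_zero, add_zero]
    · right
      exact cnd_two94 h1 h4 h5
  rcases key with key | key
  · rw [key]
    exact s1
  · exact s1.tail (Or.inr ⟨hSuf n hn F hF 2 _ _ key, u₂, fun x => tr n (c₂ * x ^ 9),
      fun x => htr _, e2⟩)

end

/-- **The switching class of the cube function**, from the modules -/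
theorem stFinal (hS : StStep) (hCh : StChar) (hSuf : StSuf) (hR : StRed) (hCl : StClass)
    (hFam : StFam) : StFinal := by
  intro n hn F _ _ hF G
  have hchar : CharP F 2 := charP_of_card_eq_prime_pow (p := 2) (f := n) (by simpa using hF)
  have hn1 : 1 ≤ n := by omega
  constructor
  · intro hG
    induction hG with
    | refl => exact ⟨_, Or.inl rfl, EA.refl _⟩
    | tail _ h1 ih =>
      obtain ⟨H, hH, hEA⟩ := ih
      rcases h1 with h1 | ⟨hA, s, f, hf, hG⟩
      · exact ⟨H, hH, EA.trans h1 hEA⟩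
      · obtain ⟨u₁, u₂, c₁, c₂, -, -, -, rfl⟩ := (hFam n hn1 F hF).2 H hH
        obtain ⟨u', c', h2⟩ := hS n hn F hF _ _ s _ f _ hEA hf hG hA
        obtain ⟨k, u, c, hk, hu, hc, h3⟩ := hR F n 3 u' c'
        rw [h3] at h2
        have h4 := hCh n hn F hF k u c hk hu hc (apn_ea94 h2 hA)
        exact ⟨_, known_of_cnd94 hCl hFam hn1 hF hk u c hu hc h4, h2⟩
  · rintro ⟨H, hH, hEA⟩
    exact (chain94 hSuf hFam hn1 hF hH).tail (Or.inl hEA)

end Pool.Agent.Lib.MP_eacabd_co.Clo8
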