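import Mathlib
import Pool.Agent.Lib.MP_eacabd_co.Clo8.StmtsC

/-!
The switching class of the cube: (FAM), the functions with two trace terms and the functions of
Budaghyan, Carlet and Leander.
-/

set_option autoImplicit false

namespace Pool.Agent.Lib.MP_eacabd_co.Clo8

open Finset Pool.Agent.Lib.MP_eacabd_co Pool.Agent.Lib.MP_eacabd_co.Gold8

section Fam

variable {F : Type} [Field F] [Fintype F] [DecidableEq F] [CharP F 2]

omit [Fintype F] [DecidableEq F] [CharP F 2] in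
theorem sum_three (m : ℕ) (f : ℕ → F) : ∑ i ∈ range (3 * m), f i
    = ∑ s ∈ range m, (f (3 * s) + f (3 * s + 1) + f (3 * s + 2)) := by
  induction m with
  | zero => simp
  | succ m ih =>
    rw [sum_range_succ, ← ih, show 3 * (m + 1) = 3 * m + 1 + 1 + 1 by ring, sum_range_succ,
      sum_range_succ, sum_range_succ]
    ring

omit [Fintype F] [DecidableEq F] [CharP F 2] in
theorem pow8 {w : F} (hw : w ^ 8 = w) (s : ℕ) : w ^ (8 ^ s) = w := by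
  induction s with
  | zero => rw [pow_zero, pow_one]
  | succ s ih => rw [pow_succ, pow_mul, ih, hw]

omit [Fintype F] [DecidableEq F] [CharP F 2] in
theorem Tr3_mul (n : ℕ) {w : F} (hw : w ^ 8 = w) (z : F) : Tr3 n (w * z) = w * Tr3 n z := by
  unfold Tr3
  rw [mul_sum]
  refine sum_congr rfl fun s _ => ?_
  rw [mul_pow, pow8 hw]

theorem eight_two (s : ℕ) : (8 : ℕ) ^ s = 2 ^ (3 * s) := by
  rw [pow_mul]
  norm_num

omit [Fintype F] [DecidableEq F] in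
theorem Tr3_add (n : ℕ) (x y : F) : Tr3 n (x + y) = Tr3 n x + Tr3 n y := by
  unfold Tr3
  rw [← sum_add_distrib]
  refine sum_congr rfl fun s _ => ?_
  rw [eight_two, add_pow_char_pow]

omit [Fintype F] [DecidableEq F] in
theorem Tr3_sq (n : ℕ) (x : F) : Tr3 n (x ^ 2) = Tr3 n x ^ 2 := by
  unfold Tr3
  rw [sum_pow_char]
  refine sum_congr rfl fun s _ => ?_
  rw [← pow_mul, ← pow_mul, mul_comm]

omit [Fintype F] [DecidableEq F] in
theorem tr_three {n m : ℕ} (hn : n = 3 * m) {w : F} (hw : w ^ 8 = w) (z : F) :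
    tr n (w * z) = w * Tr3 n z + w ^ 2 * Tr3 n z ^ 2 + w ^ 4 * Tr3 n z ^ 4 := by
  subst hn
  have e0 : ∀ s, (w * z) ^ (2 ^ (3 * s)) = w * z ^ (8 ^ s) := by
    intro s
    rw [← eight_two, mul_pow, pow8 hw]
  have e1 : ∀ s, (w * z) ^ (2 ^ (3 * s + 1)) = w ^ 2 * (z ^ (8 ^ s)) ^ 2 := by
    intro s
    rw [pow_succ, pow_mul, e0, mul_pow]
  have e2 : ∀ s, (w * z) ^ (2 ^ (3 * s + 2)) = w ^ 4 * ((z ^ (8 ^ s)) ^ 2) ^ 2 := by
    intro s
    rw [show 3 * s + 2 = 3 * s + 1 + 1 by ring, pow_succ, pow_mul, e1, mul_pow]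
    ring
  have hZ : Tr3 (3 * m) z = ∑ s ∈ range m, z ^ (8 ^ s) := by
    unfold Tr3
    rw [Nat.mul_div_cancel_left _ (by norm_num)]
  have hZ2 : Tr3 (3 * m) z ^ 2 = ∑ s ∈ range m, (z ^ (8 ^ s)) ^ 2 := by
    rw [hZ, sum_pow_char]
  have hZ4 : Tr3 (3 * m) z ^ 4 = ∑ s ∈ range m, ((z ^ (8 ^ s)) ^ 2) ^ 2 := by
    rw [show Tr3 (3 * m) z ^ 4 = (Tr3 (3 * m) z ^ 2) ^ 2 by ring, hZ2, sum_pow_char]
  unfold tr
  rw [sum_three, hZ4, hZ2, hZ, mul_sum, mul_sum, mul_sum, ← sum_add_distrib, ← sum_add_distrib]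
  refine sum_congr rfl fun s _ => ?_
  rw [e0, e1, e2]

/-- the seventh cyclotomic polynomial -/
def P7 (t : F) : F := t ^ 6 + t ^ 5 + t ^ 4 + t ^ 3 + t ^ 2 + t + 1

omit [Fintype F] [DecidableEq F] [CharP F 2] in
theorem t7 {t : F} (h : P7 t = 0) : t ^ 7 = 1 := by
  unfold P7 at h
  linear_combination (t - 1) * h

omit [Fintype F] [DecidableEq F] in
theorem P7_cases {t : F} (h : P7 t = 0) : t ^ 3 + t + 1 = 0 ∨ t ^ 3 + t ^ 2 + 1 = 0 := by
  have two : (2 : F) = 0 := CharTwo.two_eq_zero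
  unfold P7 at h
  have h1 : (t ^ 3 + t + 1) * (t ^ 3 + t ^ 2 + 1) = 0 := by
    linear_combination h + t ^ 3 * two
  exact mul_eq_zero.1 h1

omit [Fintype F] [DecidableEq F] in
theorem P7_of1 {t : F} (h : t ^ 3 + t + 1 = 0) : P7 t = 0 := by
  have two : (2 : F) = 0 := CharTwo.two_eq_zero
  unfold P7
  linear_combination (t ^ 3 + t ^ 2 + 1) * h - t ^ 3 * two

omit [Fintype F] [DecidableEq F] in
theorem P7_of2 {t : F} (h : t ^ 3 + t ^ 2 + 1 = 0) : P7 t = 0 := by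
  have two : (2 : F) = 0 := CharTwo.two_eq_zero
  unfold P7
  linear_combination (t ^ 3 + t + 1) * h - t ^ 3 * two

/-- the value of the function with two terms -/
theorem two_terms {n m : ℕ} (hn : n = 3 * m) {t : F} (h7 : P7 t = 0) (u z : F) :
    u * tr n z + t * u * tr n ((1 + t ^ 4) * z)
      = u * ((1 + t + t ^ 5) * Tr3 n z + (1 + t + t ^ 2) * Tr3 n z ^ 2
        + (1 + t + t ^ 3) * Tr3 n z ^ 4) := by
  have h8 := t7 h7
  have w1 := tr_three hn (w := (1 : F)) (one_pow 8) z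
  have w2 := tr_three hn (w := t ^ 4) (by
    rw [← pow_mul]
    linear_combination (t ^ 25 + t ^ 18 + t ^ 11 + t ^ 4) * h8) z
  rw [one_mul, one_mul, one_pow, one_mul, one_pow, one_mul] at w1
  rw [add_mul, one_mul, tr_add, w1, w2]
  linear_combination (u * (t ^ 2 * Tr3 n z ^ 2 + (t ^ 10 + t ^ 3) * Tr3 n z ^ 4)) * h8

theorem core1 {n m : ℕ} (hn : n = 3 * m) {t : F} (ht : t ^ 3 + t + 1 = 0) {u : F} (hu : u ≠ 0) :
    Fk n ![u, t * u] ![(u ^ 3)⁻¹, (1 + t ^ 4) * (u ^ 3)⁻¹] = fun x => x ^ 3 +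
      (u⁻¹ * t)⁻¹ * Tr3 n ((u⁻¹ * t) ^ 3 * x ^ 9 + (u⁻¹ * t) ^ 6 * x ^ 18) := by
  have two : (2 : F) = 0 := CharTwo.two_eq_zero
  have h7 := P7_of1 ht
  have h8 := t7 h7
  have t0 : t ≠ 0 := by
    rintro rfl
    norm_num at h8
  funext x
  unfold Fk
  rw [Fin.sum_univ_two]
  simp only [Matrix.cons_val_zero, Matrix.cons_val_one]
  rw [mul_assoc (1 + t ^ 4), two_terms hn h7]
  set z : F := (u ^ 3)⁻¹ * x ^ 9 with hz
  have e1 : (u⁻¹ * t) ^ 3 * x ^ 9 + (u⁻¹ * t) ^ 6 * x ^ 18 = t ^ 3 * z + t ^ 6 * z ^ 2 := by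
    rw [hz]
    field_simp
  have e2 : (u⁻¹ * t)⁻¹ = u * t ^ 6 := by
    apply inv_eq_of_mul_eq_one_left
    field_simp
    linear_combination h8
  rw [e1, e2, Tr3_add, Tr3_mul n (w := t ^ 3) (by
      rw [← pow_mul]
      linear_combination (t ^ 17 + t ^ 10 + t ^ 3) * h8),
    Tr3_mul n (w := t ^ 6) (by
      rw [← pow_mul]
      linear_combination (t ^ 41 + t ^ 34 + t ^ 27 + t ^ 20 + t ^ 13 + t ^ 6) * h8), Tr3_sq]
  linear_combination (u * Tr3 n z) * ((t ^ 2 + 1) * ht - (t ^ 3 + t ^ 2) * two - t ^ 2 * h8)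
    + (u * Tr3 n z ^ 2) * ((t ^ 2 + 1) * ht - (t ^ 5 + t ^ 3) * two - t ^ 5 * h8)
    + (u * Tr3 n z ^ 4) * ht

theorem core2 {n m : ℕ} (hn : n = 3 * m) {t : F} (ht : t ^ 3 + t ^ 2 + 1 = 0) {u : F}
    (hu : u ≠ 0) :
    Fk n ![u, t * u] ![(u ^ 3)⁻¹, (1 + t ^ 4) * (u ^ 3)⁻¹] = fun x => x ^ 3 +
      (u⁻¹ * t ^ 5)⁻¹ * Tr3 n ((u⁻¹ * t ^ 5) ^ 6 * x ^ 18 + (u⁻¹ * t ^ 5) ^ 12 * x ^ 36) := by
  have two : (2 : F) = 0 := CharTwo.two_eq_zero
  have h7 := P7_of2 ht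
  have h8 := t7 h7
  have t0 : t ≠ 0 := by
    rintro rfl
    norm_num at h8
  funext x
  unfold Fk
  rw [Fin.sum_univ_two]
  simp only [Matrix.cons_val_zero, Matrix.cons_val_one]
  rw [mul_assoc (1 + t ^ 4), two_terms hn h7]
  set z : F := (u ^ 3)⁻¹ * x ^ 9 with hz
  have r30 : t ^ 30 = t ^ 2 := by linear_combination (t ^ 23 + t ^ 16 + t ^ 9 + t ^ 2) * h8
  have r60 : t ^ 60 = t ^ 4 := by
    rw [show t ^ 60 = (t ^ 30) ^ 2 by ring, r30]
    ring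
  have e1 : (u⁻¹ * t ^ 5) ^ 6 * x ^ 18 + (u⁻¹ * t ^ 5) ^ 12 * x ^ 36
      = t ^ 2 * z ^ 2 + t ^ 4 * (z ^ 2) ^ 2 := by
    rw [hz, ← r30, ← r60]
    field_simp
  have e2 : (u⁻¹ * t ^ 5)⁻¹ = u * t ^ 2 := by
    apply inv_eq_of_mul_eq_one_left
    field_simp
    linear_combination h8
  rw [e1, e2, Tr3_add, Tr3_mul n (w := t ^ 2) (by
      rw [← pow_mul]
      linear_combination (t ^ 9 + t ^ 2) * h8),
    Tr3_mul n (w := t ^ 4) (by
      rw [← pow_mul]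
      linear_combination (t ^ 25 + t ^ 18 + t ^ 11 + t ^ 4) * h8), Tr3_sq, Tr3_sq, Tr3_sq]
  linear_combination (u * Tr3 n z) * ((t ^ 2 + t + 1) * ht - (t ^ 4 + t ^ 3 + t ^ 2) * two)
    + (u * Tr3 n z ^ 2) * ((t + 1) * ht - (t ^ 3 + t ^ 4) * two)
    + (u * Tr3 n z ^ 4) * ((t ^ 3 + t ^ 2 + t + 1) * ht
      - (t ^ 6 + t ^ 5 + t ^ 4 + t ^ 3 + t ^ 2) * two)

/-- `t` generates the field with eight elements -/
theorem three_dvd {n : ℕ} (hF : Fintype.card F = 2 ^ n) {t : F} (h7 : P7 t = 0) : 3 ∣ n := by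
  have two : (2 : F) = 0 := CharTwo.two_eq_zero
  have h8 := t7 h7
  have h9 : t ^ 8 = t := by linear_combination t * h8
  have t0 : t ≠ 0 := by
    rintro rfl
    norm_num at h8
  have t1 : t ≠ 1 := by
    rintro rfl
    unfold P7 at h7
    have h10 : (1 : F) = 0 := by linear_combination h7 - 3 * two
    exact one_ne_zero h10
  have hc := pow_card' hF t
  have hs : 2 ^ n = 8 ^ (n / 3) * 2 ^ (n % 3) := by
    rw [eight_two, ← pow_add, Nat.div_add_mod]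
  rw [hs, pow_mul, pow8 h9] at hc
  have hr : n % 3 < 3 := Nat.mod_lt _ (by norm_num)
  interval_cases hm : n % 3
  · exact Nat.dvd_of_mod_eq_zero hm
  · exfalso
    apply t1
    norm_num at hc
    have h10 : t * t = t * 1 := by linear_combination hc
    exact mul_left_cancel₀ t0 h10
  · exfalso
    norm_num at hc
    have h10 : t ^ 3 = 1 := by
      have h11 : t * t ^ 3 = t * 1 := by linear_combination hc
      exact mul_left_cancel₀ t0 h11
    apply t1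
    linear_combination h8 - (t ^ 4 + t) * h10

/-- elements of order seven -/
theorem exists_t {n : ℕ} (hF : Fintype.card F = 2 ^ n) (hn : 3 ∣ n) :
    (∃ t : F, t ^ 3 + t + 1 = 0) ∧ ∃ t : F, t ^ 3 + t ^ 2 + 1 = 0 := by
  obtain ⟨m, rfl⟩ := hn
  have h7 : 7 ∣ Fintype.card Fˣ := by
    rw [Fintype.card_units, hF, pow_mul]
    have h1 : (2 ^ 3 - 1) ∣ ((2 ^ 3) ^ m - 1) := by
      have := Nat.sub_dvd_pow_sub_pow (2 ^ 3) 1 m
      rwa [one_pow] at this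
    exact h1
  have : Fact (Nat.Prime 7) := ⟨by norm_num⟩
  obtain ⟨x, hx⟩ := exists_prime_orderOf_dvd_card 7 h7
  have x7 : x ^ 7 = 1 := by
    rw [← hx]
    exact pow_orderOf_eq_one x
  have x1 : x ≠ 1 := by
    rintro rfl
    rw [orderOf_one] at hx
    norm_num at hx
  have e7 : (x : F) ^ 7 = 1 := by
    have := congrArg (fun y : Fˣ => (y : F)) x7
    simpa using this
  have e1 : (x : F) ≠ 1 := by
    intro h
    apply x1
    exact Units.ext h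
  have hP : P7 (x : F) = 0 := by
    have h1 : ((x : F) - 1) * P7 (x : F) = 0 := by
      unfold P7
      linear_combination e7
    exact (mul_eq_zero.1 h1).resolve_left (sub_ne_zero.2 e1)
  rcases P7_cases hP with h | h
  · refine ⟨⟨x, h⟩, ⟨(x : F) ^ 6, ?_⟩⟩
    linear_combination (x : F) ^ 4 * h + ((x : F) ^ 11 + (x : F) ^ 4 + (x : F) ^ 5 - 1) * e7
  · refine ⟨⟨(x : F) ^ 6, ?_⟩, ⟨x, h⟩⟩
    linear_combination (x : F) ^ 4 * h + ((x : F) ^ 11 + (x : F) ^ 4 - 1) * e7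

end Fam

theorem stFam : StFam := by
  intro n hn F _ _ hF
  classical
  have hchar : CharP F 2 := charP_of_card_eq_prime_pow (p := 2) (f := n) (by simpa using hF)
  have two : (2 : F) = 0 := CharTwo.two_eq_zero
  refine ⟨?_, ?_⟩
  · intro u₁ u₂ c₁ c₂ h1 h2 h3
    have hu1 : u₁ ≠ 0 := by
      rintro rfl
      norm_num at h1
    obtain ⟨t, ht⟩ : ∃ t, u₂ = t * u₁ := ⟨u₂ / u₁, by field_simp⟩
    subst ht
    set k : F := c₂ * u₁ ^ 3 with hk
    have k1 : k * (1 + t) ^ 3 = 1 := by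
      rw [hk]
      linear_combination h2
    have k2 : (1 + k) * t ^ 3 = 1 := by
      rw [hk]
      linear_combination h3 - t ^ 3 * h1
    have h7 : P7 t = 0 := by
      unfold P7
      linear_combination (1 + t) ^ 3 * k2 - t ^ 3 * k1
        + (- t ^ 5 - t ^ 4 + 2 * t ^ 2 + 2 * t + 1) * two
    have h8 := t7 h7
    have k3 : k = 1 + t ^ 4 := by
      linear_combination t ^ 4 * k2 - (1 + k) * h8 - two
    have e1 : c₁ = (u₁ ^ 3)⁻¹ := eq_inv_of_mul_eq_one_left h1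
    have e2 : c₂ = (1 + t ^ 4) * (u₁ ^ 3)⁻¹ := by
      rw [← k3, hk]
      field_simp
    obtain ⟨m, hm⟩ := three_dvd hF h7
    have t0 : t ≠ 0 := by
      rintro rfl
      norm_num at h8
    rw [e1, e2]
    rcases P7_cases h7 with h | h
    · rw [core1 hm h hu1]
      exact Or.inr (Or.inr (Or.inl ⟨⟨m, hm⟩, _, mul_ne_zero (inv_ne_zero hu1) t0, rfl⟩))
    · rw [core2 hm h hu1]
      exact Or.inr (Or.inr (Or.inr ⟨⟨m, hm⟩, _, mul_ne_zero (inv_ne_zero hu1)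
        (pow_ne_zero _ t0), rfl⟩))
  · intro G hG
    have hcond : ∀ t u : F, P7 t = 0 → u ≠ 0 → (u ^ 3)⁻¹ * u ^ 3 = 1 ∧
        (1 + t ^ 4) * (u ^ 3)⁻¹ * (u + t * u) ^ 3 = 1 ∧
        ((u ^ 3)⁻¹ + (1 + t ^ 4) * (u ^ 3)⁻¹) * (t * u) ^ 3 = 1 := by
      intro t u h7 hu
      have h8 := t7 h7
      have hu3 : (u ^ 3)⁻¹ * u ^ 3 = 1 := inv_mul_cancel₀ (pow_ne_zero _ hu)
      unfold P7 at h7
      refine ⟨hu3, ?_, ?_⟩
      · linear_combination ((1 + t ^ 4) * (1 + t) ^ 3) * hu3 + h8 + h7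
          + (t + t ^ 2 + t ^ 5 + t ^ 6) * two
      · linear_combination ((2 + t ^ 4) * t ^ 3) * hu3 + h8 + t ^ 3 * two
    rcases hG with h | ⟨a, ha, h⟩ | ⟨h3, a, ha, h⟩ | ⟨h3, a, ha, h⟩
    · refine ⟨0, 0, 0, 0, Or.inl rfl, Or.inl rfl, fun _ => rfl, ?_⟩
      rw [h]
      funext x
      unfold Fk
      rw [Fin.sum_univ_two]
      simp only [Matrix.cons_val_zero, Matrix.cons_val_one]
      ring
    · refine ⟨a⁻¹, 0, a ^ 3, 0, Or.inl rfl, Or.inr ?_, fun _ => rfl, ?_⟩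
      · field_simp
      · rw [h]
        funext x
        unfold Fk
        rw [Fin.sum_univ_two]
        simp only [Matrix.cons_val_zero, Matrix.cons_val_one]
        ring
    · obtain ⟨m, hm⟩ := h3
      obtain ⟨t, ht⟩ := (exists_t hF ⟨m, hm⟩).1
      have h7 := P7_of1 ht
      have h8 := t7 h7
      have t0 : t ≠ 0 := by
        rintro rfl
        norm_num at h8
      have hu : a⁻¹ * t ≠ 0 := mul_ne_zero (inv_ne_zero ha) t0
      obtain ⟨g1, g2, g3⟩ := hcond t (a⁻¹ * t) h7 hu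
      refine ⟨a⁻¹ * t, t * (a⁻¹ * t), ((a⁻¹ * t) ^ 3)⁻¹, (1 + t ^ 4) * ((a⁻¹ * t) ^ 3)⁻¹,
        Or.inr (Or.inr ⟨g1, g2, g3⟩), Or.inr g1, fun h0 => absurd h0 hu, ?_⟩
      rw [core1 hm ht hu]
      have e : (a⁻¹ * t)⁻¹ * t = a := by field_simp
      rw [e]
      exact h
    · obtain ⟨m, hm⟩ := h3
      obtain ⟨t, ht⟩ := (exists_t hF ⟨m, hm⟩).2
      have h7 := P7_of2 ht
      have h8 := t7 h7
      have t0 : t ≠ 0 := by
        rintro rfl
        norm_num at h8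
      have hu : a⁻¹ * t ^ 5 ≠ 0 := mul_ne_zero (inv_ne_zero ha) (pow_ne_zero _ t0)
      obtain ⟨g1, g2, g3⟩ := hcond t (a⁻¹ * t ^ 5) h7 hu
      refine ⟨a⁻¹ * t ^ 5, t * (a⁻¹ * t ^ 5), ((a⁻¹ * t ^ 5) ^ 3)⁻¹,
        (1 + t ^ 4) * ((a⁻¹ * t ^ 5) ^ 3)⁻¹,
        Or.inr (Or.inr ⟨g1, g2, g3⟩), Or.inr g1, fun h0 => absurd h0 hu, ?_⟩
      rw [core2 hm ht hu]
      have e : (a⁻¹ * t ^ 5)⁻¹ * t ^ 5 = a := by field_simp
      rw [e]
      exact h

end Pool.Agent.Lib.MP_eacabd_co.Clo8
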