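import Mathlib
import Pool.Agent.Lib.MP_eacabd_co.Clo8.StmtsC

/-!
The switching class of the cube: Moore determinants with a choice of the exponents.
-/

set_option autoImplicit false

namespace Pool.Agent.Lib.MP_eacabd_co.Clo8

section Moore

variable {F : Type} [Field F] [CharP F 2]

/-- powers with exponent a power of two are injective -/
theorem pow2_inj {x y : F} (t : ℕ) (h : x ^ (2 ^ t) = y ^ (2 ^ t)) : x = y := by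
  have : ExpChar F 2 := ExpChar.prime Nat.prime_two
  have h1 : iterateFrobenius F 2 t x = iterateFrobenius F 2 t y := by
    rw [iterateFrobenius_def, iterateFrobenius_def]
    exact h
  exact iterateFrobenius_inj F 2 t h1

theorem pow2_add (x y : F) (t : ℕ) : (x + y) ^ (2 ^ t) = x ^ (2 ^ t) + y ^ (2 ^ t) := by
  have : ExpChar F 2 := ExpChar.prime Nat.prime_two
  exact add_pow_expChar_pow x y 2 t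

omit [CharP F 2] in
theorem pow2_zo {b : F} (h : b = 0 ∨ b = 1) (t : ℕ) : b ^ (2 ^ t) = b := by
  rcases h with h | h <;> subst h
  · exact zero_pow (by positivity)
  · exact one_pow _

theorem eq_of_add0 {x y : F} (h : x + y = 0) : x = y := CharTwo.add_eq_zero.1 h

theorem moore2 {A₁ A₂ : F} (h1 : A₁ ≠ 0) (h2 : A₂ ≠ 0) (h12 : A₁ ≠ A₂) (s t : ℕ) :
    ∃ t', (t' = t ∨ t' = t + 1) ∧
      A₁ ^ (2 ^ s) * A₂ ^ (2 ^ t') + A₁ ^ (2 ^ t') * A₂ ^ (2 ^ s) ≠ 0 := by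
  by_contra hcon
  have e1 : A₁ ^ (2 ^ s) * A₂ ^ (2 ^ t) = A₁ ^ (2 ^ t) * A₂ ^ (2 ^ s) := by
    by_contra hne
    exact hcon ⟨t, Or.inl rfl, fun h => hne (eq_of_add0 h)⟩
  have e2 : A₁ ^ (2 ^ s) * A₂ ^ (2 ^ (t + 1)) = A₁ ^ (2 ^ (t + 1)) * A₂ ^ (2 ^ s) := by
    by_contra hne
    exact hcon ⟨t + 1, Or.inr rfl, fun h => hne (eq_of_add0 h)⟩
  have p1 : A₁ ^ (2 ^ s) ≠ 0 := pow_ne_zero _ h1
  have p2 : A₂ ^ (2 ^ s) ≠ 0 := pow_ne_zero _ h2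
  have q1 : A₁ ^ (2 ^ t) ≠ 0 := pow_ne_zero _ h1
  have q2 : A₂ ^ (2 ^ t) ≠ 0 := pow_ne_zero _ h2
  have r1 : A₁ ^ (2 ^ (t + 1)) = A₁ ^ (2 ^ t) * A₁ ^ (2 ^ t) := by
    rw [pow_succ, pow_mul, sq]
  have r2 : A₂ ^ (2 ^ (t + 1)) = A₂ ^ (2 ^ t) * A₂ ^ (2 ^ t) := by
    rw [pow_succ, pow_mul, sq]
  rw [r1, r2] at e2
  -- divide
  have e3 : A₁ ^ (2 ^ t) * A₂ ^ (2 ^ s) * A₂ ^ (2 ^ t)
      = A₁ ^ (2 ^ t) * A₂ ^ (2 ^ s) * A₁ ^ (2 ^ t) := by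
    calc A₁ ^ (2 ^ t) * A₂ ^ (2 ^ s) * A₂ ^ (2 ^ t)
        = A₁ ^ (2 ^ s) * A₂ ^ (2 ^ t) * A₂ ^ (2 ^ t) := by rw [e1]
      _ = A₁ ^ (2 ^ s) * (A₂ ^ (2 ^ t) * A₂ ^ (2 ^ t)) := by ring
      _ = A₁ ^ (2 ^ t) * A₁ ^ (2 ^ t) * A₂ ^ (2 ^ s) := e2
      _ = A₁ ^ (2 ^ t) * A₂ ^ (2 ^ s) * A₁ ^ (2 ^ t) := by ring
  have e4 := mul_left_cancel₀ (mul_ne_zero q1 p2) e3
  exact h12 (pow2_inj t e4).symm

theorem moore3 {A₁ A₂ A₃ : F} (h1 : A₁ ≠ 0) (h2 : A₂ ≠ 0) (h3 : A₃ ≠ 0) (h12 : A₁ ≠ A₂)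
    (h13 : A₁ ≠ A₃) (h23 : A₂ ≠ A₃) (h123 : A₁ + A₂ ≠ A₃) (s t r : ℕ) :
    ∃ t' r', (t' = t ∨ t' = t + 1) ∧ (r' = r ∨ r' = r + 1 ∨ r' = r + 2) ∧
      A₁ ^ (2 ^ s) * A₂ ^ (2 ^ t') * A₃ ^ (2 ^ r') + A₁ ^ (2 ^ s) * A₂ ^ (2 ^ r') * A₃ ^ (2 ^ t')
      + A₁ ^ (2 ^ t') * A₂ ^ (2 ^ s) * A₃ ^ (2 ^ r') + A₁ ^ (2 ^ t') * A₂ ^ (2 ^ r') * A₃ ^ (2 ^ s)
      + A₁ ^ (2 ^ r') * A₂ ^ (2 ^ s) * A₃ ^ (2 ^ t') + A₁ ^ (2 ^ r') * A₂ ^ (2 ^ t') * A₃ ^ (2 ^ s)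
        ≠ 0 := by
  obtain ⟨t', ht', hM⟩ := moore2 h1 h2 h12 s t
  by_contra hcon
  set M : F := A₁ ^ (2 ^ s) * A₂ ^ (2 ^ t') + A₁ ^ (2 ^ t') * A₂ ^ (2 ^ s) with hMd
  set b₁ : F := (A₂ ^ (2 ^ s) * A₃ ^ (2 ^ t') + A₂ ^ (2 ^ t') * A₃ ^ (2 ^ s)) / M with hb₁
  set b₂ : F := (A₁ ^ (2 ^ s) * A₃ ^ (2 ^ t') + A₁ ^ (2 ^ t') * A₃ ^ (2 ^ s)) / M with hb₂
  have key : ∀ r' : ℕ, (r' = r ∨ r' = r + 1 ∨ r' = r + 2) →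
      b₁ * A₁ ^ (2 ^ r') + b₂ * A₂ ^ (2 ^ r') + A₃ ^ (2 ^ r') = 0 := by
    intro r' hr'
    by_contra hne
    apply hcon
    refine ⟨t', r', ht', hr', fun h0 => hne ?_⟩
    have h4 : M * (b₁ * A₁ ^ (2 ^ r') + b₂ * A₂ ^ (2 ^ r') + A₃ ^ (2 ^ r')) = 0 := by
      have e1 : M * b₁ = A₂ ^ (2 ^ s) * A₃ ^ (2 ^ t') + A₂ ^ (2 ^ t') * A₃ ^ (2 ^ s) := by
        rw [hb₁, mul_div_cancel₀ _ hM]
      have e2 : M * b₂ = A₁ ^ (2 ^ s) * A₃ ^ (2 ^ t') + A₁ ^ (2 ^ t') * A₃ ^ (2 ^ s) := by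
        rw [hb₂, mul_div_cancel₀ _ hM]
      rw [← h0]
      calc M * (b₁ * A₁ ^ (2 ^ r') + b₂ * A₂ ^ (2 ^ r') + A₃ ^ (2 ^ r'))
          = (M * b₁) * A₁ ^ (2 ^ r') + (M * b₂) * A₂ ^ (2 ^ r') + M * A₃ ^ (2 ^ r') := by ring
        _ = _ := by
          rw [e1, e2, hMd]
          ring
    exact (mul_eq_zero.1 h4).resolve_left hM
  have k0 := key r (Or.inl rfl)
  have k1 := key (r + 1) (Or.inr (Or.inl rfl))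
  have k2 := key (r + 2) (Or.inr (Or.inr rfl))
  have sq2 : ∀ x : F, x + x = 0 := fun x => CharTwo.add_self_eq_zero x
  -- squaring an equation
  have step : ∀ m : ℕ, b₁ * A₁ ^ (2 ^ m) + b₂ * A₂ ^ (2 ^ m) + A₃ ^ (2 ^ m) = 0 →
      b₁ * A₁ ^ (2 ^ (m + 1)) + b₂ * A₂ ^ (2 ^ (m + 1)) + A₃ ^ (2 ^ (m + 1)) = 0 →
      (b₁ ^ 2 + b₁) * A₁ ^ (2 ^ (m + 1)) = (b₂ ^ 2 + b₂) * A₂ ^ (2 ^ (m + 1)) := by
    intro m g0 g1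
    have g2 : (b₁ * A₁ ^ (2 ^ m) + b₂ * A₂ ^ (2 ^ m) + A₃ ^ (2 ^ m)) ^ 2 = 0 := by
      rw [g0]
      simp
    rw [CharTwo.add_sq, CharTwo.add_sq, mul_pow, mul_pow, ← pow_mul, ← pow_mul, ← pow_mul,
      ← pow_succ] at g2
    apply eq_of_add0
    calc (b₁ ^ 2 + b₁) * A₁ ^ (2 ^ (m + 1)) + (b₂ ^ 2 + b₂) * A₂ ^ (2 ^ (m + 1))
        = (b₁ ^ 2 * A₁ ^ (2 ^ (m + 1)) + b₂ ^ 2 * A₂ ^ (2 ^ (m + 1)) + A₃ ^ (2 ^ (m + 1)))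
          + (b₁ * A₁ ^ (2 ^ (m + 1)) + b₂ * A₂ ^ (2 ^ (m + 1)) + A₃ ^ (2 ^ (m + 1)))
          - (A₃ ^ (2 ^ (m + 1)) + A₃ ^ (2 ^ (m + 1))) := by ring
      _ = 0 := by rw [g2, g1, sq2 (A₃ ^ (2 ^ (m + 1)))]; simp
  have s1 := step r k0 k1
  have s2 := step (r + 1) k1 k2
  have r1 : A₁ ^ (2 ^ (r + 1 + 1)) = A₁ ^ (2 ^ (r + 1)) * A₁ ^ (2 ^ (r + 1)) := by
    rw [pow_succ 2 (r + 1), pow_mul, sq]
  have r2 : A₂ ^ (2 ^ (r + 1 + 1)) = A₂ ^ (2 ^ (r + 1)) * A₂ ^ (2 ^ (r + 1)) := by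
    rw [pow_succ 2 (r + 1), pow_mul, sq]
  rw [r1, r2] at s2
  have hX : A₁ ^ (2 ^ (r + 1)) ≠ 0 := pow_ne_zero _ h1
  have hY : A₂ ^ (2 ^ (r + 1)) ≠ 0 := pow_ne_zero _ h2
  have hXY : A₁ ^ (2 ^ (r + 1)) ≠ A₂ ^ (2 ^ (r + 1)) := fun h => h12 (pow2_inj _ h)
  have hβ2 : b₂ ^ 2 + b₂ = 0 := by
    by_contra hne
    have e1 : (b₂ ^ 2 + b₂) * A₂ ^ (2 ^ (r + 1)) * A₁ ^ (2 ^ (r + 1))
        = (b₂ ^ 2 + b₂) * A₂ ^ (2 ^ (r + 1)) * A₂ ^ (2 ^ (r + 1)) := by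
      calc (b₂ ^ 2 + b₂) * A₂ ^ (2 ^ (r + 1)) * A₁ ^ (2 ^ (r + 1))
          = (b₁ ^ 2 + b₁) * A₁ ^ (2 ^ (r + 1)) * A₁ ^ (2 ^ (r + 1)) := by rw [s1]
        _ = (b₁ ^ 2 + b₁) * (A₁ ^ (2 ^ (r + 1)) * A₁ ^ (2 ^ (r + 1))) := by ring
        _ = _ := by rw [s2]; ring
    exact hXY (mul_left_cancel₀ (mul_ne_zero hne hY) e1)
  have hβ1 : b₁ ^ 2 + b₁ = 0 := by
    rw [hβ2, zero_mul] at s1
    exact (mul_eq_zero.1 s1).resolve_right hX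
  have zo : ∀ b : F, b ^ 2 + b = 0 → b = 0 ∨ b = 1 := by
    intro b hb
    have h5 : b * (b + 1) = 0 := by rw [← hb]; ring
    rcases mul_eq_zero.1 h5 with h6 | h6
    · exact Or.inl h6
    · exact Or.inr (eq_of_add0 h6)
  have z1 := zo b₁ hβ1
  have z2 := zo b₂ hβ2
  have fin0 : b₁ * A₁ + b₂ * A₂ + A₃ = 0 := by
    apply pow2_inj r
    rw [pow2_add, pow2_add, mul_pow, mul_pow, pow2_zo z1, pow2_zo z2, k0]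
    exact (zero_pow (by positivity)).symm
  rcases z1 with z1 | z1 <;> rcases z2 with z2 | z2 <;> rw [z1, z2] at fin0
  · apply h3
    rw [← fin0]
    ring
  · apply h23
    apply eq_of_add0
    rw [← fin0]
    ring
  · apply h13
    apply eq_of_add0
    rw [← fin0]
    ring
  · apply h123
    apply eq_of_add0
    rw [← fin0]
    ring

end Moore

theorem stMoore2 : StMoore2 := fun _ _ _ _ _ h1 h2 h12 s t => moore2 h1 h2 h12 s t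

theorem stMoore3 : StMoore3 := fun _ _ _ _ _ _ h1 h2 h3 h12 h13 h23 h123 s t r =>
  moore3 h1 h2 h3 h12 h13 h23 h123 s t r

end Pool.Agent.Lib.MP_eacabd_co.Clo8
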