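import Mathlib
import Pool.Agent.Lib.MP_eacabd_co.Gold8.Island
import Pool.Agent.Lib.MP_eacabd_co.Clo8.StmtsC

/-!
The switching class of the cube function: the distribution of the pieces of a relation to far
targets (module ISL).
-/

set_option autoImplicit false

namespace Pool.Agent.Lib.MP_eacabd_co.Clo8

open Finset Pool.Agent.Lib.MP_eacabd_co Pool.Agent.Lib.MP_eacabd_co.Gold8

/-- far points, seen from the left end of a window of length 40 -/
theorem far_val96 {n : ℕ} [NeZero n] {x y : ZMod n} (h : Far43 x y) :
    (y - (x - ((40 : ℕ) : ZMod n))).val = (y - x).val + 40 := by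
  have h1 : y - (x - ((40 : ℕ) : ZMod n)) = (((y - x).val + 40 : ℕ) : ZMod n) := by
    rw [Nat.cast_add, ZMod.natCast_val, ZMod.cast_id', id]
    ring
  have h2 := h.2
  rw [h1, ZMod.val_natCast, Nat.mod_eq_of_lt (by omega)]

theorem isl_aux96 (n : ℕ) [NeZero n] (hn : 610 ≤ n) (κ lam : Type) [Fintype κ] [Fintype lam]
    (p : lam → ZMod n) (d : lam → ℤ) (q : κ → ZMod n) (hd : ∀ j, |d j| ≤ 4)
    (hκ : Fintype.card κ ≤ 6) :
    ∀ (m : ℕ) (x : Fin m → ZMod n) (ε : Fin m → ℤ) (c : κ → ℤ), (∀ j, |ε j| ≤ 4) →
    (∀ k, |c k| ≤ 4) → m + Fintype.card lam + Fintype.card κ ≤ 12 →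
    (∀ i j, i ≠ j → Far43 (x i) (x j)) → (∀ i j, Far43 (x i) (p j)) →
    ∑ j, ((ε j : ℤ) : Gold8.R n) * pw (x j) + ∑ j, ((d j : ℤ) : Gold8.R n) * pw (p j)
      = ∑ k, ((c k : ℤ) : Gold8.R n) * pw (q k) →
    ∃ (h : Fin m → ZMod n) (ω : κ → Option (Fin m)), (∀ k k', q k = q k' → ω k = ω k') ∧
      (∀ j, ε j * 2 ^ (x j - h j).val
        = ∑ k, if ω k = some j then c k * 2 ^ (q k - h j).val else 0) ∧
      ∑ j, ((d j : ℤ) : Gold8.R n) * pw (p j)
        = ∑ k, if ω k = none then ((c k : ℤ) : Gold8.R n) * pw (q k) else 0 := by
  intro m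
  induction m with
  | zero =>
    intro x ε c hε hc hcard hx hp hrel
    refine ⟨Fin.elim0, fun _ => none, fun _ _ _ => rfl, fun j => j.elim0, ?_⟩
    simpa using hrel
  | succ m ih =>
    intro x ε c hε hc hcard hx hp hrel
    have hX : ∀ j : Fin m, Far43 (x 0) (x j.succ) := fun j => hx 0 j.succ (Fin.succ_ne_zero j).symm
    obtain ⟨h₀, s, h1, h2⟩ := island (n := n) (by omega) (κ := κ) (lam := Fin m ⊕ lam)
      (x := x 0) (cx := ε 0) (lx := 2) (wx := 1) (by simpa using hε 0)
      (m := q) (c := fun k => -c k) (l := fun _ => 2) (w := fun _ => 1)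
      (fun k => by simpa using hc k)
      (p := Sum.elim (fun j => x j.succ) p) (d := Sum.elim (fun j => ε j.succ) d)
      (lp := fun _ => 2) (wp := fun _ => 1)
      (by
        rintro (j | j)
        · simpa using hε j.succ
        · simpa using hd j)
      (by
        simp only [sum_const, card_univ, Fintype.card_sum, Fintype.card_fin, smul_eq_mul,
          mul_one]
        omega)
      (L := 40) (by omega)
      (by
        simp only [sum_const, card_univ, smul_eq_mul]
        omega)
      (by
        rintro (j | j)
        · simp only [Sum.elim_inl]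
          rw [far_val96 (hX j)]
          have h3 := hX j
          exact ⟨by have := h3.1; omega, by have := h3.2; omega⟩
        · simp only [Sum.elim_inr]
          rw [far_val96 (hp 0 j)]
          have h3 := hp 0 j
          exact ⟨by have := h3.1; omega, by have := h3.2; omega⟩)
      (by
        rw [Fintype.sum_sum_type]
        simp only [Sum.elim_inl, Sum.elim_inr]
        rw [Fin.sum_univ_succ] at hrel
        have e : ∑ k, ((-c k : ℤ) : Gold8.R n) * pw (q k)
            = - ∑ k, ((c k : ℤ) : Gold8.R n) * pw (q k) := by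
          rw [← sum_neg_distrib]
          refine sum_congr rfl fun k _ => ?_
          push_cast
          ring
        rw [e, ← hrel]
        ring)
    classical
    have hc' : ∀ k, |(if (q k - h₀).val < s then 0 else c k)| ≤ 4 := by
      intro k
      by_cases h3 : (q k - h₀).val < s
      · rw [if_pos h3]; norm_num
      · rw [if_neg h3]; exact hc k
    obtain ⟨h', ω', hω1, hω2, hω3⟩ := ih (fun j => x j.succ) (fun j => ε j.succ)
      (fun k => if (q k - h₀).val < s then 0 else c k) (fun j => hε j.succ) hc' (by omega)
      (fun i j hij => hx i.succ j.succ (fun e => hij (Fin.succ_injective _ e)))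
      (fun i j => hp i.succ j)
      (by
        rw [Fintype.sum_sum_type] at h2
        simp only [Sum.elim_inl, Sum.elim_inr] at h2
        have e : ∑ k, (((if (q k - h₀).val < s then 0 else c k : ℤ) : ℤ) : Gold8.R n) * pw (q k)
            = - ∑ k, (if (q k - h₀).val < s then 0 else ((-c k : ℤ) : Gold8.R n) * pw (q k)) := by
          rw [← sum_neg_distrib]
          refine sum_congr rfl fun k _ => ?_
          by_cases h3 : (q k - h₀).val < s
          · rw [if_pos h3, if_pos h3]; simp
          · rw [if_neg h3, if_neg h3]; push_cast; ring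
        rw [e]
        linear_combination h2)
    obtain ⟨ω, hωa, hωb⟩ : ∃ ω : κ → Option (Fin (m + 1)),
        (∀ k, (q k - h₀).val < s → ω k = some 0) ∧
        (∀ k, ¬ (q k - h₀).val < s → ω k = (ω' k).map Fin.succ) :=
      ⟨fun k => if (q k - h₀).val < s then some 0 else (ω' k).map Fin.succ,
        fun k hk => if_pos hk, fun k hk => if_neg hk⟩
    refine ⟨Fin.cons h₀ h', ω, ?_, ?_, ?_⟩
    · intro k k' hk
      by_cases h3 : (q k - h₀).val < s
      · rw [hωa k h3, hωa k' (by rw [← hk]; exact h3)]
      · rw [hωb k h3, hωb k' (by rw [← hk]; exact h3), hω1 k k' hk]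
    · intro j
      refine Fin.cases ?_ (fun j => ?_) j
      · simp only [Fin.cons_zero]
        have e : ∑ k, (if ω k = some 0 then c k * 2 ^ (q k - h₀).val else 0)
            = - ∑ k, (if (q k - h₀).val < s then -c k * 2 ^ (q k - h₀).val else 0) := by
          rw [← sum_neg_distrib]
          refine sum_congr rfl fun k _ => ?_
          by_cases h3 : (q k - h₀).val < s
          · rw [if_pos (hωa k h3), if_pos h3]; ring
          · rw [if_neg h3, if_neg, neg_zero]
            intro h4
            rw [hωb k h3, Option.map_eq_some_iff] at h4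
            obtain ⟨a, _, ha⟩ := h4
            exact Fin.succ_ne_zero a ha
        rw [e]
        linear_combination h1
      · simp only [Fin.cons_succ]
        rw [hω2 j]
        refine sum_congr rfl fun k _ => ?_
        by_cases h3 : (q k - h₀).val < s
        · have h5 : ω k ≠ some j.succ := by
            rw [hωa k h3]
            intro h4
            exact Fin.succ_ne_zero j (Option.some.inj h4).symm
          rw [if_pos h3, if_neg h5, zero_mul]
          split_ifs <;> rfl
        · rw [if_neg h3]
          by_cases h4 : ω' k = some j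
          · rw [if_pos h4, if_pos]
            rw [hωb k h3, h4, Option.map_some]
          · rw [if_neg h4, if_neg]
            intro h5
            rw [hωb k h3, Option.map_eq_some_iff] at h5
            obtain ⟨a, ha, ha'⟩ := h5
            exact h4 (by rw [ha, Fin.succ_injective _ ha'])
    · rw [hω3]
      refine sum_congr rfl fun k _ => ?_
      by_cases h3 : (q k - h₀).val < s
      · have h5 : ω k ≠ none := by rw [hωa k h3]; simp
        rw [if_pos h3, if_neg h5, Int.cast_zero, zero_mul]
        split_ifs <;> rfl
      · rw [if_neg h3]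
        by_cases h4 : ω' k = none
        · rw [if_pos h4, if_pos]
          rw [hωb k h3, h4, Option.map_none]
        · rw [if_neg h4, if_neg]
          intro h5
          rw [hωb k h3] at h5
          exact h4 (Option.map_eq_none_iff.1 h5)

/-- (ISL) -/
theorem stIsl : StIsl := by
  intro n _ hn m κ lam _ _ x ε p d q c hε hd hc hcard hκ hx hp hrel
  exact isl_aux96 n hn κ lam p d q hd hκ m x ε c hε hc hcard hx hp hrel

end Pool.Agent.Lib.MP_eacabd_co.Clo8
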