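import Mathlib
import Pool.Agent.Lib.MP_eacabd_co.Clo8.ISL

/-!
The switching class of the cube function: four single pieces and four far targets (module PERM).
-/

set_option autoImplicit false

namespace Pool.Agent.Lib.MP_eacabd_co.Clo8

open Finset Pool.Agent.Lib.MP_eacabd_co Pool.Agent.Lib.MP_eacabd_co.Gold8

theorem far_nat96 {n : ℕ} [NeZero n] {a b : ℕ} (h1 : a + 43 ≤ b) (h2 : b + 43 ≤ n + a) :
      Far43 ((a : ℕ) : ZMod n) ((b : ℕ) : ZMod n) ∧
      Far43 ((b : ℕ) : ZMod n) ((a : ℕ) : ZMod n) := by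
  have e1 : (((b : ℕ) : ZMod n) - ((a : ℕ) : ZMod n)).val = b - a := by
    rw [← Nat.cast_sub (by omega), ZMod.val_natCast, Nat.mod_eq_of_lt (by omega)]
  have e2 : (((a : ℕ) : ZMod n) - ((b : ℕ) : ZMod n)).val = n - (b - a) := by
    have e3 : ((a : ℕ) : ZMod n) - ((b : ℕ) : ZMod n) = ((n - (b - a) : ℕ) : ZMod n) := by
      rw [Nat.cast_sub (by omega), Nat.cast_sub (by omega), ZMod.natCast_self]
      ring
    rw [e3, ZMod.val_natCast, Nat.mod_eq_of_lt (by omega)]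
  refine ⟨⟨?_, ?_⟩, ?_, ?_⟩
  · rw [e1]; omega
  · rw [e1]; omega
  · rw [e2]; omega
  · rw [e2]; omega

theorem neg_one_cast96 {n : ℕ} (hn : 1 ≤ n) : (-1 : ZMod n) = ((n - 1 : ℕ) : ZMod n) := by
  rw [Nat.cast_sub hn, ZMod.natCast_self]
  simp

theorem single96 {e c : ℤ} (he : e = 3 ∨ e = -3) (hc : c = 0 ∨ c = 3 ∨ c = -3) {a b : ℕ}
    (h : e * 2 ^ a = c * 2 ^ b) : c = e ∧ a = b := by
  have ha : (0 : ℤ) < 2 ^ a := by positivity
  have hb : (0 : ℤ) < 2 ^ b := by positivity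
  have hinj : (2 : ℤ) ^ a = 2 ^ b → a = b := fun h =>
    Nat.pow_right_injective (le_refl 2) (by exact_mod_cast h)
  rcases he with rfl | rfl <;> rcases hc with rfl | rfl | rfl
  · exfalso; linarith
  · exact ⟨rfl, hinj (by linarith)⟩
  · exfalso; linarith
  · exfalso; linarith
  · exfalso; linarith
  · exact ⟨rfl, hinj (by linarith)⟩

/-- (PERM) -/
theorem stPerm (I : StIsl) : StPerm := by
  intro n _ hn s₁ s₂ s₃ hs₁ hs₂ hs₃ δ₀ δ₁ δ₂ δ₃ x₀ x₁ x₂ x₃ h₀ h₁ h₂ h₃ hrel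
  have hneg : (-1 : ZMod n) = ((n - 1 : ℕ) : ZMod n) := neg_one_cast96 (by omega)
  have hs2 : 200 ≤ s₂ ∧ s₂ ≤ 201 := by omega
  have hs3 : 300 ≤ s₃ ∧ s₃ ≤ 302 := by omega
  have f12 := far_nat96 (n := n) (a := s₁) (b := s₂) (by omega) (by omega)
  have f13 := far_nat96 (n := n) (a := s₁) (b := s₃) (by omega) (by omega)
  have f14 := far_nat96 (n := n) (a := s₁) (b := n - 1) (by omega) (by omega)
  have f23 := far_nat96 (n := n) (a := s₂) (b := s₃) (by omega) (by omega)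
  have f24 := far_nat96 (n := n) (a := s₂) (b := n - 1) (by omega) (by omega)
  have f34 := far_nat96 (n := n) (a := s₃) (b := n - 1) (by omega) (by omega)
  rw [← hneg] at f14 f24 f34
  have hc : ∀ k, (![δ₀, δ₁, δ₂, δ₃] : Fin 4 → ℤ) k = 0 ∨ (![δ₀, δ₁, δ₂, δ₃] : Fin 4 → ℤ) k = 3 ∨
      (![δ₀, δ₁, δ₂, δ₃] : Fin 4 → ℤ) k = -3 := by
    intro k
    fin_cases k
    · rcases h₀ with h | h
      · exact Or.inl h
      · exact Or.inr (Or.inr h)
    · exact h₁
    · exact h₂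
    · exact h₃
  have hε : ∀ j, (![3, 3, 3, -3] : Fin 4 → ℤ) j = 3 ∨ (![3, 3, 3, -3] : Fin 4 → ℤ) j = -3 := by
    decide
  obtain ⟨h, ω, _, hω, _⟩ := I n hn 4 (Fin 4) (Fin 0)
    ![(s₁ : ZMod n), (s₂ : ZMod n), (s₃ : ZMod n), -1] ![3, 3, 3, -3] Fin.elim0 Fin.elim0
    ![x₀, x₁, x₂, x₃] ![δ₀, δ₁, δ₂, δ₃] (by
      intro j
      rcases hε j with h | h <;> rw [h] <;> norm_num) (fun j => j.elim0) (by
      intro j
      rcases hc j with h | h | h <;> rw [h] <;> norm_num) (by simp) (by simp) (by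
      intro i j hij
      fin_cases i <;> fin_cases j <;>
        first
          | exact absurd rfl hij
          | exact f12.1
          | exact f12.2
          | exact f13.1
          | exact f13.2
          | exact f14.1
          | exact f14.2
          | exact f23.1
          | exact f23.2
          | exact f24.1
          | exact f24.2
          | exact f34.1
          | exact f34.2) (fun _ j => j.elim0) (by
      rw [Fin.sum_univ_four, Fin.sum_univ_four, univ_eq_empty, sum_empty]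
      simp only [Matrix.cons_val_zero, Matrix.cons_val_one, Matrix.cons_val]
      push_cast
      linear_combination hrel)
  -- every target has a piece
  have hex : ∀ j : Fin 4, ∃ k, ω k = some j := by
    intro j
    by_contra hno
    push Not at hno
    have h5 := hω j
    rw [sum_eq_zero (fun k _ => if_neg (hno k))] at h5
    rcases mul_eq_zero.1 h5 with h6 | h6
    · rcases hε j with h7 | h7 <;> rw [h7] at h6 <;> norm_num at h6
    · exact absurd h6 (by positivity)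
  choose g hg using hex
  have hginj : Function.Injective g := fun j j' hjj => by
    have := hg j
    rw [hjj, hg j'] at this
    exact (Option.some.inj this).symm
  have hgs : Function.Surjective g := Finite.surjective_of_injective hginj
  have hq : ∀ j, (![δ₀, δ₁, δ₂, δ₃] : Fin 4 → ℤ) (g j) = (![3, 3, 3, -3] : Fin 4 → ℤ) j ∧
      (![x₀, x₁, x₂, x₃] : Fin 4 → ZMod n) (g j)
        = (![(s₁ : ZMod n), (s₂ : ZMod n), (s₃ : ZMod n), -1] : Fin 4 → ZMod n) j := by
    intro j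
    have h5 := hω j
    rw [sum_eq_single (g j) (by
      intro k _ hk
      apply if_neg
      intro h6
      obtain ⟨j', rfl⟩ := hgs k
      rw [hg j'] at h6
      exact hk (by rw [Option.some.inj h6])) (fun h6 => absurd (mem_univ _) h6), if_pos (hg j)] at h5
    obtain ⟨h6, h7⟩ := single96 (hε j) (hc (g j)) h5
    refine ⟨h6, ?_⟩
    have h8 := ZMod.val_injective n h7
    exact (sub_left_injective h8).symm
  have hg3 : g 3 = 0 := by
    obtain ⟨j, hj⟩ := hgs 0
    have h5 := (hq j).1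
    rw [hj] at h5
    have h6 : δ₀ = (![3, 3, 3, -3] : Fin 4 → ℤ) j := h5
    have h7 : (![3, 3, 3, -3] : Fin 4 → ℤ) j = -3 := by
      rcases hε j with h | h
      · rw [h] at h6
        rcases h₀ with h₀ | h₀ <;> rw [h₀] at h6 <;> norm_num at h6
      · exact h
    have h8 : ∀ j : Fin 4, (![3, 3, 3, -3] : Fin 4 → ℤ) j = -3 → j = 3 := by decide
    rw [← h8 j h7]
    exact hj
  have h33 := hq 3
  rw [hg3] at h33
  have hd0 : δ₀ = -3 := h33.1
  have hx0 : x₀ = -1 := h33.2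
  have hcase : ∀ t : Fin 4, t ≠ 0 → t = 1 ∨ t = 2 ∨ t = 3 := by decide
  have n0 : g 0 ≠ 0 := fun e => absurd (hginj (e.trans hg3.symm)) (by decide)
  have n1 : g 1 ≠ 0 := fun e => absurd (hginj (e.trans hg3.symm)) (by decide)
  have n2 : g 2 ≠ 0 := fun e => absurd (hginj (e.trans hg3.symm)) (by decide)
  have m01 : g 0 ≠ g 1 := fun e => absurd (hginj e) (by decide)
  have m02 : g 0 ≠ g 2 := fun e => absurd (hginj e) (by decide)
  have m12 : g 1 ≠ g 2 := fun e => absurd (hginj e) (by decide)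
  have q0 := hq 0
  have q1 := hq 1
  have q2 := hq 2
  rcases hcase _ n0 with e0 | e0 | e0 <;> rcases hcase _ n1 with e1 | e1 | e1 <;>
    rcases hcase _ n2 with e2 | e2 | e2 <;>
    rw [e0] at q0 m01 m02 <;> rw [e1] at q1 m01 m12 <;> rw [e2] at q2 m02 m12 <;>
    first
      | exact absurd rfl m01
      | exact absurd rfl m02
      | exact absurd rfl m12
      | exact ⟨hd0, hx0, q0.1, q1.1, q2.1, Or.inl ⟨q0.2, q1.2, q2.2⟩⟩
      | exact ⟨hd0, hx0, q0.1, q2.1, q1.1, Or.inr (Or.inl ⟨q0.2, q2.2, q1.2⟩)⟩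
      | exact ⟨hd0, hx0, q1.1, q0.1, q2.1, Or.inr (Or.inr (Or.inl ⟨q1.2, q0.2, q2.2⟩))⟩
      | exact ⟨hd0, hx0, q1.1, q2.1, q0.1,
          Or.inr (Or.inr (Or.inr (Or.inl ⟨q1.2, q2.2, q0.2⟩)))⟩
      | exact ⟨hd0, hx0, q2.1, q0.1, q1.1,
          Or.inr (Or.inr (Or.inr (Or.inr (Or.inl ⟨q2.2, q0.2, q1.2⟩))))⟩
      | exact ⟨hd0, hx0, q2.1, q1.1, q0.1,
          Or.inr (Or.inr (Or.inr (Or.inr (Or.inr ⟨q2.2, q1.2, q0.2⟩))))⟩

end Pool.Agent.Lib.MP_eacabd_co.Clo8
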