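import Pool.Agent.Lib.MP_eacabd_co.Clo8.StmtsC

/-!
Module STEP (helper88): one coordinate of a function `x ^ 3 + ∑ u i * tr (c i * x ^ 9)` (two
summands) is changed: the result has the same form with three summands.
-/

set_option autoImplicit false

namespace Pool.Agent.Lib.MP_eacabd_co.Clo8

open Finset Pool.Agent.Lib.MP_eacabd_co Pool.Agent.Lib.MP_eacabd_co.Gold8

namespace STEP88

variable {F : Type} [Field F]

/-- not in the span of `v ^ (-3)` -/
def W (v x : F) : Prop := x ≠ 0 ∧ x * v ^ 3 ≠ 1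

theorem exists_W [Fintype F] [DecidableEq F] [CharP F 2] {n : ℕ} (hn : 3 ≤ n)
    (hF : Fintype.card F = 2 ^ n) {v : F} (x : F) : ∃ y, W v y ∧ W v (x + y) := by
  by_contra hcon
  push Not at hcon
  have h4 : Fintype.card F ≤ ({0, (v ^ 3)⁻¹, x, x + (v ^ 3)⁻¹} : Finset F).card := by
    apply Finset.card_le_card
    intro y _
    simp only [Finset.mem_insert, Finset.mem_singleton]
    by_contra hy
    push Not at hy
    obtain ⟨h1, h2, h3, h4⟩ := hy
    have h5 : W v y := ⟨h1, fun h => h2 (eq_inv_of_mul_eq_one_left h)⟩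
    refine hcon y h5 ⟨fun h => h3 (CharTwo.add_eq_zero.mp h).symm, fun h => h4 ?_⟩
    rw [← eq_inv_of_mul_eq_one_left h, ← add_assoc, CharTwo.add_self_eq_zero, zero_add]
  have h5 := Finset.card_le_four (a := (0 : F)) (b := (v ^ 3)⁻¹) (c := x) (d := x + (v ^ 3)⁻¹)
  have h6 : 2 ^ 3 ≤ 2 ^ n := Nat.pow_le_pow_right (by norm_num) hn
  rw [hF] at h4
  omega

theorem not_W [CharP F 2] {v e x : F} (hv : v ≠ 0) (he : e * v ^ 3 = 1) (h : ¬ W v x) :
    x = 0 ∨ x = e := by
  unfold W at h
  by_cases h0 : x = 0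
  · exact Or.inl h0
  · right
    have h1 : x * v ^ 3 = 1 := by
      by_contra h2
      exact h ⟨h0, h2⟩
    exact mul_right_cancel₀ (pow_ne_zero 3 hv) (h1.trans he.symm)

/-- two elements independent modulo `v ^ (-3)`, whose span with `v ^ (-3)` contains `p, q` -/
theorem exists_ind [Fintype F] [DecidableEq F] [CharP F 2] {n : ℕ} (hn : 3 ≤ n)
    (hF : Fintype.card F = 2 ^ n) {v e : F} (hv : v ≠ 0) (he : e * v ^ 3 = 1) (p q : F) :
    ∃ c₁ c₂ : F, Ind2 v c₁ c₂ ∧ ∀ z : F, tr n (e * z) = 0 → tr n (c₁ * z) = 0 →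
      tr n (c₂ * z) = 0 → tr n (p * z) = 0 ∧ tr n (q * z) = 0 := by
  have hind : ∀ x y : F, W v x → W v y → W v (x + y) → Ind2 v x y := by
    intro x y h1 h2 h3
    exact ⟨h1.1, h2.1, h3.1, h1.2, h2.2, h3.2⟩
  have hz : ∀ x z : F, (x = 0 ∨ x = e) → tr n (e * z) = 0 → tr n (x * z) = 0 := by
    rintro x z (rfl | rfl) h
    · rw [zero_mul]
      exact (tau F n).map_zero
    · exact h
  have hadd : ∀ x y z : F, tr n ((x + y) * z) = tr n (x * z) + tr n (y * z) := by
    intro x y z
    rw [add_mul, tr_add]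
  by_cases hp : W v p
  · by_cases hq : W v q ∧ W v (p + q)
    · exact ⟨p, q, hind p q hp hq.1 hq.2, fun z _ h1 h2 => ⟨h1, h2⟩⟩
    · obtain ⟨y, hy1, hy2⟩ := exists_W (v := v) hn hF p
      refine ⟨p, y, hind p y hp hy1 hy2, fun z h0 h1 _ => ⟨h1, ?_⟩⟩
      by_cases hq1 : W v q
      · have hq2 : ¬ W v (p + q) := fun h => hq ⟨hq1, h⟩
        have h3 := hz (p + q) z (not_W hv he hq2) h0
        rw [hadd, h1, zero_add] at h3
        exact h3
      · exact hz q z (not_W hv he hq1) h0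
  · by_cases hq : W v q
    · obtain ⟨y, hy1, hy2⟩ := exists_W (v := v) hn hF q
      exact ⟨q, y, hind q y hq hy1 hy2, fun z h0 h1 _ => ⟨hz p z (not_W hv he hp) h0, h1⟩⟩
    · obtain ⟨x, hx, _⟩ := exists_W (v := v) hn hF (0 : F)
      obtain ⟨y, hy1, hy2⟩ := exists_W (v := v) hn hF x
      exact ⟨x, y, hind x y hx hy1 hy2, fun z h0 _ _ =>
        ⟨hz p z (not_W hv he hp) h0, hz q z (not_W hv he hq) h0⟩⟩

/-- second derivative of the functions -/
theorem Fk_second [Fintype F] [DecidableEq F] [CharP F 2] (n : ℕ) {k : ℕ} (u c : Fin k → F)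
    (w x y : F) : Fk n u c (w + x + y) + Fk n u c (w + x) + Fk n u c (w + y) + Fk n u c w =
      (x * y ^ 2 + x ^ 2 * y) + ∑ i, u i * tr n (c i * Rf x y) := by
  have e3 := gold_second 1 w x y
  rw [pow_one] at e3
  have e9 := gold_second 3 w x y
  have h9 : ∀ i, tr n (c i * Rf x y) = tr n (c i * (w + x + y) ^ 9) + tr n (c i * (w + x) ^ 9)
      + tr n (c i * (w + y) ^ 9) + tr n (c i * w ^ 9) := by
    intro i
    rw [← tr_add, ← tr_add, ← tr_add, ← mul_add, ← mul_add, ← mul_add]
    congr 2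
    rw [show (2 : ℕ) ^ 3 + 1 = 9 by norm_num, show (2 : ℕ) ^ 3 = 8 by norm_num] at e9
    rw [e9]
    unfold Rf
    ring
  unfold Fk
  have hs : ∑ i, u i * tr n (c i * Rf x y) = ∑ i, u i * tr n (c i * (w + x + y) ^ 9)
      + ∑ i, u i * tr n (c i * (w + x) ^ 9) + ∑ i, u i * tr n (c i * (w + y) ^ 9)
      + ∑ i, u i * tr n (c i * w ^ 9) := by
    rw [← Finset.sum_add_distrib, ← Finset.sum_add_distrib, ← Finset.sum_add_distrib]
    refine Finset.sum_congr rfl fun i _ => ?_
    rw [h9]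
    ring
  rw [hs, ← e3]
  ring

/-- the transported Boolean function -/
theorem toMBg [Fintype F] [DecidableEq F] [CharP F 2] {s : F} {G₀ f G H : F → F}
    (A B : F ≃+ F) (C : F →+ F) (c d : F)
    (hAB : ∀ x, G₀ x = A (H (B x + c)) + C x + d)
    (h01 : ∀ x, f x = 0 ∨ f x = 1) (hGs : ∀ x, G x = G₀ x + s * f x) (hapn : IsAPN G)
    (P : F → F → Prop) (hP : ∀ a b, P a b → a ≠ 0 ∧ b ≠ 0 ∧ a ≠ b ∧
      ∀ w, H (w + a + b) + H (w + a) + H (w + b) + H w = A.symm s) :
    MB P (fun v => f (B.symm (v + c))) := by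
  have two : (2 : F) = 0 := CharTwo.two_eq_zero
  have hs : ∀ x, f x ^ 2 = f x := by
    intro x
    rcases h01 x with h | h <;> rw [h] <;> norm_num
  refine ⟨fun v => hs _, ?_⟩
  intro a b hab
  obtain ⟨ha, hb, hne, hsec⟩ := hP a b hab
  funext v
  show f (B.symm (v + a + b + c)) + f (B.symm (v + a + c)) + (f (B.symm (v + b + c))
    + f (B.symm (v + c))) = 0
  have e1 : B.symm (v + a + b + c) = B.symm (v + c) + B.symm a + B.symm b := by
    rw [← map_add, ← map_add]
    congr 1
    ring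
  have e2 : B.symm (v + a + c) = B.symm (v + c) + B.symm a := by
    rw [← map_add]
    congr 1
    ring
  have e3 : B.symm (v + b + c) = B.symm (v + c) + B.symm b := by
    rw [← map_add]
    congr 1
    ring
  rw [e1, e2, e3]
  set p := B.symm (v + c) with hp
  set x := B.symm a with hx
  set y := B.symm b with hy
  have hBx : B x = a := B.apply_symm_apply a
  have hBy : B y = b := B.apply_symm_apply b
  have hx0 : x ≠ 0 := by
    intro h0
    rw [h0, map_zero] at hBx
    exact ha hBx.symm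
  have hy0 : y ≠ 0 := by
    intro h0
    rw [h0, map_zero] at hBy
    exact hb hBy.symm
  have hxy : x ≠ y := by
    intro h0
    apply hne
    rw [← hBx, ← hBy, h0]
  have h5 := apn_ne hapn hx0 hy0 hxy p
  have h6 : G (p + x + y) + G (p + x) + G (p + y) + G p =
      s + s * (f (p + x + y) + f (p + x) + f (p + y) + f p) := by
    have h7 := hsec (B p + c)
    have h8 := congrArg A h7
    have hAs : A (A.symm s) = s := A.apply_symm_apply s
    rw [hAs, map_add A, map_add A, map_add A] at h8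
    have g1 : B (p + x + y) + c = B p + c + a + b := by
      rw [map_add, map_add, hBx, hBy]; ring
    have g2 : B (p + x) + c = B p + c + a := by rw [map_add, hBx]; ring
    have g3 : B (p + y) + c = B p + c + b := by rw [map_add, hBy]; ring
    rw [hGs, hGs, hGs, hGs, hAB, hAB, hAB, hAB, g1, g2, g3]
    simp only [map_add C]
    linear_combination h8 + (2 * C p + C x + C y + 2 * d) * two
  rw [h6] at h5
  have h9 : (f (p + x + y) + f (p + x) + (f (p + y) + f p)) ^ 2 =
      f (p + x + y) + f (p + x) + (f (p + y) + f p) := by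
    rw [CharTwo.add_sq, CharTwo.add_sq, CharTwo.add_sq, hs, hs, hs, hs]
  rcases zero_or_one_of_sq h9 with h7 | h7
  · exact h7
  · exfalso
    apply h5
    have h8 : f (p + x + y) + f (p + x) + f (p + y) + f p = 1 := by rw [← h7]; ring
    rw [h8, mul_one, CharTwo.add_self_eq_zero]

end STEP88

open STEP88 in
/-- (STEP) -/
theorem stStep (B : StBool) : StStep := by
  intro n hn F _ _ hF u c s G₀ f G hG0 h01 hGs hapn
  classical
  have : CharP F 2 := charP_of_card_eq_prime_pow (p := 2) (f := n) (by simpa using hF)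
  have hn0 : NeZero n := ⟨by omega⟩
  have two : (2 : F) = 0 := CharTwo.two_eq_zero
  have htr : ∀ z : F, tr n z = 0 ∨ tr n z = 1 := fun z => zero_or_one_of_sq (tr_sq hF z)
  obtain ⟨A, B', C, c0, d, hAB⟩ := hG0
  by_cases hs0 : s = 0
  · refine ⟨![u 0, u 1, 0], ![c 0, c 1, 0], A, B', C, c0, d, fun x => ?_⟩
    rw [hGs, hs0, zero_mul, add_zero, hAB]
    congr 3
    unfold Fk
    rw [Fin.sum_univ_two, Fin.sum_univ_three]
    simp
  have hv : A.symm s ≠ 0 := by
    intro h0
    apply hs0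
    have := congrArg A h0
    rwa [AddEquiv.apply_symm_apply, map_zero] at this
  set v : F := A.symm s with hvdef
  have he : (v ^ 3)⁻¹ * v ^ 3 = 1 := inv_mul_cancel₀ (pow_ne_zero 3 hv)
  obtain ⟨c₁, c₂, hI, hspan⟩ := exists_ind (n := n) (by omega) hF hv he (c 0) (c 1)
  have hM : MB (Sp n v c₁ c₂) (fun x => f (B'.symm (x + c0))) := by
    refine toMBg A B' C c0 d hAB h01 hGs hapn _ ?_
    rintro a b ⟨hb1, hb2, hb3⟩
    have hb1' := hb1
    unfold Gold8.Bad at hb1'
    rw [pow_one] at hb1'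
    refine ⟨?_, ?_, ?_, ?_⟩
    · rintro rfl
      apply hv
      rw [← hb1']
      ring
    · rintro rfl
      apply hv
      rw [← hb1']
      ring
    · rintro rfl
      apply hv
      rw [← hb1']
      linear_combination (a ^ 3) * two
    · intro w
      rw [Fk_second, Fin.sum_univ_two, hb1', ← hvdef]
      have h0 := bcl_zero hF hv he hb1
      have h0' : tr n ((v ^ 3)⁻¹ * Rf a b) = 0 := by
        rw [← h0]
        congr 2
        unfold Rf
        ring
      obtain ⟨h1, h2⟩ := hspan (Rf a b) h0' hb2 hb3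
      rw [h1, h2, mul_zero, mul_zero, add_zero, add_zero]
  obtain ⟨c', e', l, hcv, hl⟩ := B n hn F hF v c₁ c₂ hv hI _ hM
  obtain ⟨L, hL⟩ := invol hF hcv
  have hAu : ∀ e : F, (e = 0 ∨ e = 1) → A (v * e) = s * e := by
    rintro e (rfl | rfl)
    · rw [mul_zero, mul_zero, map_zero]
    · rw [mul_one, mul_one, hvdef, AddEquiv.apply_symm_apply]
  have hLu : ∀ z e : F, (e = 0 ∨ e = 1) → L (z * e) = L z * e := by
    rintro z e (rfl | rfl)
    · rw [mul_zero, mul_zero, map_zero]
    · rw [mul_one, mul_one]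
  have hLL : ∀ z, L (L z) = z := by
    intro z
    rw [hL (L z), hL z]
    have h1 : tr n (c' * (z + v * tr n (c' * z))) = tr n (c' * z) := by
      rcases htr (c' * z) with h0 | h0
      · rw [h0, mul_zero, add_zero, h0]
      · rw [h0, mul_one, mul_add, tr_add, hcv, h0, add_zero]
    rw [h1, add_assoc, CharTwo.add_self_eq_zero, add_zero]
  have hLv : L v = v := by
    rw [hL, hcv, mul_zero, add_zero]
  have e1 : ∀ x, B'.symm (B' x + c0 + c0) = x := by
    intro x
    rw [add_assoc, CharTwo.add_self_eq_zero, add_zero, AddEquiv.symm_apply_apply]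
  have hs' : ∀ x, f x = tr n (c' * (B' x + c0) ^ 3) + tr n (e' * (B' x + c0) ^ 9) + l (B' x)
      + l c0 + f (B'.symm (0 + c0)) := by
    intro x
    have h1 := hl (B' x + c0)
    rw [e1, map_add] at h1
    rw [h1]
    ring
  have hkey : ∀ y : F, L (Fk n ![L (u 0), L (u 1), v] ![c 0, c 1, e'] y) =
      Fk n u c y + v * tr n (c' * y ^ 3) + v * tr n (e' * y ^ 9) := by
    intro y
    unfold Fk
    rw [Fin.sum_univ_three, Fin.sum_univ_two]
    simp only [Matrix.cons_val_zero, Matrix.cons_val_one, Matrix.cons_val]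
    rw [map_add, map_add, map_add, hLu _ _ (htr _), hLu _ _ (htr _), hLu _ _ (htr _), hLL, hLL,
      hLv, hL]
    ring
  refine ⟨![L (u 0), L (u 1), v], ![c 0, c 1, e'], L.trans A, B',
    C + (AddMonoidHom.mulLeft s).comp (l.comp B'.toAddMonoidHom), c0,
    d + s * (l c0 + f (B'.symm (0 + c0))), ?_⟩
  intro x
  rw [hGs, hAB]
  show A (Fk n u c (B' x + c0)) + C x + d + s * f x
    = A (L (Fk n ![L (u 0), L (u 1), v] ![c 0, c 1, e'] (B' x + c0))) + (C x + s * l (B' x))
      + (d + s * (l c0 + f (B'.symm (0 + c0))))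
  rw [hkey, map_add A, map_add A, hAu _ (htr _), hAu _ (htr _)]
  linear_combination s * hs' x


end Pool.Agent.Lib.MP_eacabd_co.Clo8
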