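import Pool.Agent.Lib.MP_eacabd_co.Clo8.STEP

/-!
Module SUF (helper88): the condition on the coefficients is sufficient.
-/

set_option autoImplicit false

namespace Pool.Agent.Lib.MP_eacabd_co.Clo8

open Finset Pool.Agent.Lib.MP_eacabd_co Pool.Agent.Lib.MP_eacabd_co.Gold8

namespace SUF88

variable {F : Type} [Field F]

theorem apn_of_second [Finite F] [CharP F 2] {G : F → F}
    (h : ∀ x y w : F, x ≠ 0 → y ≠ 0 → x ≠ y →
      G (w + x + y) + G (w + x) + G (w + y) + G w ≠ 0) : IsAPN G := by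
  intro a b ha
  by_contra hcon
  push Not at hcon
  rw [Set.two_lt_ncard_iff (Set.toFinite _)] at hcon
  obtain ⟨x, y, z, hx, hy, hz, hxy, hxz, hyz⟩ := hcon
  rw [Set.mem_ofPred_eq] at hx hy hz
  have key : ∀ p q : F, G (p + a) + G p = b → G (q + a) + G q = b → p ≠ q → p + q ≠ a → False := by
    intro p q hp hq hne hpq
    have h1 : p + q ≠ 0 := fun h0 => hne (CharTwo.add_eq_zero.mp h0)
    apply h a (p + q) p ha h1 hpq.symm
    have e1 : p + a + (p + q) = q + a := by
      rw [show p + a + (p + q) = (p + p) + (q + a) by ring, CharTwo.add_self_eq_zero, zero_add]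
    have e2 : p + (p + q) = q := by
      rw [← add_assoc, CharTwo.add_self_eq_zero, zero_add]
    rw [e1, e2]
    have h3 : G (q + a) + G q + (G (p + a) + G p) = 0 := by
      rw [hp, hq, CharTwo.add_self_eq_zero]
    rw [← h3]
    ring
  by_cases hs : x + y = a
  · refine key x z hx hz hxz fun h1 => hyz ?_
    exact add_left_cancel (hs.trans h1.symm)
  · exact key x y hx hy hxy hs

end SUF88

open SUF88 STEP88 in
/-- (SUF) -/
theorem stSuf : StSuf := by
  intro n hn F _ _ hF k u c hC
  classical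
  have : CharP F 2 := charP_of_card_eq_prime_pow (p := 2) (f := n) (by simpa using hF)
  have hn0 : NeZero n := ⟨by omega⟩
  have htr : ∀ z : F, tr n z = 0 ∨ tr n z = 1 := fun z => zero_or_one_of_sq (tr_sq hF z)
  refine apn_of_second ?_
  intro x y w hx hy hxy h0
  rw [Fk_second] at h0
  set S : Finset (Fin k) := univ.filter fun i => tr n (c i * Rf x y) = 1 with hS
  have h1 : ∑ i, u i * tr n (c i * Rf x y) = ∑ i ∈ S, u i := by
    rw [hS, Finset.sum_filter]
    refine Finset.sum_congr rfl fun i _ => ?_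
    rcases htr (c i * Rf x y) with h | h
    · rw [h, mul_zero, if_neg zero_ne_one]
    · rw [h, mul_one, if_pos rfl]
  rw [h1] at h0
  have h2 : x * y ^ 2 + x ^ 2 * y = ∑ i ∈ S, u i := CharTwo.add_eq_zero.mp h0
  have h3 : x * y ^ 2 + x ^ 2 * y ≠ 0 := by
    have e : x * y ^ 2 + x ^ 2 * y = x * y * (x + y) := by ring
    rw [e]
    refine mul_ne_zero (mul_ne_zero hx hy) fun h => hxy (CharTwo.add_eq_zero.mp h)
  have hne : S.Nonempty := by
    rw [Finset.nonempty_iff_ne_empty]
    intro h4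
    rw [h4, Finset.sum_empty] at h2
    exact h3 h2
  obtain ⟨T, hodd, hT⟩ := hC S hne
  rw [← h2] at hT
  have h5 := bcl_zero (n := n) hF h3 hT (a := x) (b := y) (by unfold Gold8.Bad; rw [pow_one])
  have h6 : tr n ((∑ i ∈ T, c i) * (x * y ^ 8 + x ^ 8 * y)) = ∑ i ∈ T, tr n (c i * Rf x y) := by
    have h7 : ∑ i ∈ T, tr n (c i * Rf x y) = tr n (∑ i ∈ T, c i * Rf x y) :=
      (map_sum (tau F n) _ _).symm
    rw [h7, ← Finset.sum_mul]
    congr 2
    unfold Rf
    ring
  rw [h6] at h5
  have h8 : ∑ i ∈ T, tr n (c i * Rf x y) = ((S ∩ T).card : F) := by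
    rw [Finset.card_eq_sum_ones, Nat.cast_sum, Finset.inter_comm, ← Finset.filter_mem_eq_inter,
      Finset.sum_filter]
    refine Finset.sum_congr rfl fun i _ => ?_
    rcases htr (c i * Rf x y) with h | h
    · rw [h, if_neg]
      rw [hS, Finset.mem_filter, h]
      exact fun h9 => zero_ne_one h9.2
    · rw [h, if_pos]
      · rw [Nat.cast_one]
      · rw [hS, Finset.mem_filter]
        exact ⟨Finset.mem_univ _, h⟩
  rw [h8] at h5
  obtain ⟨m, hm⟩ := hodd
  rw [hm, Nat.cast_add, Nat.cast_mul, Nat.cast_one, Nat.cast_two, CharTwo.two_eq_zero, zero_mul,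
    zero_add] at h5
  exact one_ne_zero h5


end Pool.Agent.Lib.MP_eacabd_co.Clo8
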