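import Pool.Agent.Lib.MP_eacabd_co.Clo8.StmtsC

/-!
The switching class of the cube function: the conditions as functions of one variable.
-/

set_option autoImplicit false

namespace Pool.Agent.Lib.MP_eacabd_co.Clo8

open Finset Pool.Agent.Lib.MP_eacabd_co Pool.Agent.Lib.MP_eacabd_co.Gold8

/-- the values of the bilinear form on a plane -/
theorem Rf_plane94 {F : Type} [Field F] [CharP F 2] {v a y : F} (ha : a ≠ 0)
    (h : a * a ^ 2 * (y ^ 2 + y) = v) :
    Rf a (a * y) = v * a ^ 6 + v ^ 2 * a ^ 3 + v ^ 4 * (a ^ 3)⁻¹ := by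
  have two : (2 : F) = 0 := CharTwo.two_eq_zero
  have e3 : y ^ 8 + y = (y ^ 2 + y) ^ 4 + (y ^ 2 + y) ^ 2 + (y ^ 2 + y) := by
    linear_combination (-(2 * y ^ 7) - 3 * y ^ 6 - 2 * y ^ 5 - y ^ 4 - y ^ 3 - y ^ 2) * two
  have e4 : Rf a (a * y) = a ^ 9 * (y ^ 8 + y) := by
    rw [Rf]
    ring
  rw [e4, e3, ← h]
  field_simp
  ring

theorem Ae_sq94 {n : ℕ} (hn : 1 ≤ n) {F : Type} [Field F] [Fintype F] [DecidableEq F] [CharP F 2]
    (hF : Fintype.card F = 2 ^ n) (v e : F) : Ae n v e ^ 2 = e * v * (1 + e * v ^ 3) := by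
  have h1 : ((e * v) ^ (2 ^ (n - 1))) ^ 2 = e * v := by
    rw [← pow_mul, ← pow_succ, show n - 1 + 1 = n by omega]
    exact pow_card' hF _
  rw [Ae, add_pow_two, h1, show (2 : F) = 0 from CharTwo.two_eq_zero]
  ring

theorem stTrR : StTrR := by
  intro n hn F _ _ _ _ hF v hv
  have hn0 : NeZero n := ⟨by omega⟩
  refine ⟨?_, ?_, ?_⟩
  · intro e a y ha hy
    have h1 : tr n (e * v * a ^ 6) = tr n ((e * v) ^ (2 ^ (n - 1)) * a ^ 3) := by
      have h2 := tr_two_pow hF ((e * v) ^ (2 ^ (n - 1)) * a ^ 3) 1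
      rw [← h2, pow_one, mul_pow, ← pow_mul, ← pow_succ, show n - 1 + 1 = n by omega,
        pow_card' hF, ← pow_mul]
    rw [Rf_plane94 ha hy, mul_add, mul_add, tr_add, tr_add, Ae, add_mul, tr_add]
    have e1 : e * (v * a ^ 6) = e * v * a ^ 6 := by ring
    have e2 : e * (v ^ 2 * a ^ 3) = e * v ^ 2 * a ^ 3 := by ring
    have e3 : e * (v ^ 4 * (a ^ 3)⁻¹) = e * v ^ 4 * (a ^ 3)⁻¹ := by ring
    rw [e1, e2, e3, h1]
  · intro e
    have h1 := Ae_sq94 hn hF v e
    have two : (2 : F) = 0 := CharTwo.two_eq_zero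
    constructor
    · intro h0
      rw [h0, zero_pow two_ne_zero, eq_comm, mul_eq_zero, mul_eq_zero] at h1
      rcases h1 with (h1 | h1) | h1
      · exact Or.inl h1
      · exact absurd h1 hv
      · right
        linear_combination h1 - two
    · intro h0
      have h2 : Ae n v e ^ 2 = 0 := by
        rw [h1]
        rcases h0 with h0 | h0
        · rw [h0]
          ring
        · rw [h0]
          linear_combination e * v * two
      exact pow_eq_zero_iff two_ne_zero |>.1 h2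
  · intro e e'
    rw [Ae, Ae, Ae, add_mul, add_pow_char_pow, add_mul]
    ring

end Pool.Agent.Lib.MP_eacabd_co.Clo8
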