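import Mathlib
import Pool.Agent.Lib.MP_eacabd_co.Clo8.BilC

/-!
The switching class of the cube: (TRI), alternating trilinear maps which vanish on the planes with
two additional conditions are zero.
-/

set_option autoImplicit false

namespace Pool.Agent.Lib.MP_eacabd_co.Clo8

open Finset Pool.Agent.Lib.MP_eacabd_co Pool.Agent.Lib.MP_eacabd_co.Gold8

theorem stTri (E : StElim) : StTri := by
  intro n hn F _ _ _ _ hF v c₁ c₂ hv hI T hT hbad
  have hn0 : NeZero n := ⟨by omega⟩
  have hE : ∀ c D : ℕ, 2 ≤ D → D ≠ 3 → 2 * D ≤ n → t T 100 (D + 100) c = 0 := by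
    intro c D h1 h2 h3
    have hV : VanS n v c₁ c₂ (fun j k => t T j k c) := by
      refine vanS_of (B := fun x y => cf (T x y) c) (g := fun e e' => t T e e' c)
        (fun x y => cf_eq hF hT x y c) (fun e e' => t_s12 hT e e' c) (fun e => t_alt hT e c) ?_
      intro a b hab
      unfold cf
      refine sum_eq_zero fun z _ => ?_
      rw [hbad a b hab, zero_mul]
    exact E n hn F hF v c₁ c₂ hv hI _ hV D h1 h2 h3
  have p1 : ∀ (m a b c : ℕ), t T (a + m * n) b c = t T a b c := by
    intro m a b c
    induction m with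
    | zero => rw [zero_mul, add_zero]
    | succ m ih => rw [← ih, add_mul, one_mul, ← add_assoc, t_per hF]
  have p2 : ∀ (m a b c : ℕ), t T a (b + m * n) c = t T a b c := by
    intro m a b c
    rw [t_s12 hT, p1, t_s12 hT]
  have shift : ∀ i d c : ℕ, 2 ≤ d → d ≠ 3 → 2 * d ≤ n → t T i (i + d) c = 0 := by
    intro i d c h1 h2 h3
    obtain ⟨s, hs⟩ : ∃ s, i + s = 100 + i * n := by
      refine ⟨100 + i * n - i, ?_⟩
      have : i ≤ i * n := Nat.le_mul_of_pos_right i (by omega)
      omega
    have h4 : t T i (i + d) c ^ (2 ^ s) = 0 := by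
      rw [t_pow hT, show i + d + s = d + 100 + i * n by omega, hs, p1, p2]
      exact hE _ d h1 h2 h3
    exact (pow_eq_zero_iff (by positivity)).1 h4
  have far : ∀ i j c : ℕ, i < j → j < n → j - i ≠ 1 → j - i ≠ 3 → j - i ≠ n - 1 →
      j - i ≠ n - 3 → t T i j c = 0 := by
    intro i j c h1 h2 h3 h4 h5 h6
    by_cases h7 : 2 * (j - i) ≤ n
    · have h8 := shift i (j - i) c (by omega) h4 h7
      rwa [show i + (j - i) = j by omega] at h8
    · have h8 := shift j (n - (j - i)) c (by omega) (by omega) (by omega)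
      rw [show j + (n - (j - i)) = i + 1 * n by omega, p2, t_s12 hT] at h8
      exact h8
  have near : ∀ i j c : ℕ, i < n → j < n → t T i j c ≠ 0 →
      (j = i + 1 ∨ i = j + 1 ∨ j = i + 3 ∨ i = j + 3 ∨ i + (n - 1) = j ∨ j + (n - 1) = i ∨
        i + (n - 3) = j ∨ j + (n - 3) = i) := by
    intro i j c hi hj hne
    rcases Nat.lt_trichotomy i j with h | h | h
    · by_contra hcon
      exact hne (far i j c h hj (by omega) (by omega) (by omega) (by omega))
    · exfalso
      apply hne
      rw [h, t_alt hT]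
    · by_contra hcon
      apply hne
      rw [t_s12 hT]
      exact far j i c h hi (by omega) (by omega) (by omega) (by omega)
  intro x y z
  refine eq_zero_of_t hF hT ?_ x y z
  intro i hi j hj k hk
  by_contra hne
  have n1 := near i j k hi hj hne
  have n2 := near j k i hj hk (by
    rw [t_s23 hT, t_s12 hT]
    exact hne)
  have n3 := near i k j hi hk (by
    rw [t_s23 hT]
    exact hne)
  omega

end Pool.Agent.Lib.MP_eacabd_co.Clo8
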