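import Mathlib
import Pool.Agent.Lib.MP_eacabd_co.Clo8.PERM

/-!
The switching class of the cube function: the exponent which isolates one coefficient
(module UNIQ).
-/

set_option autoImplicit false

namespace Pool.Agent.Lib.MP_eacabd_co.Clo8

open Finset Pool.Agent.Lib.MP_eacabd_co Pool.Agent.Lib.MP_eacabd_co.Gold8

namespace Uniq96

/-- odd parts and exponents -/
theorem split {x y u v : ℕ} (hu : u % 2 = 1) (hv : v % 2 = 1) (h : 2 ^ x * u = 2 ^ y * v) :
    x = y ∧ u = v := by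
  have key : ∀ {x y u v : ℕ}, x < y → u % 2 = 1 → 2 ^ x * u = 2 ^ y * v → False := by
    intro x y u v hxy hu h
    obtain ⟨t, rfl⟩ : ∃ t, y = x + 1 + t := ⟨y - (x + 1), by omega⟩
    rw [pow_add, pow_add, mul_assoc, mul_assoc] at h
    have h1 := Nat.eq_of_mul_eq_mul_left (by positivity : 0 < 2 ^ x) h
    omega
  rcases lt_trichotomy x y with h1 | h1 | h1
  · exact absurd (key h1 hu h) id
  · subst h1
    exact ⟨rfl, Nat.eq_of_mul_eq_mul_left (by positivity : 0 < 2 ^ x) h⟩
  · exact absurd (key h1 hv h.symm) id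

theorem pow_even {t : ℕ} (ht : 1 ≤ t) : 2 ^ t % 2 = 0 := by
  obtain ⟨s, rfl⟩ : ∃ s, t = s + 1 := ⟨t - 1, by omega⟩
  rw [pow_succ]
  omega

/-- two different powers of two have a sum which determines them -/
theorem two_two {x y z w : ℕ} (hxy : x < y) (hzw : z < w) (h : 2 ^ x + 2 ^ y = 2 ^ z + 2 ^ w) :
    x = z ∧ y = w := by
  obtain ⟨s, rfl⟩ : ∃ s, y = x + s := ⟨y - x, by omega⟩
  obtain ⟨t, rfl⟩ : ∃ t, w = z + t := ⟨w - z, by omega⟩
  have hs := pow_even (t := s) (by omega)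
  have ht := pow_even (t := t) (by omega)
  have h1 : 2 ^ x * (1 + 2 ^ s) = 2 ^ z * (1 + 2 ^ t) := by
    rw [mul_add, mul_add, mul_one, mul_one, ← pow_add, ← pow_add]; exact h
  obtain ⟨h2, h3⟩ := split (by omega) (by omega) h1
  have h4 : 2 ^ s = 2 ^ t := by omega
  have h5 : s = t := Nat.pow_right_injective (le_refl 2) h4
  omega

/-- a power of two is not a sum of two different powers -/
theorem one_two {x y z : ℕ} (hxy : x < y) : 2 ^ x + 2 ^ y ≠ 2 ^ z := by
  intro h
  obtain ⟨s, rfl⟩ : ∃ s, y = x + s := ⟨y - x, by omega⟩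
  have hs := pow_even (t := s) (by omega)
  have h1 : 2 ^ x * (1 + 2 ^ s) = 2 ^ z * 1 := by
    rw [mul_add, mul_one, mul_one, ← pow_add]; exact h
  obtain ⟨h2, h3⟩ := split (by omega) (by omega) h1
  have : 0 < 2 ^ s := by positivity
  omega

/-- a power of two is not a sum of three different powers -/
theorem one_three {x y w z : ℕ} (hxy : x < y) (hxw : x < w) : 2 ^ x + 2 ^ y + 2 ^ w ≠ 2 ^ z := by
  intro h
  obtain ⟨s, rfl⟩ : ∃ s, y = x + s := ⟨y - x, by omega⟩
  obtain ⟨t, rfl⟩ : ∃ t, w = x + t := ⟨w - x, by omega⟩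
  have hs := pow_even (t := s) (by omega)
  have ht := pow_even (t := t) (by omega)
  have h1 : 2 ^ x * (1 + 2 ^ s + 2 ^ t) = 2 ^ z * 1 := by
    rw [mul_add, mul_add, mul_one, mul_one, ← pow_add, ← pow_add]; exact h
  obtain ⟨h2, h3⟩ := split (by omega) (by omega) h1
  have h4 : 0 < 2 ^ s := by positivity
  have h5 : 0 < 2 ^ t := by positivity
  omega

/-- the three exponents of the first piece -/
theorem nat_triple {a b m d : ℕ} (ham : a ≤ m) (hmb : m < b) (hd : 102 ≤ d) (hd3 : d ≠ 103)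
    (h : 2 ^ a + 2 ^ b + 2 ^ 101 = 2 ^ d + 3 * 2 ^ m) : a = 100 ∧ m = 100 ∧ b = d := by
  have hab : a < b := by omega
  rcases lt_trichotomy a 101 with ha | ha | ha
  · -- `a` is the smallest exponent on the left side
    obtain ⟨s, rfl⟩ : ∃ s, b = a + s := ⟨b - a, by omega⟩
    obtain ⟨t, ht⟩ : ∃ t, 101 = a + t := ⟨101 - a, by omega⟩
    have hs := pow_even (t := s) (by omega)
    have htt := pow_even (t := t) (by omega)
    have hsp : 0 < 2 ^ s := by positivity
    have htp : 0 < 2 ^ t := by positivity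
    have hL : 2 ^ a + 2 ^ (a + s) + 2 ^ 101 = 2 ^ a * (1 + 2 ^ s + 2 ^ t) := by
      rw [ht, pow_add, pow_add]; ring
    rw [hL] at h
    rcases lt_trichotomy m d with hm | hm | hm
    · obtain ⟨r, rfl⟩ : ∃ r, d = m + r := ⟨d - m, by omega⟩
      have hr := pow_even (t := r) (by omega)
      have hR : 2 ^ (m + r) + 3 * 2 ^ m = 2 ^ m * (3 + 2 ^ r) := by
        rw [pow_add]; ring
      rw [hR] at h
      obtain ⟨h1, h2⟩ := split (by omega) (by omega) h
      subst h1
      -- `2 ^ s + 2 ^ t = 2 + 2 ^ r`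
      have h3 : 2 ^ s + 2 ^ t = 2 ^ 1 + 2 ^ r := by omega
      have hs1 : 1 ≤ s := by omega
      have ht1 : 1 ≤ t := by omega
      have hr1 : 2 ≤ r := by omega
      rcases lt_trichotomy s t with h4 | h4 | h4
      · obtain ⟨h5, h6⟩ := two_two h4 (by omega : 1 < r) h3
        omega
      · exfalso
        subst h4
        have h5 : 2 ^ s + 2 ^ s = 2 ^ (s + 1) := by rw [pow_succ]; ring
        rw [h5] at h3
        exact one_two (by omega : 1 < r) h3.symm
      · rw [add_comm] at h3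
        obtain ⟨h5, h6⟩ := two_two h4 (by omega : 1 < r) h3
        refine ⟨by omega, by omega, by omega⟩
    · exfalso
      subst hm
      have hR : 2 ^ m + 3 * 2 ^ m = 2 ^ (m + 2) * 1 := by
        rw [pow_add]; ring
      rw [hR] at h
      obtain ⟨h1, h2⟩ := split (by omega) (by omega) h
      omega
    · exfalso
      obtain ⟨r, rfl⟩ : ∃ r, m = d + r := ⟨m - d, by omega⟩
      have hr := pow_even (t := r) (by omega)
      have hR : 2 ^ d + 3 * 2 ^ (d + r) = 2 ^ d * (1 + 3 * 2 ^ r) := by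
        rw [pow_add]; ring
      rw [hR] at h
      obtain ⟨h1, h2⟩ := split (by omega) (by omega) h
      omega
  · exfalso
    subst ha
    obtain ⟨s, rfl⟩ : ∃ s, b = 102 + s := ⟨b - 102, by omega⟩
    obtain ⟨r, rfl⟩ : ∃ r, d = 102 + r := ⟨d - 102, by omega⟩
    obtain ⟨t, rfl⟩ : ∃ t, m = 101 + t := ⟨m - 101, by omega⟩
    have hL : 2 ^ 101 + 2 ^ (102 + s) + 2 ^ 101 = 2 ^ 101 * (2 + 2 * 2 ^ s) := by
      rw [pow_add]; ring
    have hR : 2 ^ (102 + r) + 3 * 2 ^ (101 + t) = 2 ^ 101 * (2 * 2 ^ r + 3 * 2 ^ t) := by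
      rw [pow_add, pow_add 2 101 t]; ring
    rw [hL, hR] at h
    have h1 := Nat.eq_of_mul_eq_mul_left (by positivity : 0 < 2 ^ 101) h
    -- `2 + 2 * 2 ^ s = 2 * 2 ^ r + 3 * 2 ^ t`
    rcases Nat.eq_zero_or_pos t with ht | ht
    · subst ht; omega
    obtain ⟨t, rfl⟩ : ∃ t', t = t' + 1 := ⟨t - 1, by omega⟩
    rw [pow_succ 2 t] at h1
    have h2 : 1 + 2 ^ s = 2 ^ r + 3 * 2 ^ t := by omega
    have hs : t ≤ s - 1 + 1 ∧ t + 1 ≤ s + 1 := ⟨by omega, by omega⟩
    rcases Nat.eq_zero_or_pos t with ht0 | ht0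
    · subst ht0
      -- `2 ^ s = 2 ^ r + 2`
      have h3 : 2 ^ 1 + 2 ^ r = 2 ^ s := by omega
      have hr1 : r ≠ 1 := by omega
      rcases Nat.eq_zero_or_pos r with hr | hr
      · subst hr
        rcases Nat.eq_zero_or_pos s with hs | hs
        · subst hs; omega
        · have := pow_even hs; omega
      · exact one_two (by omega : 1 < r) h3
    · have e1 := pow_even ht0
      have hs0 : 1 ≤ s := by omega
      have e2 := pow_even hs0
      rcases Nat.eq_zero_or_pos r with hr | hr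
      · subst hr
        have h3 : 2 ^ s = 3 * 2 ^ t := by omega
        obtain ⟨h4, h5⟩ := split (x := s) (y := t) (u := 1) (v := 3) (by omega) (by omega)
          (by rw [mul_one, h3]; ring)
        omega
      · have e3 := pow_even hr
        omega
  · exfalso
    obtain ⟨s, rfl⟩ : ∃ s, a = 102 + s := ⟨a - 102, by omega⟩
    obtain ⟨t, rfl⟩ : ∃ t, b = 102 + t := ⟨b - 102, by omega⟩
    obtain ⟨r, rfl⟩ : ∃ r, d = 102 + r := ⟨d - 102, by omega⟩
    obtain ⟨u, rfl⟩ : ∃ u, m = 102 + u := ⟨m - 102, by omega⟩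
    have hL : 2 ^ (102 + s) + 2 ^ (102 + t) + 2 ^ 101 = 2 ^ 101 * (2 * 2 ^ s + 2 * 2 ^ t + 1) := by
      rw [pow_add, pow_add]; ring
    have hR : 2 ^ (102 + r) + 3 * 2 ^ (102 + u) = 2 ^ 101 * (2 * 2 ^ r + 6 * 2 ^ u) := by
      rw [pow_add, pow_add 2 102 u]; ring
    rw [hL, hR] at h
    have h1 := Nat.eq_of_mul_eq_mul_left (by positivity : 0 < 2 ^ 101) h
    omega

/-- equality modulo `2 ^ n - 1` of small numbers -/
theorem cast_inj {n : ℕ} {u v : ℕ} (hu : u < 2 ^ n - 1) (hv : v < 2 ^ n - 1)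
    (h : (u : Gold8.R n) = (v : Gold8.R n)) : u = v := by
  have h1 := (ZMod.natCast_eq_natCast_iff' u v (2 ^ n - 1)).1 h
  rwa [Nat.mod_eq_of_lt hu, Nat.mod_eq_of_lt hv] at h1

theorem pw_nat {n : ℕ} {a : ℕ} (ha : a < n) :
    pw ((a : ℕ) : ZMod n) = ((2 ^ a : ℕ) : Gold8.R n) := by
  rw [pw, ZMod.val_natCast, Nat.mod_eq_of_lt ha]
  push_cast
  rfl

theorem pow_le {n a k : ℕ} (ha : a + k ≤ n) : 2 ^ k * 2 ^ a ≤ 2 ^ n := by
  rw [← pow_add]
  exact Nat.pow_le_pow_right (by norm_num) (by omega)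

theorem big {n : ℕ} (hn : 610 ≤ n) : 1024 ≤ 2 ^ n := by
  have : 2 ^ 10 ≤ 2 ^ n := Nat.pow_le_pow_right (by norm_num) (by omega)
  omega

theorem diff_ne_zero {n : ℕ} (hn : 610 ≤ n) {D : ℕ} (hD : 2 ≤ D) (hDn : 2 * D ≤ n) :
    pw (((D + 100 : ℕ) : ZMod n)) - pw (((101 : ℕ) : ZMod n)) ≠ 0 := by
  intro h
  rw [pw_nat (by omega), pw_nat (by omega)] at h
  have h1 := pow_le (n := n) (a := D + 100) (k := 2) (by omega)
  have h2 := pow_le (n := n) (a := 101) (k := 2) (by omega)
  have h0 := big hn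
  have h3 := cast_inj (by omega) (by omega) (sub_eq_zero.1 h)
  have h4 := Nat.pow_right_injective (le_refl 2) h3
  omega

theorem no_single {n : ℕ} [NeZero n] (hn : 610 ≤ n) {D : ℕ} (hD : 2 ≤ D) (hD3 : D ≠ 3)
    (hDn : 2 * D ≤ n) {c : ℤ} (hc : c = 3 ∨ c = -3) (x : ZMod n) :
    pw (((D + 100 : ℕ) : ZMod n)) - pw (((101 : ℕ) : ZMod n)) ≠ ((c : ℤ) : Gold8.R n) * pw x := by
  intro h
  have hx : x = ((x.val : ℕ) : ZMod n) := (ZMod.natCast_zmod_val x).symm
  have hxn := ZMod.val_lt x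
  generalize x.val = y at hx hxn
  subst hx
  rw [pw_nat (by omega), pw_nat (by omega), pw_nat hxn] at h
  have h1 := pow_le (n := n) (a := D + 100) (k := 3) (by omega)
  have h2 := pow_le (n := n) (a := 101) (k := 3) (by omega)
  have h0 := big hn
  have hlt : 2 ^ 101 < 2 ^ (D + 100) := Nat.pow_lt_pow_right (by norm_num) (by omega)
  rcases Nat.lt_or_ge y (n - 1) with hy | hy
  · have h3 := pow_le (n := n) (a := y) (k := 2) (by omega)
    have hyp : 0 < 2 ^ y := by positivity
    rcases hc with rfl | rfl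
    · have h4 : ((2 ^ (D + 100) : ℕ) : Gold8.R n) = ((2 ^ 101 + 3 * 2 ^ y : ℕ) : Gold8.R n) := by
        push_cast at h ⊢
        linear_combination h
      have h5 := cast_inj (by omega) (by omega) h4
      rcases lt_trichotomy y 101 with hy1 | hy1 | hy1
      · obtain ⟨t, ht⟩ : ∃ t, 101 = y + t := ⟨101 - y, by omega⟩
        have e1 := pow_even (t := t) (by omega)
        have e2 : 2 ^ y * (3 + 2 ^ t) = 2 ^ (D + 100) * 1 := by
          rw [h5, ht, pow_add]; ring
        obtain ⟨_, e3⟩ := split (by omega) (by omega) e2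
        omega
      · subst hy1
        have e2 : 2 ^ (D + 100) = 2 ^ 103 := by rw [h5]; norm_num
        have e3 := Nat.pow_right_injective (le_refl 2) e2
        omega
      · obtain ⟨t, rfl⟩ : ∃ t, y = 101 + t := ⟨y - 101, by omega⟩
        have e1 := pow_even (t := t) (by omega)
        have e2 : 2 ^ 101 * (1 + 3 * 2 ^ t) = 2 ^ (D + 100) * 1 := by
          rw [h5, pow_add 2 101 t]; ring
        obtain ⟨_, e3⟩ := split (by omega) (by omega) e2
        have e4 : 0 < 2 ^ t := by positivity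
        omega
    · have h4 : ((2 ^ (D + 100) + 3 * 2 ^ y : ℕ) : Gold8.R n) = ((2 ^ 101 : ℕ) : Gold8.R n) := by
        push_cast at h ⊢
        linear_combination h
      have h5 := cast_inj (by omega) (by omega) h4
      omega
  · have hy' : y = n - 1 := by omega
    subst hy'
    have hN : 2 * 2 ^ (n - 1) = 2 ^ n := by
      rw [← pow_succ']
      congr 1
      omega
    have hcast : ((2 ^ n : ℕ) : Gold8.R n) = 1 := by
      have h6 : 2 ^ n = (2 ^ n - 1) + 1 := by omega
      have h8 : ((2 ^ n : ℕ) : Gold8.R n) = (((2 ^ n - 1) + 1 : ℕ) : Gold8.R n) :=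
        congrArg (fun z : ℕ => (z : Gold8.R n)) h6
      rw [h8, Nat.cast_add, ZMod.natCast_self]
      simp
    have h3 : (3 : Gold8.R n) * ((2 ^ (n - 1) : ℕ) : Gold8.R n)
        = ((2 ^ (n - 1) + 1 : ℕ) : Gold8.R n) := by
      have h7 : ((2 * 2 ^ (n - 1) : ℕ) : Gold8.R n) = 1 := by rw [hN, hcast]
      push_cast at h7 ⊢
      linear_combination h7
    rcases hc with rfl | rfl
    · have h4 : ((2 ^ (D + 100) : ℕ) : Gold8.R n) = ((2 ^ 101 + (2 ^ (n - 1) + 1) : ℕ) : Gold8.R n) := by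
        push_cast at h h3 ⊢
        linear_combination h + h3
      have h5 := cast_inj (by omega) (by omega) h4
      omega
    · have h4 : ((2 ^ (D + 100) + (2 ^ (n - 1) + 1) : ℕ) : Gold8.R n)
          = ((2 ^ 101 : ℕ) : Gold8.R n) := by
        push_cast at h h3 ⊢
        linear_combination h - h3
      have h5 := cast_inj (by omega) (by omega) h4
      omega

theorem no_pair {n : ℕ} (hn : 610 ≤ n) {D : ℕ} (hD : 2 ≤ D) (hD3 : D ≠ 3)
    (hDn : 2 * D ≤ n) {a b : ℕ} (hab : a < b) (hb : b < n) :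
    pw (((D + 100 : ℕ) : ZMod n)) - pw (((101 : ℕ) : ZMod n))
      ≠ pw ((a : ℕ) : ZMod n) + pw ((b : ℕ) : ZMod n) := by
  intro h
  rw [pw_nat (by omega), pw_nat (by omega), pw_nat (by omega), pw_nat hb] at h
  have h1 := pow_le (n := n) (a := D + 100) (k := 3) (by omega)
  have h2 := pow_le (n := n) (a := 101) (k := 3) (by omega)
  have h3 := pow_le (n := n) (a := b) (k := 1) (by omega)
  have h3' := pow_le (n := n) (a := a) (k := 2) (by omega)
  have h0 := big hn
  have h4 : ((2 ^ (D + 100) : ℕ) : Gold8.R n) = ((2 ^ a + 2 ^ b + 2 ^ 101 : ℕ) : Gold8.R n) := by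
    push_cast at h ⊢
    linear_combination h
  have h5 := cast_inj (by omega) (by omega) h4
  rcases lt_trichotomy a 101 with ha | ha | ha
  · exact one_three hab ha h5.symm
  · subst ha
    have e1 : 2 ^ 102 + 2 ^ b = 2 ^ (D + 100) := by rw [h5]; ring
    rcases lt_trichotomy b 102 with hb2 | hb2 | hb2
    · omega
    · subst hb2
      have e2 : 2 ^ (D + 100) = 2 ^ 103 := by rw [← e1]; norm_num
      have e3 := Nat.pow_right_injective (le_refl 2) e2
      omega
    · exact one_two hb2 e1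
  · exact one_three (x := 101) (y := a) (w := b) (z := D + 100) ha (by omega)
      (by rw [h5]; ring)

theorem triple {n : ℕ} (hn : 610 ≤ n) {D : ℕ} (hD : 2 ≤ D) (hD3 : D ≠ 3)
    (hDn : 2 * D ≤ n) {a b m : ℕ} (ham : a ≤ m) (hmb : m < b) (hb : b < n)
    (h : pw (((D + 100 : ℕ) : ZMod n)) - pw (((101 : ℕ) : ZMod n))
      = -3 * pw ((m : ℕ) : ZMod n) + pw ((a : ℕ) : ZMod n) + pw ((b : ℕ) : ZMod n)) :
    a = 100 ∧ m = 100 ∧ b = D + 100 := by
  rw [pw_nat (by omega), pw_nat (by omega), pw_nat (by omega), pw_nat (by omega), pw_nat hb] at h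
  have h1 := pow_le (n := n) (a := D + 100) (k := 3) (by omega)
  have h2 := pow_le (n := n) (a := 101) (k := 3) (by omega)
  have h3 := pow_le (n := n) (a := b) (k := 1) (by omega)
  have h3' := pow_le (n := n) (a := a) (k := 2) (by omega)
  have h3'' := pow_le (n := n) (a := m) (k := 2) (by omega)
  have h0 := big hn
  have h4 : ((2 ^ a + 2 ^ b + 2 ^ 101 : ℕ) : Gold8.R n)
      = ((2 ^ (D + 100) + 3 * 2 ^ m : ℕ) : Gold8.R n) := by
    push_cast at h ⊢
    linear_combination -h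
  have h5 := cast_inj (by omega) (by omega) h4
  exact nat_triple ham hmb (by omega) (by omega) h5

/-- the possible distributions of four single pieces (values: 0 none, 1, 2, 3 targets, 4 no
piece), the pair belongs to no target -/
theorem cases_a {w₀ w₁ w₂ w₃ : ℕ} (h1 : w₀ = 1 ∨ w₁ = 1 ∨ w₂ = 1 ∨ w₃ = 1)
    (h2 : w₀ = 2 ∨ w₁ = 2 ∨ w₂ = 2 ∨ w₃ = 2) (h3 : w₀ = 3 ∨ w₁ = 3 ∨ w₂ = 3 ∨ w₃ = 3) :
    (w₃ = 0 ∧ ((w₀ = 1 ∧ w₁ = 2 ∧ w₂ = 3) ∨ (w₀ = 1 ∧ w₁ = 3 ∧ w₂ = 2) ∨
      (w₀ = 2 ∧ w₁ ≠ 2 ∧ w₂ ≠ 2) ∨ (w₀ = 3 ∧ w₁ ≠ 3 ∧ w₂ ≠ 3))) ∨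
    (w₃ ≠ 0 ∧ w₀ ≠ w₃ ∧ w₁ ≠ w₃ ∧ w₂ ≠ w₃) ∨ (w₃ ≠ 0 ∧ w₀ ≠ 0 ∧ w₁ ≠ 0 ∧ w₂ ≠ 0) := by
  rcases h1 with h1 | h1 | h1 | h1 <;> rcases h2 with h2 | h2 | h2 | h2 <;>
    rcases h3 with h3 | h3 | h3 | h3 <;> omega

/-- the pair belongs to the target `j` -/
theorem cases_b {j w₀ w₁ w₂ w₃ : ℕ} (hj : j ≠ 0) (hj4 : j < 4)
    (h1 : j = 1 ∨ w₀ = 1 ∨ w₁ = 1 ∨ w₂ = 1 ∨ w₃ = 1)
    (h2 : j = 2 ∨ w₀ = 2 ∨ w₁ = 2 ∨ w₂ = 2 ∨ w₃ = 2)
    (h3 : j = 3 ∨ w₀ = 3 ∨ w₁ = 3 ∨ w₂ = 3 ∨ w₃ = 3)
    (h0 : w₀ = 0 ∨ w₁ = 0 ∨ w₂ = 0 ∨ w₃ = 0) :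
    (w₀ ≠ j ∧ w₁ ≠ j ∧ w₂ ≠ j ∧ w₃ ≠ j) ∨ (w₀ = 0 ∧ w₁ ≠ 0 ∧ w₂ ≠ 0 ∧ w₃ ≠ 0) ∨
    (w₀ ≠ 0 ∧ w₁ = 0 ∧ w₂ ≠ 0 ∧ w₃ ≠ 0) ∨ (w₀ ≠ 0 ∧ w₁ ≠ 0 ∧ w₂ = 0 ∧ w₃ ≠ 0) ∨
    (w₀ ≠ 0 ∧ w₁ ≠ 0 ∧ w₂ ≠ 0 ∧ w₃ = 0) := by
  have hj' : j = 1 ∨ j = 2 ∨ j = 3 := by omega
  rcases hj' with rfl | rfl | rfl
  · rcases h2 with h2 | h2 | h2 | h2 | h2 <;> rcases h3 with h3 | h3 | h3 | h3 | h3 <;> omega
  · rcases h1 with h1 | h1 | h1 | h1 | h1 <;> rcases h3 with h3 | h3 | h3 | h3 | h3 <;> omega
  · rcases h1 with h1 | h1 | h1 | h1 | h1 <;> rcases h2 with h2 | h2 | h2 | h2 | h2 <;> omega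

theorem cast_inj_lt {n a b : ℕ} (ha : a < n) (hb : b < n)
    (h : ((a : ℕ) : ZMod n) = ((b : ℕ) : ZMod n)) : a = b := by
  have h1 := (ZMod.natCast_eq_natCast_iff' a b n).1 h
  rwa [Nat.mod_eq_of_lt ha, Nat.mod_eq_of_lt hb] at h1

/-- the number of the window of a piece: 0 none, 1, 2, 3 the targets, 4 no piece -/
def W (c : Fin 6 → ℤ) (ω : Fin 6 → Option (Fin 3)) (k : Fin 6) : ℕ :=
  if c k = 0 then 4 else match ω k with
    | none => 0
    | some j => j.val + 1

theorem W_zero {c : Fin 6 → ℤ} {ω : Fin 6 → Option (Fin 3)} {k : Fin 6} :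
    W c ω k = 0 ↔ ω k = none ∧ c k ≠ 0 := by
  unfold W
  by_cases h : c k = 0
  · simp [h]
  · rw [if_neg h]
    cases hk : ω k with
    | none => simp [h]
    | some j => simp

theorem W_succ {c : Fin 6 → ℤ} {ω : Fin 6 → Option (Fin 3)} {k : Fin 6} {j : Fin 3} :
    W c ω k = j.val + 1 ↔ ω k = some j ∧ c k ≠ 0 := by
  unfold W
  by_cases h : c k = 0
  · have := j.isLt
    simp only [h, if_true, ne_eq, not_true_eq_false, and_false, iff_false]
    omega
  · rw [if_neg h]
    cases hk : ω k with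
    | none => simp
    | some i => simp [h, Fin.ext_iff]

theorem W_lt {c : Fin 6 → ℤ} {ω : Fin 6 → Option (Fin 3)} {k : Fin 6} (h : c k ≠ 0) :
    W c ω k < 4 := by
  unfold W
  rw [if_neg h]
  cases hk : ω k with
  | none => simp
  | some i => have := i.isLt; simp only; omega

/-- a power of two is not divisible by three -/
theorem three {y : ℕ} : ¬ (3 : ℤ) ∣ 2 ^ y := by
  intro h
  have h1 := Int.prime_three.dvd_of_dvd_pow h
  norm_num at h1

theorem core {n : ℕ} [NeZero n] (hn : 610 ≤ n) {D s₁ s₂ : ℕ} (hD : 2 ≤ D) (hD3 : D ≠ 3)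
    (hDn : 2 * D ≤ n) (hs₁ : s₁ + 1 < n) (hs₂ : s₂ + 1 < n) {a b m : ℕ} (ham : a ≤ m)
    (hmb : m < b) (hbn : b < n) {q : Fin 6 → ZMod n} {c : Fin 6 → ℤ} {h : Fin 3 → ZMod n}
    {ω : Fin 6 → Option (Fin 3)} {X : Fin 3 → ZMod n} {ε : Fin 3 → ℤ}
    (hq3 : q 3 = ((m : ℕ) : ZMod n)) (hq4 : q 4 = ((a : ℕ) : ZMod n))
    (hq5 : q 5 = ((b : ℕ) : ZMod n)) (hc0 : c 0 = 0 ∨ c 0 = -3)
    (hc1 : c 1 = 0 ∨ c 1 = 3 ∨ c 1 = -3) (hc2 : c 2 = 0 ∨ c 2 = 3 ∨ c 2 = -3) (hc3 : c 3 = -3)
    (hc4 : c 4 = 1) (hc5 : c 5 = 1) (hX0 : X 0 = -1) (hX1 : X 1 = ((s₁ : ℕ) : ZMod n))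
    (hX2 : X 2 = ((s₂ : ℕ) : ZMod n)) (hε0 : ε 0 = -3) (hε1 : ε 1 = 3) (hε2 : ε 2 = 3)
    (hω1 : ∀ k k', q k = q k' → ω k = ω k')
    (hω2 : ∀ j, ε j * 2 ^ (X j - h j).val
        = ∑ k, if ω k = some j then c k * 2 ^ (q k - h j).val else 0)
    (hω3 : pw (((D + 100 : ℕ) : ZMod n)) - pw (((101 : ℕ) : ZMod n))
        = ∑ k, if ω k = none then ((c k : ℤ) : Gold8.R n) * pw (q k) else 0) :
    c 0 = -3 ∧ q 0 = -1 ∧ a = 100 ∧ b = D + 100 ∧ m = 100 ∧ c 1 = 3 ∧ c 2 = 3 ∧
      ((q 1 = ((s₁ : ℕ) : ZMod n) ∧ q 2 = ((s₂ : ℕ) : ZMod n)) ∨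
       (q 1 = ((s₂ : ℕ) : ZMod n) ∧ q 2 = ((s₁ : ℕ) : ZMod n))) := by
  have hε : ∀ j, ε j = 3 ∨ ε j = -3 := by
    intro j
    fin_cases j
    · exact Or.inr hε0
    · exact Or.inl hε1
    · exact Or.inl hε2
  have hc : ∀ k : Fin 6, k.val < 4 → c k = 0 ∨ c k = 3 ∨ c k = -3 := by
    intro k hk
    fin_cases k
    · rcases hc0 with h | h
      · exact Or.inl h
      · exact Or.inr (Or.inr h)
    · exact hc1
    · exact hc2
    · exact Or.inr (Or.inr hc3)
    · exact absurd hk (by decide)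
    · exact absurd hk (by decide)
  -- vanishing terms
  have hT0 : ∀ k, W c ω k ≠ 0 →
      (if ω k = none then ((c k : ℤ) : Gold8.R n) * pw (q k) else 0) = 0 := by
    intro k hk
    by_cases h1 : ω k = none
    · have h2 : c k = 0 := by
        by_contra h2
        exact hk (W_zero.2 ⟨h1, h2⟩)
      rw [if_pos h1, h2]
      simp
    · rw [if_neg h1]
  have hTj : ∀ k (j : Fin 3), W c ω k ≠ j.val + 1 →
      (if ω k = some j then c k * 2 ^ (q k - h j).val else 0) = 0 := by
    intro k j hk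
    by_cases h1 : ω k = some j
    · have h2 : c k = 0 := by
        by_contra h2
        exact hk (W_succ.2 ⟨h1, h2⟩)
      rw [if_pos h1, h2, zero_mul]
    · rw [if_neg h1]
  -- every window has a piece
  have hex : ∀ j : Fin 3, ∃ k, W c ω k = j.val + 1 := by
    intro j
    by_contra hno
    push Not at hno
    have h5 := hω2 j
    rw [sum_eq_zero (fun k _ => hTj k j (hno k))] at h5
    rcases mul_eq_zero.1 h5 with h6 | h6
    · rcases hε j with h7 | h7 <;> rw [h7] at h6 <;> norm_num at h6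
    · exact absurd h6 (by positivity)
  have hex0 : ∃ k, W c ω k = 0 := by
    by_contra hno
    push Not at hno
    rw [sum_eq_zero (fun k _ => hT0 k (hno k))] at hω3
    exact diff_ne_zero hn hD hDn hω3
  -- the two pieces with coefficient one stay together
  have hdv : ∀ (k : Fin 6) (j : Fin 3), k.val < 4 →
      (3 : ℤ) ∣ (if ω k = some j then c k * 2 ^ (q k - h j).val else 0) := by
    intro k j hk
    by_cases h1 : ω k = some j
    · rw [if_pos h1]
      apply Dvd.dvd.mul_right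
      rcases hc k hk with h2 | h2 | h2 <;> rw [h2] <;> norm_num
    · rw [if_neg h1]
      exact dvd_zero _
  have hdvε : ∀ j, (3 : ℤ) ∣ ε j * 2 ^ (X j - h j).val := by
    intro j
    apply Dvd.dvd.mul_right
    rcases hε j with h2 | h2 <;> rw [h2] <;> norm_num
  have hpair : ω 4 = ω 5 := by
    have key : ∀ j, ω 4 = some j ↔ ω 5 = some j := by
      intro j
      have h5 := hω2 j
      rw [Fin.sum_univ_six] at h5
      have e0 := hdv 0 j (by decide)
      have e1 := hdv 1 j (by decide)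
      have e2 := hdv 2 j (by decide)
      have e3 := hdv 3 j (by decide)
      have e4 := hdvε j
      constructor
      · intro h6
        by_contra h7
        rw [if_pos h6, if_neg h7, add_zero, hc4, one_mul] at h5
        refine three (y := (q 4 - h j).val) ?_
        rw [h5] at e4
        have := dvd_sub e4 (dvd_add (dvd_add (dvd_add e0 e1) e2) e3)
        simpa using this
      · intro h6
        by_contra h7
        rw [if_pos h6, if_neg h7, add_zero, hc5, one_mul] at h5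
        refine three (y := (q 5 - h j).val) ?_
        rw [h5] at e4
        have := dvd_sub e4 (dvd_add (dvd_add (dvd_add e0 e1) e2) e3)
        simpa using this
    cases h4 : ω 4 with
    | none =>
      cases h5 : ω 5 with
      | none => rfl
      | some j => exact absurd ((key j).2 h5) (by rw [h4]; simp)
    | some j => exact ((key j).1 h4).symm
  have hW45 : W c ω 5 = W c ω 4 := by
    unfold W
    rw [hc4, hc5, hpair]
  have hfin : ∀ v, (∃ k, W c ω k = v) → W c ω 0 = v ∨ W c ω 1 = v ∨ W c ω 2 = v ∨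
      W c ω 3 = v ∨ W c ω 4 = v := by
    rintro v ⟨k, hk⟩
    fin_cases k
    · exact Or.inl hk
    · exact Or.inr (Or.inl hk)
    · exact Or.inr (Or.inr (Or.inl hk))
    · exact Or.inr (Or.inr (Or.inr (Or.inl hk)))
    · exact Or.inr (Or.inr (Or.inr (Or.inr hk)))
    · exact Or.inr (Or.inr (Or.inr (Or.inr (hW45 ▸ hk))))
  have g0 := hfin 0 hex0
  have g1 := hfin 1 (hex 0)
  have g2 := hfin 2 (hex 1)
  have g3 := hfin 3 (hex 2)
  have l3 : W c ω 3 < 4 := W_lt (by rw [hc3]; norm_num)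
  have l4 : W c ω 4 < 4 := W_lt (by rw [hc4]; norm_num)
  -- a window with one single piece
  have only : ∀ (j : Fin 3) (k : Fin 6), k.val < 4 → W c ω k = j.val + 1 →
      (∀ k', k' ≠ k → W c ω k' ≠ j.val + 1) → c k = ε j ∧ q k = X j := by
    intro j k hk hkj hno
    have h5 := hω2 j
    rw [sum_eq_single k (fun k' _ hk' => hTj k' j (hno k' hk'))
      (fun h6 => absurd (mem_univ _) h6), if_pos (W_succ.1 hkj).1] at h5
    obtain ⟨h6, h7⟩ := single96 (hε j) (hc k hk) h5
    exact ⟨h6, (sub_left_injective (ZMod.val_injective n h7)).symm⟩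
  by_cases h4 : W c ω 4 = 0
  · rcases cases_a (w₀ := W c ω 0) (w₁ := W c ω 1) (w₂ := W c ω 2) (w₃ := W c ω 3)
      (by omega) (by omega) (by omega) with ⟨w3, hper⟩ | ⟨w3, w0, w1, w2⟩ | ⟨w3, w0, w1, w2⟩
    · have hcl : ∀ (w0 : W c ω 0 ≠ 0) (w1 : W c ω 1 ≠ 0) (w2 : W c ω 2 ≠ 0),
          a = 100 ∧ m = 100 ∧ b = D + 100 := by
        intro w0 w1 w2
        rw [Fin.sum_univ_six, hT0 0 w0, hT0 1 w1, hT0 2 w2, if_pos (W_zero.1 w3).1,
          if_pos (W_zero.1 h4).1, if_pos (W_zero.1 (hW45.trans h4)).1, hc3, hc4, hc5, hq3, hq4,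
          hq5] at hω3
        refine triple hn hD hD3 hDn ham hmb hbn ?_
        rw [hω3]
        push_cast
        ring
      have hne0 : ∀ k' : Fin 6, k' ≠ 0 → k' ≠ 1 → k' ≠ 2 → W c ω k' = 0 := by
        intro k' n0 n1 n2
        fin_cases k'
        · exact absurd rfl n0
        · exact absurd rfl n1
        · exact absurd rfl n2
        · exact w3
        · exact h4
        · exact hW45.trans h4
      rcases hper with ⟨w0, w1, w2⟩ | ⟨w0, w1, w2⟩ | ⟨w0, w1, w2⟩ | ⟨w0, w1, w2⟩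
      · obtain ⟨a1, a2, a3⟩ := hcl (by omega) (by omega) (by omega)
        have o0 := only 0 0 (by decide) w0 (fun k' hk' => by
          by_cases n1 : k' = 1
          · rw [n1, w1]; decide
          by_cases n2 : k' = 2
          · rw [n2, w2]; decide
          rw [hne0 k' hk' n1 n2]; exact (Nat.succ_ne_zero _).symm)
        have o1 := only 1 1 (by decide) w1 (fun k' hk' => by
          by_cases n1 : k' = 0
          · rw [n1, w0]; decide
          by_cases n2 : k' = 2
          · rw [n2, w2]; decide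
          rw [hne0 k' n1 hk' n2]; exact (Nat.succ_ne_zero _).symm)
        have o2 := only 2 2 (by decide) w2 (fun k' hk' => by
          by_cases n1 : k' = 0
          · rw [n1, w0]; decide
          by_cases n2 : k' = 1
          · rw [n2, w1]; decide
          rw [hne0 k' n1 n2 hk']; exact (Nat.succ_ne_zero _).symm)
        rw [hε0, hX0] at o0
        rw [hε1, hX1] at o1
        rw [hε2, hX2] at o2
        exact ⟨o0.1, o0.2, a1, a3, a2, o1.1, o2.1, Or.inl ⟨o1.2, o2.2⟩⟩
      · obtain ⟨a1, a2, a3⟩ := hcl (by omega) (by omega) (by omega)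
        have o0 := only 0 0 (by decide) w0 (fun k' hk' => by
          by_cases n1 : k' = 1
          · rw [n1, w1]; decide
          by_cases n2 : k' = 2
          · rw [n2, w2]; decide
          rw [hne0 k' hk' n1 n2]; exact (Nat.succ_ne_zero _).symm)
        have o1 := only 2 1 (by decide) w1 (fun k' hk' => by
          by_cases n1 : k' = 0
          · rw [n1, w0]; decide
          by_cases n2 : k' = 2
          · rw [n2, w2]; decide
          rw [hne0 k' n1 hk' n2]; exact (Nat.succ_ne_zero _).symm)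
        have o2 := only 1 2 (by decide) w2 (fun k' hk' => by
          by_cases n1 : k' = 0
          · rw [n1, w0]; decide
          by_cases n2 : k' = 1
          · rw [n2, w1]; decide
          rw [hne0 k' n1 n2 hk']; exact (Nat.succ_ne_zero _).symm)
        rw [hε0, hX0] at o0
        rw [hε2, hX2] at o1
        rw [hε1, hX1] at o2
        exact ⟨o0.1, o0.2, a1, a3, a2, o1.1, o2.1, Or.inr ⟨o1.2, o2.2⟩⟩
      · exfalso
        have o0 := only 1 0 (by decide) w0 (fun k' hk' => by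
          by_cases n1 : k' = 1
          · rw [n1]; exact w1
          by_cases n2 : k' = 2
          · rw [n2]; exact w2
          rw [hne0 k' hk' n1 n2]; exact (Nat.succ_ne_zero _).symm)
        rw [hε1] at o0
        rcases hc0 with h5 | h5 <;> rw [h5] at o0 <;> norm_num at o0
      · exfalso
        have o0 := only 2 0 (by decide) w0 (fun k' hk' => by
          by_cases n1 : k' = 1
          · rw [n1]; exact w1
          by_cases n2 : k' = 2
          · rw [n2]; exact w2
          rw [hne0 k' hk' n1 n2]; exact (Nat.succ_ne_zero _).symm)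
        rw [hε2] at o0
        rcases hc0 with h5 | h5 <;> rw [h5] at o0 <;> norm_num at o0
    · exfalso
      obtain ⟨j, hj⟩ : ∃ j : Fin 3, W c ω 3 = j.val + 1 :=
        ⟨⟨W c ω 3 - 1, by omega⟩, by simp only; omega⟩
      have o3 := only j 3 (by decide) hj (fun k' hk' => by
        fin_cases k'
        · rw [← hj]; exact w0
        · rw [← hj]; exact w1
        · rw [← hj]; exact w2
        · exact absurd rfl hk'
        · intro h5; rw [← hj] at h5; exact w3 (h5.symm.trans h4)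
        · intro h5; rw [← hj] at h5; exact w3 (h5.symm.trans (hW45.trans h4)))
      have hj0 : j = 0 := by
        have h5 := o3.1
        fin_cases j
        · rfl
        · exfalso
          have h6 : c 3 = ε 1 := h5
          rw [hc3, hε1] at h6
          norm_num at h6
        · exfalso
          have h6 : c 3 = ε 2 := h5
          rw [hc3, hε2] at h6
          norm_num at h6
      have h5 := o3.2
      rw [hj0, hX0, hq3, neg_one_cast96 (by omega)] at h5
      have := cast_inj_lt (by omega) (by omega) h5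
      omega
    · exfalso
      rw [Fin.sum_univ_six, hT0 0 w0, hT0 1 w1, hT0 2 w2, hT0 3 w3,
        if_pos (W_zero.1 h4).1, if_pos (W_zero.1 (hW45.trans h4)).1, hc4, hc5, hq4,
        hq5] at hω3
      refine no_pair hn hD hD3 hDn (lt_of_le_of_lt ham hmb) hbn ?_
      rw [hω3]
      push_cast
      ring
  · exfalso
    -- one single piece in no window
    have nos : ∀ k : Fin 6, k.val < 4 → W c ω k = 0 → (∀ k', k' ≠ k → W c ω k' ≠ 0) → False := by
      intro k hk hk0 hno
      rw [sum_eq_single k (fun k' _ hk' => hT0 k' (hno k' hk'))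
        (fun h6 => absurd (mem_univ _) h6), if_pos (W_zero.1 hk0).1] at hω3
      refine no_single hn hD hD3 hDn ?_ (q k) hω3
      rcases hc k hk with h5 | h5
      · exact absurd h5 (W_zero.1 hk0).2
      · exact h5
    have h5' : W c ω 5 ≠ 0 := by rw [hW45]; exact h4
    rcases cases_b (j := W c ω 4) (w₀ := W c ω 0) (w₁ := W c ω 1) (w₂ := W c ω 2)
      (w₃ := W c ω 3) h4 l4 (by omega) (by omega) (by omega) (by omega) with
      ⟨w0, w1, w2, w3⟩ | ⟨w0, w1, w2, w3⟩ | ⟨w0, w1, w2, w3⟩ | ⟨w0, w1, w2, w3⟩ |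
      ⟨w0, w1, w2, w3⟩
    · obtain ⟨j, hj⟩ : ∃ j : Fin 3, W c ω 4 = j.val + 1 :=
        ⟨⟨W c ω 4 - 1, by omega⟩, by simp only; omega⟩
      have h5 := hω2 j
      rw [Fin.sum_univ_six, hTj 0 j (by rw [← hj]; exact w0), hTj 1 j (by rw [← hj]; exact w1),
        hTj 2 j (by rw [← hj]; exact w2), hTj 3 j (by rw [← hj]; exact w3),
        if_pos (W_succ.1 hj).1, if_pos (W_succ.1 (hW45.trans hj)).1, hc4, hc5, one_mul,
        one_mul] at h5
      have hp1 : (0 : ℤ) < 2 ^ (X j - h j).val := by positivity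
      have hp2 : (0 : ℤ) < 2 ^ (q 4 - h j).val := by positivity
      have hp3 : (0 : ℤ) < 2 ^ (q 5 - h j).val := by positivity
      rcases hε j with h6 | h6
      · rw [h6] at h5
        -- the target
        obtain ⟨s, hsn, hXs⟩ : ∃ s : ℕ, s + 1 < n ∧ X j = ((s : ℕ) : ZMod n) := by
          have h7 : j = 0 ∨ j = 1 ∨ j = 2 := by
            fin_cases j <;> simp
          rcases h7 with rfl | rfl | rfl
          · rw [hε0] at h6; norm_num at h6
          · exact ⟨s₁, hs₁, hX1⟩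
          · exact ⟨s₂, hs₂, hX2⟩
        have h7 : 2 ^ (X j - h j).val + 2 ^ ((X j - h j).val + 1)
            = 2 ^ (q 4 - h j).val + 2 ^ (q 5 - h j).val := by
          have : (((2 ^ (X j - h j).val + 2 ^ ((X j - h j).val + 1) : ℕ) : ℤ))
              = ((2 ^ (q 4 - h j).val + 2 ^ (q 5 - h j).val : ℕ) : ℤ) := by
            push_cast
            rw [pow_succ]
            linarith
          exact_mod_cast this
        have hval : ∀ {y : ZMod n}, (y - h j).val = (X j - h j).val + 1 →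
            y = (((s + 1 : ℕ)) : ZMod n) := by
          intro y hy
          have e1 : y - h j = X j - h j + 1 := by
            rw [← ZMod.natCast_zmod_val (y - h j), hy, Nat.cast_add, ZMod.natCast_zmod_val]
            simp
          rw [Nat.cast_add, ← hXs, Nat.cast_one]
          linear_combination e1
        have hval' : ∀ {y : ZMod n}, (y - h j).val = (X j - h j).val →
            y = ((s : ℕ) : ZMod n) := by
          intro y hy
          rw [← hXs]
          exact sub_left_injective (ZMod.val_injective n hy)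
        rcases lt_trichotomy (q 4 - h j).val (q 5 - h j).val with h8 | h8 | h8
        · obtain ⟨h9, h10⟩ := two_two (Nat.lt_succ_self _) h8 h7
          have e1 := hval' h9.symm
          have e2 := hval h10.symm
          rw [hq4] at e1
          rw [hq5] at e2
          have e3 := cast_inj_lt (by omega) (by omega) e1
          have e4 := cast_inj_lt (by omega) (by omega) e2
          have e5 : m = a := by omega
          have e6 : ω 3 = ω 4 := hω1 3 4 (by rw [hq3, hq4, e5])
          apply w3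
          unfold W
          rw [hc3, hc4, e6]
          simp
        · have e1 : q 4 = q 5 := sub_left_injective (ZMod.val_injective n h8)
          rw [hq4, hq5] at e1
          have e2 := cast_inj_lt (by omega) (by omega) e1
          omega
        · rw [add_comm (2 ^ (q 4 - h j).val)] at h7
          obtain ⟨h9, h10⟩ := two_two (Nat.lt_succ_self _) h8 h7
          have e1 := hval' h9.symm
          have e2 := hval h10.symm
          rw [hq5] at e1
          rw [hq4] at e2
          have e3 := cast_inj_lt (by omega) (by omega) e1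
          have e4 := cast_inj_lt (by omega) (by omega) e2
          omega
      · rw [h6] at h5
        linarith
    · refine nos 0 (by decide) w0 (fun k' hk' => ?_)
      fin_cases k'
      · exact absurd rfl hk'
      · exact w1
      · exact w2
      · exact w3
      · exact h4
      · exact h5'
    · refine nos 1 (by decide) w1 (fun k' hk' => ?_)
      fin_cases k'
      · exact w0
      · exact absurd rfl hk'
      · exact w2
      · exact w3
      · exact h4
      · exact h5'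
    · refine nos 2 (by decide) w2 (fun k' hk' => ?_)
      fin_cases k'
      · exact w0
      · exact w1
      · exact absurd rfl hk'
      · exact w3
      · exact h4
      · exact h5'
    · refine nos 3 (by decide) w3 (fun k' hk' => ?_)
      fin_cases k'
      · exact w0
      · exact w1
      · exact w2
      · exact absurd rfl hk'
      · exact h4
      · exact h5'

end Uniq96

open Uniq96 in
/-- (UNIQ) -/
theorem stUniq (I : StIsl) : StUniq := by
  intro n _ hn D s₁ s₂ hD hD3 hDn hs₁ hs₂ δ₀ δ₁ δ₂ x₀ x₁ x₂ a b m h₀ h₁ h₂ ham hmb hbn hrel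
  have hneg : (-1 : ZMod n) = ((n - 1 : ℕ) : ZMod n) := neg_one_cast96 (by omega)
  have f12 := far_nat96 (n := n) (a := s₁) (b := s₂) (by omega) (by omega)
  have f1n := far_nat96 (n := n) (a := s₁) (b := n - 1) (by omega) (by omega)
  have f2n := far_nat96 (n := n) (a := s₂) (b := n - 1) (by omega) (by omega)
  have fa1 := far_nat96 (n := n) (a := D + 100) (b := s₁) (by omega) (by omega)
  have fa2 := far_nat96 (n := n) (a := D + 100) (b := s₂) (by omega) (by omega)
  have fan := far_nat96 (n := n) (a := D + 100) (b := n - 1) (by omega) (by omega)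
  have fb1 := far_nat96 (n := n) (a := 101) (b := s₁) (by omega) (by omega)
  have fb2 := far_nat96 (n := n) (a := 101) (b := s₂) (by omega) (by omega)
  have fbn := far_nat96 (n := n) (a := 101) (b := n - 1) (by omega) (by omega)
  rw [← hneg] at f1n f2n fan fbn
  obtain ⟨h, ω, hω1, hω2, hω3⟩ := I n hn 3 (Fin 6) (Fin 2)
    ![-1, ((s₁ : ℕ) : ZMod n), ((s₂ : ℕ) : ZMod n)] ![-3, 3, 3]
    ![((D + 100 : ℕ) : ZMod n), ((101 : ℕ) : ZMod n)] ![1, -1]
    ![x₀, x₁, x₂, ((m : ℕ) : ZMod n), ((a : ℕ) : ZMod n), ((b : ℕ) : ZMod n)]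
    ![δ₀, δ₁, δ₂, -3, 1, 1] (by decide) (by decide) (by
      intro k
      fin_cases k
      · show |δ₀| ≤ 4
        rcases h₀ with h | h <;> rw [h] <;> norm_num
      · show |δ₁| ≤ 4
        rcases h₁ with h | h | h <;> rw [h] <;> norm_num
      · show |δ₂| ≤ 4
        rcases h₂ with h | h | h <;> rw [h] <;> norm_num
      · show |(-3 : ℤ)| ≤ 4
        norm_num
      · show |(1 : ℤ)| ≤ 4
        norm_num
      · show |(1 : ℤ)| ≤ 4
        norm_num) (by simp) (by simp) (by
      intro i j hij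
      fin_cases i <;> fin_cases j <;>
        first
          | exact absurd rfl hij
          | exact f12.1
          | exact f12.2
          | exact f1n.1
          | exact f1n.2
          | exact f2n.1
          | exact f2n.2) (by
      intro i j
      fin_cases i <;> fin_cases j <;>
        first
          | exact fa1.2
          | exact fa2.2
          | exact fan.2
          | exact fb1.2
          | exact fb2.2
          | exact fbn.2) (by
      rw [Fin.sum_univ_three, Fin.sum_univ_two, Fin.sum_univ_six]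
      simp only [Matrix.cons_val_zero, Matrix.cons_val_one, Matrix.cons_val]
      push_cast at hrel ⊢
      linear_combination hrel)
  refine core hn hD hD3 hDn (s₁ := s₁) (s₂ := s₂) (by omega) (by omega) ham hmb hbn
    (q := ![x₀, x₁, x₂, ((m : ℕ) : ZMod n), ((a : ℕ) : ZMod n), ((b : ℕ) : ZMod n)])
    (c := ![δ₀, δ₁, δ₂, -3, 1, 1]) (h := h) (ω := ω)
    (X := ![-1, ((s₁ : ℕ) : ZMod n), ((s₂ : ℕ) : ZMod n)]) (ε := ![-3, 3, 3])
    rfl rfl rfl h₀ h₁ h₂ rfl rfl rfl rfl rfl rfl rfl rfl rfl hω1 hω2 ?_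
  rw [← hω3, Fin.sum_univ_two]
  simp only [Matrix.cons_val_zero, Matrix.cons_val_one]
  push_cast
  ring

end Pool.Agent.Lib.MP_eacabd_co.Clo8
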