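import Mathlib
import Pool.Agent.Lib.MP_eacabd_co.Clo8.UNIQ
import Pool.Agent.Lib.MP_eacabd_co.Clo8.EXIST
import Pool.Agent.Lib.MP_eacabd_co.Clo8.PERM
import Pool.Agent.Lib.MP_eacabd_co.Clo8.MOORE
import Pool.Agent.Lib.MP_eacabd_co.Clo8.TRR
import Pool.Agent.Lib.MP_eacabd_co.Clo8.ElimC
import Pool.Agent.Lib.MP_eacabd_co.Clo8.BilC
import Pool.Agent.Lib.MP_eacabd_co.Clo8.TriC
import Pool.Agent.Lib.MP_eacabd_co.Clo8.BoolC
import Pool.Agent.Lib.MP_eacabd_co.Clo8.STEP
import Pool.Agent.Lib.MP_eacabd_co.Clo8.RED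
import Pool.Agent.Lib.MP_eacabd_co.Clo8.CHAR
import Pool.Agent.Lib.MP_eacabd_co.Clo8.SUF
import Pool.Agent.Lib.MP_eacabd_co.Clo8.Class
import Pool.Agent.Lib.MP_eacabd_co.Clo8.FamC
import Pool.Agent.Lib.MP_eacabd_co.Clo8.FINAL

/-!
The switching class of the cube function: the theorem.
-/

set_option autoImplicit false

namespace Pool.Agent.Lib.MP_eacabd_co.Clo8

open Finset Pool.Agent.Lib.MP_eacabd_co Pool.Agent.Lib.MP_eacabd_co.Gold8

theorem elimC : StElim := stElim (stUniq stIsl) stMoore2 stTrR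

theorem existC : StExist := stExist (stPerm stIsl) stMoore3 stTrR

theorem boolC : StBool := stBool (stBil elimC) (stTri elimC) existC

/-- the switching class of the cube function -/
theorem cubeClosure : StFinal :=
  stFinal (stStep boolC) (stChar existC) stSuf stRed stClass stFam

section More

variable {F : Type} [Field F] [Fintype F]

/-- functions obtained from the cube by any number of steps are APN -/
theorem apn_closure {n : ℕ} (hn : 1 ≤ n) (hF : Fintype.card F = 2 ^ n) {G : F → F}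
    (hG : Relation.ReflTransGen Step (fun x => x ^ 3) G) : IsAPN G := by
  have hchar : CharP F 2 := charP_of_card_eq_prime_pow (p := 2) (f := n) (by simpa using hF)
  induction hG with
  | refl =>
    have h1 := stSuf n hn F hF 0 ![] ![] (by
      intro S hS
      obtain ⟨i, _⟩ := hS
      exact i.elim0)
    have h2 : Fk n (![] : Fin 0 → F) ![] = fun x => x ^ 3 := by
      funext x
      unfold Fk
      simp
    rwa [h2] at h1
  | tail _ h1 ih =>
    rcases h1 with h1 | h1
    · exact Wide8.BrAux.apn_of_sid (Wide8.BrAux.sid_ccz (Wide8.BrAux.ccz_of_ea h1)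
        (Wide8.BrAux.sid_of_apn ih))
    · exact h1.1

/-- functions EA-equivalent to a known function have constant second derivatives -/
theorem deg_known {n : ℕ} (hn : 1 ≤ n) (hF : Fintype.card F = 2 ^ n) {G H : F → F}
    (hH : Known n H) (hG : EA G H) : DegLeTwo G := by
  classical
  have hchar : CharP F 2 := charP_of_card_eq_prime_pow (p := 2) (f := n) (by simpa using hF)
  have two : (2 : F) = 0 := CharTwo.two_eq_zero
  obtain ⟨u₁, u₂, c₁, c₂, _, _, _, rfl⟩ := (stFam n hn F hF).2 H hH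
  obtain ⟨A, B, C, c, d, hAB⟩ := hG
  have hS : ∀ w x y : F, G (w + x + y) + G (w + x) + G (w + y) + G w
      = A ((B x * B y ^ 2 + B x ^ 2 * B y) + ∑ i, ![u₁, u₂] i * tr n (![c₁, c₂] i *
        Rf (B x) (B y))) := by
    intro w x y
    rw [← STEP88.Fk_second n ![u₁, u₂] ![c₁, c₂] (B w + c) (B x) (B y), map_add A, map_add A,
      map_add A, hAB, hAB, hAB, hAB, map_add B, map_add B, map_add B, map_add C, map_add C,
      map_add C, show B w + B x + B y + c = B w + c + B x + B y by ring,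
      show B w + B x + c = B w + c + B x by ring, show B w + B y + c = B w + c + B y by ring]
    linear_combination (C w * 2 + C x + C y + 2 * d) * two
  intro w x y z
  have i1 := hS w x y
  have i2 := hS (w + z) x y
  rw [← i1, show w + z + x + y = w + x + y + z by ring, show w + z + x = w + x + z by ring,
    show w + z + y = w + y + z by ring] at i2
  linear_combination i2 + (G (w + x + y) + G (w + x) + G (w + y) + G w) * two

/-- functions obtained from the cube by any number of steps are quadratic -/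
theorem quad_closure {n : ℕ} (hn : 610 ≤ n) (hF : Fintype.card F = 2 ^ n) {G : F → F}
    (hG : Relation.ReflTransGen Step (fun x => x ^ 3) G) : IsQuadratic G ∧ ¬ PropN G := by
  classical
  have hchar : CharP F 2 := charP_of_card_eq_prime_pow (p := 2) (f := n) (by simpa using hF)
  obtain ⟨H, hH, hE⟩ := (cubeClosure n hn F hF G).1 hG
  have hq : IsQuadratic G := by
    refine ⟨deg_known (by omega) hF hH hE, fun h1 => ?_⟩
    have hapn := apn_closure (by omega) hF hG
    obtain ⟨y, hy⟩ : ∃ y : F, y ∉ ({0, 1} : Finset F) := by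
      by_contra hcon
      push Not at hcon
      have h4 : Fintype.card F ≤ ({0, 1} : Finset F).card :=
        Finset.card_le_card (fun v _ ↦ hcon v)
      have h5 : ({0, 1} : Finset F).card ≤ 2 := Finset.card_le_two
      have h6 : 2 ^ 5 ≤ 2 ^ n := Nat.pow_le_pow_right (by norm_num) (by omega)
      rw [hF] at h4
      omega
    rw [Finset.mem_insert, Finset.mem_singleton] at hy
    push Not at hy
    exact apn_ne hapn one_ne_zero hy.1 (Ne.symm hy.2) 0 (h1 0 1 y)
  exact ⟨hq, fun hN => hN.2 G hq (Wide8.BrAux.ccz_refl G)⟩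

omit [Fintype F] in
/-- scaling: `f_a (x) = a⁻¹ f_1 (b x)`, `a = b ^ 3` -/
theorem scale_ea {Φ : F → F → F} {a b : F} (ha : a ≠ 0) (hb : b ^ 3 = a)
    (h : ∀ x, Φ a x = a⁻¹ * Φ 1 (b * x)) : EA (Φ a) (Φ 1) := by
  have hb0 : b ≠ 0 := by
    rintro rfl
    apply ha
    rw [← hb]
    ring
  have hi : a⁻¹ ≠ 0 := inv_ne_zero ha
  refine ⟨⟨⟨fun x => a⁻¹ * x, fun x => a * x, fun x => by field_simp, fun x => by field_simp⟩,
    fun x y => mul_add _ _ _⟩, ⟨⟨fun x => b * x, fun x => b⁻¹ * x, fun x => by field_simp,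
    fun x => by field_simp⟩, fun x y => mul_add _ _ _⟩, 0, 0, 0, fun x => ?_⟩
  show Φ a x = a⁻¹ * Φ 1 (b * x + 0) + 0 + 0
  rw [add_zero, add_zero, add_zero]
  exact h x

/-- **The switching class of the cube function** -/
theorem cube_class_all {n : ℕ} (hn : 610 ≤ n) (hF : Fintype.card F = 2 ^ n) (G : F → F) :
    (Relation.ReflTransGen Step (fun x => x ^ 3) G ↔
      EA G (fun x => x ^ 3) ∨ ∃ a : F, (a = 1 ∨ ∀ b : F, b ^ 3 ≠ a) ∧
        (EA G (fun x => x ^ 3 + a⁻¹ * Tr n (a ^ 3 * x ^ 9)) ∨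
          3 ∣ n ∧ (EA G (fun x => x ^ 3 + a⁻¹ * Tr3 n (a ^ 3 * x ^ 9 + a ^ 6 * x ^ 18)) ∨
            EA G (fun x => x ^ 3 + a⁻¹ * Tr3 n (a ^ 6 * x ^ 18 + a ^ 12 * x ^ 36))))) ∧
    (Relation.ReflTransGen Step (fun x => x ^ 3) G → IsQuadratic G ∧ ¬ PropN G) := by
  refine ⟨?_, quad_closure hn hF⟩
  rw [cubeClosure n hn F hF G]
  constructor
  · rintro ⟨H, hH, hE⟩
    rcases hH with rfl | ⟨a, ha, rfl⟩ | ⟨h3, a, ha, rfl⟩ | ⟨h3, a, ha, rfl⟩
    · exact Or.inl hE
    · right
      by_cases hb : ∃ b : F, b ^ 3 = a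
      · obtain ⟨b, hb⟩ := hb
        refine ⟨1, Or.inl rfl, Or.inl (hE.trans ?_)⟩
        refine scale_ea (Φ := fun a x => x ^ 3 + a⁻¹ * Tr n (a ^ 3 * x ^ 9)) ha hb fun x => ?_
        have e1 : a ^ 3 * x ^ 9 = (b * x) ^ 9 := by
          rw [← hb]
          ring
        have e3 : (b * x) ^ 3 = a * x ^ 3 := by
          rw [← hb]
          ring
        simp only [one_pow, inv_one, one_mul]
        rw [e1, e3, mul_add, ← mul_assoc, inv_mul_cancel₀ ha, one_mul]
      · push Not at hb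
        exact ⟨a, Or.inr hb, Or.inl hE⟩
    · right
      by_cases hb : ∃ b : F, b ^ 3 = a
      · obtain ⟨b, hb⟩ := hb
        refine ⟨1, Or.inl rfl, Or.inr ⟨h3, Or.inl (hE.trans ?_)⟩⟩
        refine scale_ea (Φ := fun a x => x ^ 3 + a⁻¹ * Tr3 n (a ^ 3 * x ^ 9 + a ^ 6 * x ^ 18))
          ha hb fun x => ?_
        have e1 : a ^ 3 * x ^ 9 + a ^ 6 * x ^ 18 = (b * x) ^ 9 + (b * x) ^ 18 := by
          rw [← hb]
          ring
        have e3 : (b * x) ^ 3 = a * x ^ 3 := by
          rw [← hb]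
          ring
        simp only [one_pow, inv_one, one_mul]
        rw [e1, e3, mul_add, ← mul_assoc, inv_mul_cancel₀ ha, one_mul]
      · push Not at hb
        exact ⟨a, Or.inr hb, Or.inr ⟨h3, Or.inl hE⟩⟩
    · right
      by_cases hb : ∃ b : F, b ^ 3 = a
      · obtain ⟨b, hb⟩ := hb
        refine ⟨1, Or.inl rfl, Or.inr ⟨h3, Or.inr (hE.trans ?_)⟩⟩
        refine scale_ea (Φ := fun a x => x ^ 3 + a⁻¹ * Tr3 n (a ^ 6 * x ^ 18 + a ^ 12 * x ^ 36))
          ha hb fun x => ?_
        have e1 : a ^ 6 * x ^ 18 + a ^ 12 * x ^ 36 = (b * x) ^ 18 + (b * x) ^ 36 := by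
          rw [← hb]
          ring
        have e3 : (b * x) ^ 3 = a * x ^ 3 := by
          rw [← hb]
          ring
        simp only [one_pow, inv_one, one_mul]
        rw [e1, e3, mul_add, ← mul_assoc, inv_mul_cancel₀ ha, one_mul]
      · push Not at hb
        exact ⟨a, Or.inr hb, Or.inr ⟨h3, Or.inr hE⟩⟩
  · rintro (h | ⟨a, ha, h⟩)
    · exact ⟨_, Or.inl rfl, h⟩
    · have ha0 : a ≠ 0 := by
        rcases ha with rfl | ha
        · exact one_ne_zero
        · rintro rfl
          exact ha 0 (by ring)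
      rcases h with h | ⟨h3, h | h⟩
      · exact ⟨_, Or.inr (Or.inl ⟨a, ha0, rfl⟩), h⟩
      · exact ⟨_, Or.inr (Or.inr (Or.inl ⟨h3, a, ha0, rfl⟩)), h⟩
      · exact ⟨_, Or.inr (Or.inr (Or.inr ⟨h3, a, ha0, rfl⟩)), h⟩

end More

end Pool.Agent.Lib.MP_eacabd_co.Clo8
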