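import Pool.Agent.Lib.MP_eacabd_co.Clo8.StmtsC

/-!
Module RED (helper88): the sum `x ^ 3 + ∑ u i * tr (c i * x ^ 9)` can be shortened until both
families are independent over the prime field.
-/

set_option autoImplicit false

namespace Pool.Agent.Lib.MP_eacabd_co.Clo8

open Finset Pool.Agent.Lib.MP_eacabd_co Pool.Agent.Lib.MP_eacabd_co.Gold8

namespace RED88

variable {F : Type} [Field F] [CharP F 2]

theorem tr_add' (n : ℕ) (x y : F) : tr n (x + y) = tr n x + tr n y := (tau F n).map_add x y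

theorem solve_one {k : ℕ} (u : Fin (k + 1) → F) (S : Finset (Fin (k + 1))) (i₀ : Fin (k + 1))
    (h0 : i₀ ∈ S) (hS : ∑ i ∈ S, u i = 0) :
    u i₀ = ∑ j, if i₀.succAbove j ∈ S then u (i₀.succAbove j) else 0 := by
  have h1 : ∑ i ∈ S, u i = ∑ i, if i ∈ S then u i else 0 := by
    rw [← Finset.sum_filter, Finset.filter_mem_eq_inter, Finset.univ_inter]
  rw [h1, Fin.sum_univ_succAbove _ i₀, if_pos h0] at hS
  exact CharTwo.add_eq_zero.mp hS

theorem step_u (n : ℕ) {k : ℕ} (u c : Fin (k + 1) → F) (S : Finset (Fin (k + 1)))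
    (i₀ : Fin (k + 1)) (h0 : i₀ ∈ S) (hS : ∑ i ∈ S, u i = 0) :
    Fk n u c = Fk n (fun j => u (i₀.succAbove j))
      (fun j => c (i₀.succAbove j) + if i₀.succAbove j ∈ S then c i₀ else 0) := by
  funext x
  unfold Fk
  congr 1
  rw [Fin.sum_univ_succAbove _ i₀, solve_one u S i₀ h0 hS, Finset.sum_mul, ← Finset.sum_add_distrib]
  refine Finset.sum_congr rfl fun j _ => ?_
  beta_reduce
  by_cases hj : i₀.succAbove j ∈ S
  · rw [if_pos hj, if_pos hj, add_mul, tr_add', mul_add, add_comm]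
  · rw [if_neg hj, if_neg hj, zero_mul, zero_add, add_zero]

theorem step_c (n : ℕ) {k : ℕ} (u c : Fin (k + 1) → F) (S : Finset (Fin (k + 1)))
    (i₀ : Fin (k + 1)) (h0 : i₀ ∈ S) (hS : ∑ i ∈ S, c i = 0) :
    Fk n u c = Fk n (fun j => u (i₀.succAbove j) + if i₀.succAbove j ∈ S then u i₀ else 0)
      (fun j => c (i₀.succAbove j)) := by
  funext x
  unfold Fk
  congr 1
  have h1 : tr n (c i₀ * x ^ 9) =
      ∑ j, if i₀.succAbove j ∈ S then tr n (c (i₀.succAbove j) * x ^ 9) else 0 := by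
    rw [solve_one c S i₀ h0 hS, Finset.sum_mul]
    have h2 : tr n (∑ j, (if i₀.succAbove j ∈ S then c (i₀.succAbove j) else 0) * x ^ 9) =
        ∑ j, tr n ((if i₀.succAbove j ∈ S then c (i₀.succAbove j) else 0) * x ^ 9) :=
      map_sum (tau F n) _ _
    rw [h2]
    refine Finset.sum_congr rfl fun j _ => ?_
    by_cases hj : i₀.succAbove j ∈ S
    · rw [if_pos hj, if_pos hj]
    · rw [if_neg hj, if_neg hj, zero_mul]
      exact (tau F n).map_zero
  rw [Fin.sum_univ_succAbove _ i₀, h1, Finset.mul_sum, ← Finset.sum_add_distrib]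
  refine Finset.sum_congr rfl fun j _ => ?_
  beta_reduce
  by_cases hj : i₀.succAbove j ∈ S
  · rw [if_pos hj, if_pos hj, add_mul, add_comm]
  · rw [if_neg hj, if_neg hj, mul_zero, zero_add, add_zero]

end RED88

theorem stRed : StRed := by
  intro F _ _ n k
  induction k with
  | zero =>
    intro u c
    refine ⟨0, u, c, le_refl _, ?_, ?_, rfl⟩
    · intro S hS
      obtain ⟨i, _⟩ := hS
      exact i.elim0
    · intro S hS
      obtain ⟨i, _⟩ := hS
      exact i.elim0
  | succ k ih =>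
    intro u c
    by_cases hu : Lin u
    · by_cases hc : Lin c
      · exact ⟨k + 1, u, c, le_refl _, hu, hc, rfl⟩
      · unfold Lin at hc
        push Not at hc
        obtain ⟨S, ⟨i₀, h0⟩, hS⟩ := hc
        obtain ⟨k', u', c', h1, h2, h3, h4⟩ := ih
          (fun j => u (i₀.succAbove j) + if i₀.succAbove j ∈ S then u i₀ else 0)
          (fun j => c (i₀.succAbove j))
        exact ⟨k', u', c', by omega, h2, h3, (RED88.step_c n u c S i₀ h0 hS).trans h4⟩
    · unfold Lin at hu
      push Not at hu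
      obtain ⟨S, ⟨i₀, h0⟩, hS⟩ := hu
      obtain ⟨k', u', c', h1, h2, h3, h4⟩ := ih (fun j => u (i₀.succAbove j))
        (fun j => c (i₀.succAbove j) + if i₀.succAbove j ∈ S then c i₀ else 0)
      exact ⟨k', u', c', by omega, h2, h3, (RED88.step_u n u c S i₀ h0 hS).trans h4⟩

end Pool.Agent.Lib.MP_eacabd_co.Clo8
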